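import Mathlib

set_option autoImplicit false

/-! Definitions for: SL₃(ℤ) does not bi-Lipschitz embed into L¹ (MP_c058bc_gt). -/

namespace Pool.Agent.SL3L1

open Matrix

abbrev GZ := Matrix.SpecialLinearGroup (Fin 3) ℤ
abbrev GQ := Matrix.SpecialLinearGroup (Fin 3) ℚ

/-- the inclusion `SL₃(ℤ) → SL₃(ℚ)` -/
def castQ : GZ →* GQ := Matrix.SpecialLinearGroup.map (Int.castRingHom ℚ)

/-- sum of the absolute values of the entries -/
noncomputable def nrm (A : GQ) : ℝ :=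
  ∑ i, ∑ j, |((A.1 i j : ℚ) : ℝ)|

/-- word length with respect to `S` -/
noncomputable def wl (S : Finset GZ) (g : GZ) : ℕ :=
  sInf {n : ℕ | ∃ l : List GZ, l.length = n ∧ (∀ x ∈ l, x ∈ S ∨ x⁻¹ ∈ S) ∧ l.prod = g}

/-- upper unitriangular matrix -/
def uni (x y w : ℚ) : GQ :=
  ⟨!![1, x, w; 0, 1, y; 0, 0, 1], by simp [Matrix.det_fin_three]⟩

/-- diagonal matrix `diag(2^(2P+Q), 2^(Q-P), 2^(-P-2Q))` -/
def dia (P Q : ℤ) : GQ :=
  ⟨!![(2:ℚ) ^ (2 * P + Q), 0, 0; 0, (2:ℚ) ^ (Q - P), 0; 0, 0, (2:ℚ) ^ (-P - 2 * Q)], by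
    have h : (2:ℚ) ≠ 0 := by norm_num
    simp only [Matrix.det_fin_three, Matrix.of_apply, Matrix.cons_val', Matrix.cons_val_zero,
      Matrix.cons_val_one, Matrix.cons_val]
    simp only [mul_zero, sub_zero, zero_mul, add_zero]
    rw [← zpow_add₀ h, ← zpow_add₀ h]
    rw [show 2 * P + Q + (Q - P) + (-P - 2 * Q) = 0 by ring]
    simp⟩

/-- dyadic rationals -/
def Dy (x : ℚ) : Prop := ∃ (k : ℕ) (m : ℤ), x = m / 2 ^ k

/-- the solvable group of upper triangular matrices with dyadic entries and diagonal in `dia` -/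
def HH : Set GQ := {g | ∃ (x y w : ℚ) (P Q : ℤ), Dy x ∧ Dy y ∧ Dy w ∧ g = uni x y w * dia P Q}

/-- `hp l Y`: the lattice `ℤ³ Y` has a nonzero vector with all coordinates `< 2^(-l)` -/
def hp (l : ℕ) (Y : GQ) : Prop :=
  ∃ v : Fin 3 → ℤ, v ≠ 0 ∧ ∀ j, |∑ i, (v i : ℚ) * Y.1 i j| < 1 / 2 ^ l

/-- height of `Y` -/
noncomputable def ht (Y : GQ) : ℕ := sInf {l : ℕ | ¬ hp l Y}

/-- combinatorial implication behind a cut inequality -/
def CutImp (V : Type) (s0 s4 : V) (E : List (V × V)) (T : List (V × V × V)) : Prop :=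
  ∀ χ : V → Prop, ¬ (χ s0 ↔ χ s4) →
    (∃ e ∈ E, ¬ (χ e.1 ↔ χ e.2)) ∨
    (∃ t ∈ T, (χ t.1 ↔ χ t.2.2) ∧ ¬ (χ t.2.1 ↔ χ t.1))

end Pool.Agent.SL3L1
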