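import Mathlib
import Pool.Agent.SL3L1.Defs

set_option autoImplicit false

namespace Pool.Agent.SL3L1

/-- bounded real sequences -/
def Bd (u : ℕ → ℝ) : Prop := ∃ B, ∀ n, |u n| ≤ B

/-- Banach limits -/
structure IsBL (BL : (ℕ → ℝ) → ℝ) : Prop where
  add : ∀ u v : ℕ → ℝ, Bd u → Bd v → BL (fun n => u n + v n) = BL u + BL v
  smul : ∀ (c : ℝ) (u : ℕ → ℝ), Bd u → BL (fun n => c * u n) = c * BL u
  mono : ∀ u v : ℕ → ℝ, Bd u → Bd v → (∀ n, u n ≤ v n) → BL u ≤ BL v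
  const : ∀ c : ℝ, BL (fun _ => c) = c
  shift : ∀ u : ℕ → ℝ, Bd u → BL (fun n => u (n + 1)) = BL u
  ces : ∀ (u : ℕ → ℝ) (x : ℝ), Bd u →
      (∀ e > 0, ∀ᶠ T : ℕ in Filter.atTop,
        (∑ k ∈ Finset.range T, u k) ≤ (x + e) * (T : ℝ)) → BL u ≤ x

/-- the sample points of the averaging procedure -/
def smp (L : ℕ) (k1 k2 k3 i j : ℤ) : GQ :=
  uni ((k2 : ℚ) / 2 ^ L) ((k3 : ℚ) / 2 ^ L) (((k1 : ℚ) + k2 * k3) / 4 ^ L) * dia (-i) (-j)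

/-- the inner triple mean -/
def BL3 (BL : (ℕ → ℝ) → ℝ) (φ : GQ → ℝ) (L : ℕ) (i j : ℤ) : ℝ :=
  BL fun k3 => BL fun k2 => BL fun k1 => φ (smp L (k1 : ℤ) (k2 : ℤ) (k3 : ℤ) i j)

/-- the class of functions on which the mean is well behaved -/
def Cls (BL : (ℕ → ℝ) → ℝ) : Set (GQ → ℝ) := {φ |
  (∀ (L : ℕ) (i j : ℤ), ∃ B : ℝ, ∀ k1 k2 k3 : ℤ, |φ (smp L k1 k2 k3 i j)| ≤ B) ∧
  (∀ i j : ℤ, ∃ B : ℝ, ∀ L : ℕ, BL3 BL (fun X => |φ X|) L i j ≤ B) ∧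
  (∀ i0 j0 : ℤ, ∃ B : ℝ, ∀ i j : ℤ, i0 ≤ i → j0 ≤ j →
    BL (fun L => BL3 BL (fun X => |φ X|) L i j) ≤ B)}

/-- the mean -/
def Mn (BL : (ℕ → ℝ) → ℝ) (φ : GQ → ℝ) : ℝ :=
  BL fun i => BL fun j => BL fun L => BL3 BL φ L (i : ℤ) (j : ℤ)

/-- number of integers `n` with `|t + n| < r` -/
noncomputable def cnt (t r : ℝ) : ℝ := (Set.ncard {n : ℤ | |t + n| < r} : ℝ)

end Pool.Agent.SL3L1
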