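import Mathlib
import Pool.Agent.SL3L1.Defs2

set_option autoImplicit false

namespace Pool.Agent.SL3L1

open Matrix

/-- TARGET 1 -/
theorem uni_mul (x y w x' y' w' : ℚ) :
    uni x y w * uni x' y' w' = uni (x + x') (y + y') (w + w' + x * y') := by
  apply Subtype.ext
  rw [Matrix.SpecialLinearGroup.coe_mul]
  ext i j
  fin_cases i <;> fin_cases j <;> simp [uni, Matrix.mul_apply, Fin.sum_univ_three] <;> ring

/-- TARGET 2 -/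
theorem dia_mul (P Q P' Q' : ℤ) : dia P Q * dia P' Q' = dia (P + P') (Q + Q') := by
  have h : (2:ℚ) ≠ 0 := by norm_num
  apply Subtype.ext
  rw [Matrix.SpecialLinearGroup.coe_mul]
  ext i j
  fin_cases i <;> fin_cases j <;>
    simp [dia, Matrix.mul_apply, Fin.sum_univ_three, -zpow_natCast] <;>
    (rw [← zpow_add₀ h]; congr 1; ring)

/-- TARGET 3 -/
theorem dia_uni (P Q : ℤ) (x y w : ℚ) :
    dia P Q * uni x y w =
      uni (x * 2 ^ (3 * P)) (y * 2 ^ (3 * Q)) (w * 2 ^ (3 * P + 3 * Q)) * dia P Q := by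
  have h : (2:ℚ) ≠ 0 := by norm_num
  have e1 : (2:ℚ) ^ (2 * P + Q) = 2 ^ (3 * P) * 2 ^ (Q - P) := by
    rw [← zpow_add₀ h]; congr 1; ring
  have e2 : (2:ℚ) ^ (Q - P) = 2 ^ (3 * Q) * 2 ^ (-P - 2 * Q) := by
    rw [← zpow_add₀ h]; congr 1; ring
  have e3 : (2:ℚ) ^ (2 * P + Q) = 2 ^ (3 * P + 3 * Q) * 2 ^ (-P - 2 * Q) := by
    rw [← zpow_add₀ h]; congr 1; ring
  apply Subtype.ext
  rw [Matrix.SpecialLinearGroup.coe_mul, Matrix.SpecialLinearGroup.coe_mul]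
  ext i j
  rw [Matrix.mul_apply, Matrix.mul_apply, Fin.sum_univ_three, Fin.sum_univ_three]
  fin_cases i <;> fin_cases j
  · simp [dia, uni]
  · simp only [dia, uni]
    simp
    rw [e1]; ring
  · simp only [dia, uni]
    simp
    rw [e3]; ring
  · simp [dia, uni]
  · simp [dia, uni]
  · simp only [dia, uni]
    simp
    rw [e2]; ring
  · simp [dia, uni]
  · simp [dia, uni]
  · simp [dia, uni]

/-- TARGET 4 -/
theorem smp_mul (L : ℕ) (k1 k2 k3 i j P Q : ℤ) (x y w : ℚ) (m1 m2 m3 : ℤ)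
    (h2 : x * 2 ^ (3 * (-i)) = m2 / 2 ^ L) (h3 : y * 2 ^ (3 * (-j)) = m3 / 2 ^ L)
    (h1 : w * 2 ^ (3 * (-i) + 3 * (-j)) = m1 / 4 ^ L) :
    smp L k1 k2 k3 i j * (uni x y w * dia P Q) =
      smp L (k1 + m1 - m2 * k3 - m2 * m3) (k2 + m2) (k3 + m3) (i - P) (j - Q) := by
  have h4 : (4 : ℚ) ^ L = 2 ^ L * 2 ^ L := by
    rw [← mul_pow]; norm_num
  have hne : (2 : ℚ) ^ L ≠ 0 := by positivity
  unfold smp
  rw [mul_assoc, ← mul_assoc (dia (-i) (-j)), dia_uni, h1, h2, h3, mul_assoc, dia_mul,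
    ← mul_assoc, uni_mul]
  congr 1
  · congr 1
    · push_cast; field_simp
    · push_cast; field_simp
    · push_cast
      rw [h4]
      field_simp
      ring
  · congr 1 <;> ring

theorem Dy_add {x y : ℚ} (hx : Dy x) (hy : Dy y) : Dy (x + y) := by
  obtain ⟨k, m, rfl⟩ := hx
  obtain ⟨k', m', rfl⟩ := hy
  refine ⟨k + k', m * 2 ^ k' + m' * 2 ^ k, ?_⟩
  push_cast
  rw [pow_add]
  field_simp

theorem Dy_mul {x y : ℚ} (hx : Dy x) (hy : Dy y) : Dy (x * y) := by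
  obtain ⟨k, m, rfl⟩ := hx
  obtain ⟨k', m', rfl⟩ := hy
  refine ⟨k + k', m * m', ?_⟩
  push_cast
  rw [pow_add]
  field_simp

theorem Dy_neg {x : ℚ} (hx : Dy x) : Dy (-x) := by
  obtain ⟨k, m, rfl⟩ := hx
  refine ⟨k, -m, ?_⟩
  push_cast
  ring

theorem Dy_zero : Dy 0 := ⟨0, 0, by simp⟩

theorem Dy_ex {x : ℚ} (hx : Dy x) (e : ℤ) : ∃ L0 : ℕ, ∀ L ≥ L0, ∃ m : ℤ, x * 2 ^ e = m / 2 ^ L := by
  obtain ⟨k, m, rfl⟩ := hx
  refine ⟨k + (-e).toNat, fun L hL => ⟨m * 2 ^ ((e + L - k).toNat), ?_⟩⟩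
  have h2 : (2 : ℚ) ≠ 0 := by norm_num
  have h1 : (((e + L - k).toNat : ℕ) : ℤ) = e + L - k := Int.toNat_of_nonneg (by omega)
  have h3 : (2 : ℚ) ^ ((e + L - k).toNat) = 2 ^ e * 2 ^ L / 2 ^ k := by
    rw [← zpow_natCast, h1, zpow_sub₀ h2, zpow_add₀ h2, zpow_natCast, zpow_natCast]
  push_cast
  rw [h3]
  field_simp

theorem Dy_zpow {x : ℚ} (hx : Dy x) (e : ℤ) : Dy (x * 2 ^ e) := by
  obtain ⟨L0, h⟩ := Dy_ex hx e
  obtain ⟨m, hm⟩ := h L0 le_rfl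
  exact ⟨L0, m, hm⟩

/-- TARGET 5 -/
theorem smp_mul_ex (g : GQ) (hg : g ∈ HH) : ∃ P Q : ℤ, ∀ i j : ℤ, ∃ L0 : ℕ, ∀ L ≥ L0,
    ∃ m1 m2 m3 : ℤ, ∀ k1 k2 k3 : ℤ,
      smp L k1 k2 k3 i j * g =
        smp L (k1 + m1 - m2 * k3 - m2 * m3) (k2 + m2) (k3 + m3) (i - P) (j - Q) := by
  obtain ⟨x, y, w, P, Q, hx, hy, hw, rfl⟩ := hg
  refine ⟨P, Q, fun i j => ?_⟩
  obtain ⟨L1, h1⟩ := Dy_ex hx (3 * (-i))
  obtain ⟨L2, h2⟩ := Dy_ex hy (3 * (-j))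
  obtain ⟨L3, h3⟩ := Dy_ex hw (3 * (-i) + 3 * (-j))
  refine ⟨L1 + L2 + L3, fun L hL => ?_⟩
  obtain ⟨m2, e2⟩ := h1 L (by omega)
  obtain ⟨m3, e3⟩ := h2 L (by omega)
  obtain ⟨m1, e1⟩ := h3 (2 * L) (by omega)
  refine ⟨m1, m2, m3, fun k1 k2 k3 => smp_mul L k1 k2 k3 i j P Q x y w m1 m2 m3 e2 e3 ?_⟩
  rw [e1, pow_mul]
  norm_num

/-- TARGET 6: refinement -/
theorem smp_refine (L L' : ℕ) (h : L ≤ L') (k1 k2 k3 i j : ℤ) :
    smp L k1 k2 k3 i j = smp L' (k1 * 4 ^ (L' - L)) (k2 * 2 ^ (L' - L)) (k3 * 2 ^ (L' - L)) i j := by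
  obtain ⟨d, rfl⟩ := Nat.exists_eq_add_of_le h
  rw [Nat.add_sub_cancel_left]
  have h4 : (4 : ℚ) ^ d = 2 ^ d * 2 ^ d := by
    rw [← mul_pow]; norm_num
  unfold smp
  congr 2
  · push_cast
    rw [pow_add]
    field_simp
  · push_cast
    rw [pow_add]
    field_simp
  · push_cast
    rw [pow_add, h4]
    field_simp

/-- TARGET 7: `HH` is closed under multiplication and inverse -/
theorem HH_mul (g h : GQ) (hg : g ∈ HH) (hh : h ∈ HH) : g * h ∈ HH := by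
  obtain ⟨x, y, w, P, Q, hx, hy, hw, rfl⟩ := hg
  obtain ⟨x', y', w', P', Q', hx', hy', hw', rfl⟩ := hh
  refine ⟨x + x' * 2 ^ (3 * P), y + y' * 2 ^ (3 * Q),
    w + w' * 2 ^ (3 * P + 3 * Q) + x * (y' * 2 ^ (3 * Q)), P + P', Q + Q', ?_, ?_, ?_, ?_⟩
  rotate_left 3
  · rw [mul_assoc, ← mul_assoc (dia P Q), dia_uni, mul_assoc, dia_mul, ← mul_assoc, uni_mul]
  · exact Dy_add hx (Dy_zpow hx' _)
  · exact Dy_add hy (Dy_zpow hy' _)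
  · exact Dy_add (Dy_add hw (Dy_zpow hw' _)) (Dy_mul hx (Dy_zpow hy' _))

theorem uni_zero : uni 0 0 0 = 1 := by
  apply Subtype.ext
  ext i j
  fin_cases i <;> fin_cases j <;> simp [uni]

theorem dia_zero : dia 0 0 = 1 := by
  apply Subtype.ext
  ext i j
  fin_cases i <;> fin_cases j <;> simp [dia]

theorem uni_inv (x y w : ℚ) : (uni x y w)⁻¹ = uni (-x) (-y) (x * y - w) := by
  rw [inv_eq_iff_mul_eq_one, uni_mul]
  rw [← uni_zero]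
  congr 1 <;> ring

theorem dia_inv (P Q : ℤ) : (dia P Q)⁻¹ = dia (-P) (-Q) := by
  rw [inv_eq_iff_mul_eq_one, dia_mul, ← dia_zero]
  congr 1 <;> ring

theorem HH_inv (g : GQ) (hg : g ∈ HH) : g⁻¹ ∈ HH := by
  obtain ⟨x, y, w, P, Q, hx, hy, hw, rfl⟩ := hg
  refine ⟨-x * 2 ^ (3 * (-P)), -y * 2 ^ (3 * (-Q)),
    (x * y - w) * 2 ^ (3 * (-P) + 3 * (-Q)), -P, -Q, ?_, ?_, ?_, ?_⟩
  rotate_left 3
  · rw [_root_.mul_inv_rev, uni_inv, dia_inv, dia_uni]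
  · exact Dy_zpow (Dy_neg hx) _
  · exact Dy_zpow (Dy_neg hy) _
  · rw [sub_eq_add_neg]
    exact Dy_zpow (Dy_add (Dy_mul hx hy) (Dy_neg hw)) _

theorem HH_one : (1 : GQ) ∈ HH :=
  ⟨0, 0, 0, 0, 0, Dy_zero, Dy_zero, Dy_zero, by rw [uni_zero, dia_zero, mul_one]⟩

end Pool.Agent.SL3L1
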