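import Mathlib
import Pool.Agent.SL3L1.Defs

set_option autoImplicit false

namespace Pool.Agent.SL3L1

open Matrix

theorem nrm_entry (A : GQ) (i j : Fin 3) : |((A.1 i j : ℚ) : ℝ)| ≤ nrm A := by
  unfold nrm
  refine le_trans ?_ (Finset.single_le_sum (f := fun i => ∑ j, |((A.1 i j : ℚ) : ℝ)|)
    (fun i _ => Finset.sum_nonneg fun j _ => abs_nonneg _) (Finset.mem_univ i))
  exact Finset.single_le_sum (f := fun j => |((A.1 i j : ℚ) : ℝ)|)
    (fun j _ => abs_nonneg _) (Finset.mem_univ j)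

lemma nrm_row_9382 (A : GQ) (i : Fin 3) : ∑ j, |((A.1 i j : ℚ) : ℝ)| ≤ nrm A := by
  unfold nrm
  exact Finset.single_le_sum (f := fun i => ∑ j, |((A.1 i j : ℚ) : ℝ)|)
    (fun i _ => Finset.sum_nonneg fun j _ => abs_nonneg _) (Finset.mem_univ i)

/-- TARGET: submultiplicativity -/
theorem nrm_mul (A B : GQ) : nrm (A * B) ≤ nrm A * nrm B := by
  have h1 : nrm (A * B) ≤ ∑ i : Fin 3, ∑ j : Fin 3, ∑ k : Fin 3,
      |((A.1 i k : ℚ) : ℝ)| * |((B.1 k j : ℚ) : ℝ)| := by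
    unfold nrm
    refine Finset.sum_le_sum fun i _ => Finset.sum_le_sum fun j _ => ?_
    have e : (((A * B).1 i j : ℚ) : ℝ) = ∑ k : Fin 3, ((A.1 i k : ℚ) : ℝ) * ((B.1 k j : ℚ) : ℝ) := by
      have : (A * B).1 i j = ∑ k : Fin 3, A.1 i k * B.1 k j := rfl
      rw [this]
      push_cast
      rfl
    rw [e]
    refine (Finset.abs_sum_le_sum_abs _ _).trans (le_of_eq ?_)
    exact Finset.sum_congr rfl fun k _ => abs_mul _ _
  refine h1.trans ?_
  have h2 : ∀ i : Fin 3, ∑ j : Fin 3, ∑ k : Fin 3,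
      |((A.1 i k : ℚ) : ℝ)| * |((B.1 k j : ℚ) : ℝ)| ≤ ∑ k : Fin 3, |((A.1 i k : ℚ) : ℝ)| * nrm B := by
    intro i
    rw [Finset.sum_comm]
    refine Finset.sum_le_sum fun k _ => ?_
    rw [← Finset.mul_sum]
    exact mul_le_mul_of_nonneg_left (nrm_row_9382 B k) (abs_nonneg _)
  refine (Finset.sum_le_sum fun i _ => h2 i).trans (le_of_eq ?_)
  simp only [← Finset.sum_mul]
  rfl

/-- TARGET (expand the determinant, which is 1) -/
theorem nrm_one_le (A : GQ) : 1 ≤ nrm A := by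
  have hdet := A.2
  rw [Matrix.det_fin_three] at hdet
  have h0 : 0 ≤ nrm A := (abs_nonneg _).trans (nrm_entry A 0 0)
  have r0 := nrm_row_9382 A 0
  have r1 := nrm_row_9382 A 1
  have r2 := nrm_row_9382 A 2
  simp only [Fin.sum_univ_three] at r0 r1 r2
  have hdet' : ((A.1 0 0 : ℚ) : ℝ) * (A.1 1 1 : ℚ) * (A.1 2 2 : ℚ)
      - (A.1 0 0 : ℚ) * (A.1 1 2 : ℚ) * (A.1 2 1 : ℚ)
      - (A.1 0 1 : ℚ) * (A.1 1 0 : ℚ) * (A.1 2 2 : ℚ)
      + (A.1 0 1 : ℚ) * (A.1 1 2 : ℚ) * (A.1 2 0 : ℚ)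
      + (A.1 0 2 : ℚ) * (A.1 1 0 : ℚ) * (A.1 2 1 : ℚ)
      - (A.1 0 2 : ℚ) * (A.1 1 1 : ℚ) * (A.1 2 0 : ℚ) = 1 := by
    exact_mod_cast hdet
  set S := nrm A with hS
  clear_value S
  generalize ((A.1 0 0 : ℚ) : ℝ) = a00 at *
  generalize ((A.1 0 1 : ℚ) : ℝ) = a01 at *
  generalize ((A.1 0 2 : ℚ) : ℝ) = a02 at *
  generalize ((A.1 1 0 : ℚ) : ℝ) = a10 at *
  generalize ((A.1 1 1 : ℚ) : ℝ) = a11 at *
  generalize ((A.1 1 2 : ℚ) : ℝ) = a12 at *
  generalize ((A.1 2 0 : ℚ) : ℝ) = a20 at *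
  generalize ((A.1 2 1 : ℚ) : ℝ) = a21 at *
  generalize ((A.1 2 2 : ℚ) : ℝ) = a22 at *
  have six : 1 ≤ |a00| * |a11| * |a22| + |a00| * |a12| * |a21| + |a01| * |a10| * |a22|
      + |a01| * |a12| * |a20| + |a02| * |a10| * |a21| + |a02| * |a11| * |a20| := by
    simp only [← abs_mul]
    rw [← hdet']
    have p1 := le_abs_self (a00 * a11 * a22)
    have p2 := neg_abs_le (a00 * a12 * a21)
    have p3 := neg_abs_le (a01 * a10 * a22)
    have p4 := le_abs_self (a01 * a12 * a20)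
    have p5 := le_abs_self (a02 * a10 * a21)
    have p6 := neg_abs_le (a02 * a11 * a20)
    linarith
  have hprod : |a00| * |a11| * |a22| + |a00| * |a12| * |a21| + |a01| * |a10| * |a22|
      + |a01| * |a12| * |a20| + |a02| * |a10| * |a21| + |a02| * |a11| * |a20| ≤
      (|a00| + |a01| + |a02|) * (|a10| + |a11| + |a12|) * (|a20| + |a21| + |a22|) := by
    rw [← sub_nonneg]
    ring_nf
    positivity
  have hS3 : (|a00| + |a01| + |a02|) * (|a10| + |a11| + |a12|) * (|a20| + |a21| + |a22|) ≤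
      S * S * S := by
    refine mul_le_mul (mul_le_mul r0 r1 (by positivity) h0) r2 (by positivity) (by positivity)
  by_contra hlt
  push Not at hlt
  have : S * S * S < 1 := by
    have h1 : S * S ≤ 1 := by nlinarith
    nlinarith
  linarith

/-- TARGET (the inverse is the adjugate, its entries are 2x2 minors) -/
theorem nrm_inv (A : GQ) : nrm A⁻¹ ≤ nrm A ^ 2 := by
  have e : (A⁻¹).1 = Matrix.adjugate A.1 := Matrix.SpecialLinearGroup.coe_inv A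
  unfold nrm
  rw [e, Matrix.adjugate_fin_three]
  simp only [Fin.sum_univ_three, Matrix.of_apply, Matrix.cons_val', Matrix.cons_val_zero,
    Matrix.cons_val_one, Matrix.cons_val]
  push_cast
  generalize ((A.1 0 0 : ℚ) : ℝ) = a00 at *
  generalize ((A.1 0 1 : ℚ) : ℝ) = a01 at *
  generalize ((A.1 0 2 : ℚ) : ℝ) = a02 at *
  generalize ((A.1 1 0 : ℚ) : ℝ) = a10 at *
  generalize ((A.1 1 1 : ℚ) : ℝ) = a11 at *
  generalize ((A.1 1 2 : ℚ) : ℝ) = a12 at *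
  generalize ((A.1 2 0 : ℚ) : ℝ) = a20 at *
  generalize ((A.1 2 1 : ℚ) : ℝ) = a21 at *
  generalize ((A.1 2 2 : ℚ) : ℝ) = a22 at *
  have h1 : ∀ a b c d : ℝ, |a * b - c * d| ≤ |a| * |b| + |c| * |d| := by
    intro a b c d
    rw [← abs_mul, ← abs_mul]
    exact abs_sub _ _
  have h2 : ∀ a b c d : ℝ, |-(a * b) + c * d| ≤ |a| * |b| + |c| * |d| := by
    intro a b c d
    rw [← abs_mul, ← abs_mul, ← abs_neg (a * b)]
    exact abs_add_le _ _
  refine le_trans (add_le_add (add_le_add (add_le_add (add_le_add (h1 _ _ _ _) (h2 _ _ _ _))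
    (h1 _ _ _ _)) (add_le_add (add_le_add (h2 _ _ _ _) (h1 _ _ _ _)) (h2 _ _ _ _)))
    (add_le_add (add_le_add (h1 _ _ _ _) (h2 _ _ _ _)) (h1 _ _ _ _))) ?_
  rw [← sub_nonneg]
  ring_nf
  positivity

theorem nrm_uni (x y w : ℚ) : nrm (uni x y w) = 3 + |(x : ℝ)| + |(y : ℝ)| + |(w : ℝ)| := by
  simp [nrm, uni, Fin.sum_univ_three]
  ring

theorem nrm_dia (P Q : ℤ) : nrm (dia P Q) =
    (2 : ℝ) ^ (2 * P + Q) + (2 : ℝ) ^ (Q - P) + (2 : ℝ) ^ (-P - 2 * Q) := by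
  have h : ∀ n : ℤ, |(2 : ℝ) ^ n| = (2 : ℝ) ^ n := fun n => abs_of_pos (by positivity)
  simp [nrm, dia, Fin.sum_univ_three]

/-- TARGET -/
theorem log_nrm_dia (P Q : ℤ) :
    Real.log (nrm (dia P Q)) ≤ Real.log 3 + 2 * (|(P : ℝ)| + |(Q : ℝ)|) * Real.log 2 := by
  rw [nrm_dia]
  have hz : ∀ n : ℤ, n ≤ 2 * (|P| + |Q|) → (2 : ℝ) ^ n ≤ (2 : ℝ) ^ (2 * (|P| + |Q|)) := fun n hn =>
    zpow_le_zpow_right₀ (by norm_num) hn
  have aP := abs_nonneg P
  have aQ := abs_nonneg Q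
  have b1 := le_abs_self P
  have b2 := neg_abs_le P
  have b3 := le_abs_self Q
  have b4 := neg_abs_le Q
  have e1 := hz (2 * P + Q) (by linarith)
  have e2 := hz (Q - P) (by linarith)
  have e3 := hz (-P - 2 * Q) (by linarith)
  have hle : (2 : ℝ) ^ (2 * P + Q) + (2 : ℝ) ^ (Q - P) + (2 : ℝ) ^ (-P - 2 * Q) ≤
      3 * (2 : ℝ) ^ (2 * (|P| + |Q|)) := by linarith
  refine (Real.log_le_log (by positivity) hle).trans (le_of_eq ?_)
  rw [Real.log_mul (by norm_num) (by positivity), Real.log_zpow]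
  push_cast
  rfl

/-- integer matrices -/
theorem nrm_castQ (γ : GZ) : nrm (castQ γ) = ∑ i, ∑ j, |((γ.1 i j : ℤ) : ℝ)| := by
  unfold nrm
  refine Finset.sum_congr rfl fun i _ => Finset.sum_congr rfl fun j _ => ?_
  have : (castQ γ).1 i j = ((γ.1 i j : ℤ) : ℚ) := rfl
  rw [this]
  norm_cast

end Pool.Agent.SL3L1
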