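import Mathlib
import Pool.Agent.SL3L1.Defs

set_option autoImplicit false

namespace Pool.Agent.SL3L1

open Matrix

/-- the four points at distance δ on the axes -/
def star (δ : ℚ) : List (ℚ × ℚ) := [(δ, 0), (-δ, 0), (0, δ), (0, -δ)]

private def Mono (c : ℚ × ℚ → Prop) : Prop :=
  ∀ (u d : ℚ × ℚ) (p q : ℕ), 0 < p → p < q → (c u ↔ c (u + (q : ℚ) • d)) →
    (c (u + (p : ℚ) • d) ↔ c u)

private lemma Mono.seg {c : ℚ × ℚ → Prop} (h : Mono c) (a b : ℚ × ℚ) (t : ℚ) (h0 : 0 ≤ t)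
    (h1 : t ≤ 1) (hab : c a ↔ c b) : c (a + t • (b - a)) ↔ c a := by
  rcases eq_or_lt_of_le h0 with h0 | h0
  · rw [← h0]; simp
  rcases eq_or_lt_of_le h1 with h1 | h1
  · rw [h1]; simp [hab]
  have hp : 0 < t.num := Rat.num_pos.2 h0
  have hq : (0 : ℚ) < t.den := by exact_mod_cast t.den_pos
  have hpq : t.num.toNat < t.den := by
    have : t.num < t.den := Rat.num_lt_denom_iff.2 h1
    omega
  have hnum : ((t.num.toNat : ℕ) : ℚ) = t.num := by
    have : ((t.num.toNat : ℕ) : ℤ) = t.num := Int.toNat_of_nonneg hp.le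
    exact_mod_cast this
  have key := h a ((1 / (t.den : ℚ)) • (b - a)) t.num.toNat t.den (by omega) hpq (by
    rw [smul_smul, mul_one_div_cancel hq.ne', one_smul]
    have : a + (b - a) = b := by abel
    rw [this]; exact hab)
  rw [smul_smul, hnum] at key
  have e : (t.num : ℚ) * (1 / (t.den : ℚ)) = t := by
    rw [mul_one_div]; exact Rat.num_div_den t
  rw [e] at key
  exact key

private lemma Mono.neg {c : ℚ × ℚ → Prop} (h : Mono c) : Mono (fun u => ¬ c u) := by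
  intro u d p q hp hq hc
  have := h u d p q hp hq (not_iff_not.1 hc)
  exact not_congr this

private lemma Mono.swap {c : ℚ × ℚ → Prop} (h : Mono c) : Mono (fun u => c u.swap) := by
  intro u d p q hp hq hc
  have := h u.swap d.swap p q hp hq (by simpa using hc)
  simpa using this

private def AB (δ : ℚ) (c : ℚ × ℚ → Prop) : Prop :=
  (∀ u : ℚ × ℚ, u.1 + u.2 < δ → c u) ∧ (∀ u : ℚ × ℚ, 2 < u.1 + u.2 → ¬ c u)

private lemma AB.swap {δ : ℚ} {c : ℚ × ℚ → Prop} (h : AB δ c) : AB δ (fun u => c u.swap) :=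
  ⟨fun u hu => h.1 u.swap (by simpa [add_comm] using hu),
    fun u hu => h.2 u.swap (by simpa [add_comm] using hu)⟩

/-- betweenness in a convenient form: `b = u + s v`, `w = u + t v`, `0 ≤ s ≤ t` -/
private lemma Mono.btw {c : ℚ × ℚ → Prop} (h : Mono c) (u v : ℚ × ℚ) (s t : ℚ) (hs : 0 ≤ s)
    (hst : s ≤ t) (hc : c u ↔ c (u + t • v)) : c (u + s • v) ↔ c u := by
  rcases eq_or_lt_of_le (hs.trans hst) with ht | ht
  · have hs0 : s = 0 := by linarith
    rw [hs0]; simp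
  have := h.seg u (u + t • v) (s / t) (by positivity) ((div_le_one ht).2 hst) hc
  have e : u + (s / t) • (u + t • v - u) = u + s • v := by
    rw [add_sub_cancel_left, smul_smul, div_mul_cancel₀ _ ht.ne']
  rwa [e] at this

private lemma AB.step {δ : ℚ} {c c' : ℚ × ℚ → Prop} (h : AB δ c) (hm : Mono c')
    (hcc : ∀ u : ℚ × ℚ, 1 ≤ u.1 → (c u ↔ c' u)) : AB δ c' := by
  constructor
  · intro u hu
    by_cases h1 : 1 ≤ u.1
    · exact (hcc u h1).1 (h.1 u hu)
    push Not at h1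
    by_contra hcon
    have hx : 0 < 1 - u.1 := by linarith
    obtain ⟨η, hη, hη2⟩ : ∃ η : ℚ, 0 < η ∧ (1 - u.1) * η < δ - (u.1 + u.2) := by
      refine ⟨(δ - (u.1 + u.2)) / (2 * (1 - u.1)), by
        apply div_pos <;> linarith, ?_⟩
      have : (1 - u.1) * ((δ - (u.1 + u.2)) / (2 * (1 - u.1))) = (δ - (u.1 + u.2)) / 2 := by
        field_simp
      rw [this]; linarith
    obtain ⟨μ, hμ1, hμ2⟩ : ∃ μ : ℚ, 1 - u.1 ≤ μ ∧ 2 < u.1 + u.2 + μ * η := by
      refine ⟨max (1 - u.1) ((3 - (u.1 + u.2)) / η), le_max_left _ _, ?_⟩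
      have h3 : (3 - (u.1 + u.2)) / η ≤ max (1 - u.1) ((3 - (u.1 + u.2)) / η) := le_max_right _ _
      rw [div_le_iff₀ hη] at h3
      linarith
    have hw : ¬ c' (u + μ • ((1 : ℚ), -1 + η)) := by
      rw [← hcc _ (by simp; linarith)]
      apply h.2
      simp
      nlinarith
    have hb : c' (u + (1 - u.1) • ((1 : ℚ), -1 + η)) := by
      rw [← hcc _ (by simp)]
      apply h.1
      simp
      nlinarith
    have := hm.btw u ((1 : ℚ), -1 + η) (1 - u.1) μ hx.le hμ1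
      (iff_of_false hcon hw)
    exact hcon (this.1 hb)
  · intro u hu
    by_cases h1 : 1 ≤ u.1
    · exact fun hc => h.2 u hu ((hcc u h1).2 hc)
    push Not at h1
    intro hcon
    have hx : 0 < 1 - u.1 := by linarith
    obtain ⟨η, hη, hη2⟩ : ∃ η : ℚ, 0 < η ∧ (1 - u.1) * η < (u.1 + u.2) - 2 := by
      refine ⟨((u.1 + u.2) - 2) / (2 * (1 - u.1)), by
        apply div_pos <;> linarith, ?_⟩
      have : (1 - u.1) * (((u.1 + u.2) - 2) / (2 * (1 - u.1))) = ((u.1 + u.2) - 2) / 2 := by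
        field_simp
      rw [this]; linarith
    obtain ⟨μ, hμ1, hμ2⟩ : ∃ μ : ℚ, 1 - u.1 ≤ μ ∧ u.1 + u.2 - μ * η < δ := by
      refine ⟨max (1 - u.1) ((u.1 + u.2 - δ + 1) / η), le_max_left _ _, ?_⟩
      have h3 : (u.1 + u.2 - δ + 1) / η ≤ max (1 - u.1) ((u.1 + u.2 - δ + 1) / η) :=
        le_max_right _ _
      rw [div_le_iff₀ hη] at h3
      linarith
    have hb : c' (u + μ • ((1 : ℚ), -1 - η)) := by
      rw [← hcc _ (by simp; linarith)]
      apply h.1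
      simp
      nlinarith
    have hw : ¬ c' (u + (1 - u.1) • ((1 : ℚ), -1 - η)) := by
      rw [← hcc _ (by simp)]
      apply h.2
      simp
      nlinarith
    have := hm.btw u ((1 : ℚ), -1 - η) (1 - u.1) μ hx.le hμ1
      (iff_of_true hcon hb)
    exact hw (this.2 hcon)

private lemma AB.step' {δ : ℚ} {c c' : ℚ × ℚ → Prop} (h : AB δ c) (hm : Mono c')
    (hcc : ∀ u : ℚ × ℚ, 1 ≤ u.2 → (c u ↔ c' u)) : AB δ c' := by
  have := AB.step h.swap hm.swap (fun u hu => hcc u.swap (by simpa using hu))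
  have h2 := this.swap
  simpa using h2

/-- the case of white `M` -/
private lemma caseW {δ : ℚ} (hδ : 0 < δ) {c0 c1 c2 c3 c4 : ℚ × ℚ → Prop}
    (m0 : Mono c0) (m1 : Mono c1) (m2 : Mono c2) (m3 : Mono c3) (m4 : Mono c4)
    (h01 : ∀ u : ℚ × ℚ, 1 ≤ u.1 → (c0 u ↔ c1 u))
    (h12 : ∀ u : ℚ × ℚ, 1 ≤ u.2 → (c1 u ↔ c2 u))
    (h23 : ∀ u : ℚ × ℚ, 1 ≤ u.1 → (c2 u ↔ c3 u))
    (h34 : ∀ u : ℚ × ℚ, 1 ≤ u.2 → (c3 u ↔ c4 u))
    (hW : ∀ u : ℚ × ℚ, 2 ≤ u.1 + u.2 → ¬ c0 u) (hs : c0 (δ, 0)) : c4 0 := by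
  have hAB0 : AB δ c0 := by
    refine ⟨fun u hu => ?_, fun u hu => hW u hu.le⟩
    by_contra hcon
    have hpos : 0 < δ - (u.1 + u.2) := by linarith
    -- v = s - u
    obtain ⟨t, ht1, ht2⟩ : ∃ t : ℚ, 1 ≤ t ∧ 2 ≤ u.1 + u.2 + t * (δ - (u.1 + u.2)) := by
      refine ⟨max 1 ((2 - (u.1 + u.2)) / (δ - (u.1 + u.2))), le_max_left _ _, ?_⟩
      have h3 : (2 - (u.1 + u.2)) / (δ - (u.1 + u.2)) ≤
        max 1 ((2 - (u.1 + u.2)) / (δ - (u.1 + u.2))) := le_max_right _ _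
      rw [div_le_iff₀ hpos] at h3
      linarith
    have hw : ¬ c0 (u + t • (((δ, 0) : ℚ × ℚ) - u)) := by
      apply hW
      simp
      nlinarith
    have := m0.btw u (((δ, 0) : ℚ × ℚ) - u) 1 t (by norm_num) ht1 (iff_of_false hcon hw)
    rw [one_smul, add_sub_cancel] at this
    exact hcon (this.1 hs)
  have a1 := hAB0.step m1 h01
  have a2 := a1.step' m2 h12
  have a3 := a2.step m3 h23
  have a4 := a3.step' m4 h34
  exact a4.1 0 (by simpa using hδ)

/-- the colours of `0` cannot be black in the first and white in the last colouring -/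
private lemma noBW {δ : ℚ} (hδ : 0 < δ) {c0 c1 c2 c3 c4 : ℚ × ℚ → Prop}
    (m0 : Mono c0) (m1 : Mono c1) (m2 : Mono c2) (m3 : Mono c3) (m4 : Mono c4)
    (h01 : ∀ u : ℚ × ℚ, 1 ≤ u.1 → (c0 u ↔ c1 u))
    (h12 : ∀ u : ℚ × ℚ, 1 ≤ u.2 → (c1 u ↔ c2 u))
    (h23 : ∀ u : ℚ × ℚ, 1 ≤ u.1 → (c2 u ↔ c3 u))
    (h34 : ∀ u : ℚ × ℚ, 1 ≤ u.2 → (c3 u ↔ c4 u))
    (h04 : ∀ u : ℚ × ℚ, 2 ≤ u.1 + u.2 → (c0 u ↔ c4 u))
    (hz0 : c0 0) (hz4 : ¬ c4 0)
    (hs0 : ∀ s ∈ star δ, c0 s) (hs4 : ∀ s ∈ star δ, ¬ c4 s) : False := by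
  have hδ2 : δ < 2 := by
    by_contra hcon
    push Not at hcon
    have h1 := hs0 (δ, 0) (by simp [star])
    have h2 := hs4 (δ, 0) (by simp [star])
    exact h2 ((h04 (δ, 0) (by simpa using hcon)).1 h1)
  -- extension
  have ext : ∀ s ∈ star δ, ∀ m : ℚ × ℚ, 2 ≤ m.1 + m.2 → ∀ t : ℚ, 1 ≤ t →
      (c0 (s + t • (m - s)) ↔ c0 m) := by
    intro s hs m hm t ht
    have hsum : s.1 + s.2 ≤ δ := by
      simp only [star, List.mem_cons, List.not_mem_nil, or_false] at hs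
      rcases hs with rfl | rfl | rfl | rfl <;> simp <;> linarith
    have hM : 2 ≤ (s + t • (m - s)).1 + (s + t • (m - s)).2 := by
      simp
      nlinarith
    constructor
    · intro h
      have := m0.btw s (m - s) 1 t (by norm_num) ht (iff_of_true (hs0 s hs) h)
      rw [one_smul, add_sub_cancel] at this
      exact this.2 (hs0 s hs)
    · intro h
      by_contra hcon
      have h' : ¬ c4 (s + t • (m - s)) := fun h'' => hcon ((h04 _ hM).2 h'')
      have := m4.btw s (m - s) 1 t (by norm_num) ht (iff_of_false (hs4 s hs) h')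
      rw [one_smul, add_sub_cancel] at this
      exact hs4 s hs (this.1 ((h04 m hm).1 h))
  -- small moves
  have move : ∀ (s s' : ℚ × ℚ), s ∈ star δ → s' ∈ star δ → ∀ m : ℚ × ℚ, 2 ≤ m.1 + m.2 →
      ∀ ρ : ℚ, 0 ≤ ρ → ρ ≤ 1 / 2 → 2 ≤ (m + ρ • (s - s')).1 + (m + ρ • (s - s')).2 →
      (c0 (m + ρ • (s - s')) ↔ c0 m) := by
    intro s s' hs hs' m hm ρ h0 h1 hm'
    have hρ : 0 < 1 - ρ := by linarith
    have hl : 1 ≤ 1 / (1 - ρ) := by
      rw [le_div_iff₀ hρ]; linarith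
    have e1 := ext s hs (m + ρ • (s - s')) hm' _ hl
    have e2 := ext s' hs' m hm _ hl
    have e3 : s + (1 / (1 - ρ)) • (m + ρ • (s - s') - s) = s' + (1 / (1 - ρ)) • (m - s') := by
      ext
      · simp; field_simp; ring
      · simp; field_simp; ring
    rw [e3] at e1
    exact e1.symm.trans e2
  have moves : ∀ (s s' : ℚ × ℚ), s ∈ star δ → s' ∈ star δ → s'.1 + s'.2 ≤ s.1 + s.2 →
      ∀ ρ : ℚ, 0 ≤ ρ → ρ ≤ 1 / 2 → ∀ (k : ℕ) (m : ℚ × ℚ), 2 ≤ m.1 + m.2 →
      (c0 (m + ((k : ℚ) * ρ) • (s - s')) ↔ c0 m) := by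
    intro s s' hs hs' hss ρ h0 h1 k
    induction k with
    | zero => intro m hm; simp
    | succ k ih =>
      intro m hm
      have hk0 : (0 : ℚ) ≤ k := Nat.cast_nonneg k
      have hmk : 2 ≤ (m + ((k : ℚ) * ρ) • (s - s')).1 + (m + ((k : ℚ) * ρ) • (s - s')).2 := by
        simp
        nlinarith [mul_nonneg hk0 h0]
      have hmk' : 2 ≤ (m + ((k : ℚ) * ρ) • (s - s') + ρ • (s - s')).1 +
          (m + ((k : ℚ) * ρ) • (s - s') + ρ • (s - s')).2 := by
        simp at hmk ⊢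
        nlinarith
      have := move s s' hs hs' _ hmk ρ h0 h1 hmk'
      have e : m + (((k + 1 : ℕ) : ℚ) * ρ) • (s - s') =
          m + ((k : ℚ) * ρ) • (s - s') + ρ • (s - s') := by
        push_cast
        rw [add_mul, one_mul, add_smul, add_assoc]
      rw [e]
      exact this.trans (ih m hm)
  have long : ∀ (s s' : ℚ × ℚ), s ∈ star δ → s' ∈ star δ → s'.1 + s'.2 ≤ s.1 + s.2 →
      ∀ r : ℚ, 0 ≤ r → ∀ m : ℚ × ℚ, 2 ≤ m.1 + m.2 → (c0 (m + r • (s - s')) ↔ c0 m) := by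
    intro s s' hs hs' hss r hr m hm
    obtain ⟨k, hk⟩ := exists_nat_gt (2 * r)
    have hk0 : (0 : ℚ) < k := by linarith
    have := moves s s' hs hs' hss (r / k) (by positivity) (by
      rw [div_le_iff₀ hk0]; linarith) k m hm
    rwa [mul_div_cancel₀ _ hk0.ne'] at this
  have horiz : ∀ x : ℚ, 0 ≤ x → ∀ m : ℚ × ℚ, 2 ≤ m.1 + m.2 → (c0 (m + (x, 0)) ↔ c0 m) := by
    intro x hx m hm
    have := long (δ, 0) (-δ, 0) (by simp [star]) (by simp [star]) (by simp; linarith)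
      (x / (2 * δ)) (by positivity) m hm
    have e : (x / (2 * δ)) • (((δ, 0) : ℚ × ℚ) - (-δ, 0)) = (x, 0) := by
      ext
      · simp; field_simp; ring
      · simp
    rwa [e] at this
  have vert : ∀ x : ℚ, 0 ≤ x → ∀ m : ℚ × ℚ, 2 ≤ m.1 + m.2 → (c0 (m + (0, x)) ↔ c0 m) := by
    intro x hx m hm
    have := long (0, δ) (0, -δ) (by simp [star]) (by simp [star]) (by simp; linarith)
      (x / (2 * δ)) (by positivity) m hm
    have e : (x / (2 * δ)) • (((0, δ) : ℚ × ℚ) - (0, -δ)) = (0, x) := by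
      ext
      · simp
      · simp; field_simp; ring
    rwa [e] at this
  have const : ∀ m m' : ℚ × ℚ, 2 ≤ m.1 + m.2 → 2 ≤ m'.1 + m'.2 → (c0 m ↔ c0 m') := by
    have up : ∀ m m' : ℚ × ℚ, 2 ≤ m.1 + m.2 → m.1 ≤ m'.1 → m.2 ≤ m'.2 → (c0 m' ↔ c0 m) := by
      intro m m' hm h1 h2
      have a := horiz (m'.1 - m.1) (by linarith) m hm
      have b := vert (m'.2 - m.2) (by linarith) (m + (m'.1 - m.1, 0)) (by simp; linarith)
      have e : m + (m'.1 - m.1, 0) + (0, m'.2 - m.2) = m' := by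
        ext <;> simp
      rw [e] at b
      exact b.trans a
    intro m m' hm hm'
    have a := up m (max m.1 m'.1, max m.2 m'.2) hm (le_max_left _ _) (le_max_left _ _)
    have b := up m' (max m.1 m'.1, max m.2 m'.2) hm' (le_max_right _ _) (le_max_right _ _)
    exact a.symm.trans b
  by_cases hcase : c0 (1, 1)
  · -- black on M
    have hB : ∀ u : ℚ × ℚ, 2 ≤ u.1 + u.2 → c0 u := fun u hu =>
      (const (1, 1) u (by norm_num) hu).1 hcase
    have := caseW hδ m4.neg.swap m3.neg.swap m2.neg.swap m1.neg.swap m0.neg.swap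
      (fun u hu => not_congr (h34 u.swap (by simpa using hu)).symm)
      (fun u hu => not_congr (h23 u.swap (by simpa using hu)).symm)
      (fun u hu => not_congr (h12 u.swap (by simpa using hu)).symm)
      (fun u hu => not_congr (h01 u.swap (by simpa using hu)).symm)
      (fun u hu => by
        have hu' : 2 ≤ u.swap.1 + u.swap.2 := by simpa [add_comm] using hu
        exact not_not.2 ((h04 _ hu').1 (hB _ hu')))
      (hs4 (0, δ) (by simp [star]))
    exact this hz0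
  · have hW : ∀ u : ℚ × ℚ, 2 ≤ u.1 + u.2 → ¬ c0 u := fun u hu h =>
      hcase ((const (1, 1) u (by norm_num) hu).2 h)
    exact hz4 (caseW hδ m0 m1 m2 m3 m4 h01 h12 h23 h34 hW (hs0 (δ, 0) (by simp [star])))

/-- Five colourings of the rational plane whose colour classes are monotone on every line and that
agree on prescribed half planes: `0` and `4` have the same colour at the origin, unless the colour
changes near the origin. -/
theorem plane_ideal (δ : ℚ) (hδ : 0 < δ) (χ : Fin 5 → ℚ × ℚ → Prop)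
    (hM : ∀ (i : Fin 5) (u d : ℚ × ℚ) (p q : ℕ), 0 < p → p < q →
      (χ i u ↔ χ i (u + (q : ℚ) • d)) → (χ i (u + (p : ℚ) • d) ↔ χ i u))
    (h01 : ∀ u : ℚ × ℚ, 1 ≤ u.1 → (χ 0 u ↔ χ 1 u))
    (h12 : ∀ u : ℚ × ℚ, 1 ≤ u.2 → (χ 1 u ↔ χ 2 u))
    (h23 : ∀ u : ℚ × ℚ, 1 ≤ u.1 → (χ 2 u ↔ χ 3 u))
    (h34 : ∀ u : ℚ × ℚ, 1 ≤ u.2 → (χ 3 u ↔ χ 4 u))
    (h04 : ∀ u : ℚ × ℚ, 2 ≤ u.1 + u.2 → (χ 0 u ↔ χ 4 u))
    (hs0 : ∀ s ∈ star δ, (χ 0 0 ↔ χ 0 s))
    (hs4 : ∀ s ∈ star δ, (χ 4 0 ↔ χ 4 s)) : (χ 0 0 ↔ χ 4 0) := by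
  have hm : ∀ i, Mono (χ i) := fun i u d p q hp hq h => hM i u d p q hp hq h
  by_cases h0 : χ 0 0 <;> by_cases h4 : χ 4 0
  · exact iff_of_true h0 h4
  · exact (noBW hδ (hm 0) (hm 1) (hm 2) (hm 3) (hm 4) h01 h12 h23 h34 h04 h0 h4
      (fun s hs => (hs0 s hs).1 h0) (fun s hs h => h4 ((hs4 s hs).2 h))).elim
  · exact (noBW hδ (hm 0).neg (hm 1).neg (hm 2).neg (hm 3).neg (hm 4).neg
      (fun u hu => not_congr (h01 u hu)) (fun u hu => not_congr (h12 u hu))
      (fun u hu => not_congr (h23 u hu)) (fun u hu => not_congr (h34 u hu))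
      (fun u hu => not_congr (h04 u hu)) h0 (not_not.2 h4)
      (fun s hs h => h0 ((hs0 s hs).2 h)) (fun s hs => not_not.2 ((hs4 s hs).1 h4))).elim
  · exact iff_of_false h0 h4

abbrev PV := Fin 5 × (ℚ × ℚ)

/-- pairs of points of different flats that are glued -/
def Merge (e : PV × PV) : Prop :=
  e.1.2 = e.2.2 ∧
    ((e.1.1 = 0 ∧ e.2.1 = 1 ∧ 1 ≤ e.1.2.1) ∨ (e.1.1 = 1 ∧ e.2.1 = 2 ∧ 1 ≤ e.1.2.2) ∨
     (e.1.1 = 2 ∧ e.2.1 = 3 ∧ 1 ≤ e.1.2.1) ∨ (e.1.1 = 3 ∧ e.2.1 = 4 ∧ 1 ≤ e.1.2.2) ∨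
     (e.1.1 = 0 ∧ e.2.1 = 4 ∧ 2 ≤ e.1.2.1 + e.1.2.2))

/-- the three points `u, u + p d, u + q d` of flat `i`; the data are `(i, u, d, p, q)` -/
def tri (t : Fin 5 × (ℚ × ℚ) × (ℚ × ℚ) × ℕ × ℕ) : PV × PV × PV :=
  ((t.1, t.2.1), (t.1, t.2.1 + (t.2.2.2.1 : ℚ) • t.2.2.1), (t.1, t.2.1 + (t.2.2.2.2 : ℚ) • t.2.2.1))

/-- TARGET: finite version by compactness -/
theorem plane_finite (δ : ℚ) (hδ : 0 < δ) :
    ∃ (G : List (PV × PV)) (T : List (Fin 5 × (ℚ × ℚ) × (ℚ × ℚ) × ℕ × ℕ)),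
      (∀ e ∈ G, Merge e) ∧ (∀ t ∈ T, 0 < t.2.2.2.1 ∧ t.2.2.2.1 < t.2.2.2.2) ∧
      CutImp PV (0, 0) (4, 0)
        ((star δ).map (fun s => (((0 : Fin 5), (0 : ℚ × ℚ)), ((0 : Fin 5), s))) ++
          (star δ).map (fun s => (((4 : Fin 5), (0 : ℚ × ℚ)), ((4 : Fin 5), s))) ++ G)
        (T.map tri) := by
  classical
  let ι := {e : PV × PV // Merge e} ⊕
    {t : Fin 5 × (ℚ × ℚ) × (ℚ × ℚ) × ℕ × ℕ // 0 < t.2.2.2.1 ∧ t.2.2.2.1 < t.2.2.2.2}
  let K : Set (PV → Bool) := {χ | χ (0, 0) ≠ χ (4, 0) ∧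
    ∀ s ∈ star δ, χ (0, 0) = χ (0, s) ∧ χ (4, 0) = χ (4, s)}
  let Z : ι → Set (PV → Bool) := fun i => match i with
    | Sum.inl e => {χ | χ e.1.1 = χ e.1.2}
    | Sum.inr t => {χ | χ (tri t.1).1 = χ (tri t.1).2.2 → χ (tri t.1).2.1 = χ (tri t.1).1}
  have hZc : ∀ i, IsClosed (Z i) := by
    rintro (e | t)
    · exact isClosed_eq (continuous_apply _) (continuous_apply _)
    · have : Z (Sum.inr t) = (fun χ : PV → Bool => (χ (tri t.1).1, χ (tri t.1).2.1, χ (tri t.1).2.2)) ⁻¹'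
          {x : Bool × Bool × Bool | x.1 = x.2.2 → x.2.1 = x.1} := rfl
      rw [this]
      exact (isClosed_discrete _).preimage (by fun_prop)
  have hKc : IsClosed K := by
    have : K = ((fun χ : PV → Bool => (χ (0, 0), χ (4, 0))) ⁻¹' {x : Bool × Bool | x.1 ≠ x.2}) ∩
        ⋂ s ∈ star δ, ({χ : PV → Bool | χ (0, 0) = χ (0, s)} ∩ {χ : PV → Bool | χ (4, 0) = χ (4, s)}) := by
      ext χ
      simp [K]
    rw [this]
    apply IsClosed.inter
    · exact (isClosed_discrete _).preimage (by fun_prop)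
    · apply isClosed_biInter
      intro s _
      apply IsClosed.inter
      · exact isClosed_eq (f := fun χ : PV → Bool => χ (0, 0)) (g := fun χ : PV → Bool => χ (0, s))
          (by fun_prop) (by fun_prop)
      · exact isClosed_eq (f := fun χ : PV → Bool => χ (4, 0)) (g := fun χ : PV → Bool => χ (4, s))
          (by fun_prop) (by fun_prop)
  have hempty : (K ∩ ⋂ i, Z i) = ∅ := by
    rw [Set.eq_empty_iff_forall_notMem]
    rintro χ ⟨⟨hne, hst⟩, hall⟩
    rw [Set.mem_iInter] at hall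
    have hm : ∀ a b : PV, Merge (a, b) → χ a = χ b := fun a b h => hall (Sum.inl ⟨(a, b), h⟩)
    have hp := plane_ideal δ hδ (fun i u => χ (i, u) = true) ?_ ?_ ?_ ?_ ?_ ?_ ?_ ?_
    · apply hne
      rw [Bool.eq_iff_iff]
      exact hp
    · intro i u d p q hp0 hpq h
      have h1 : χ (i, u) = χ (i, u + (q : ℚ) • d) → χ (i, u + (p : ℚ) • d) = χ (i, u) :=
        hall (Sum.inr ⟨(i, u, d, p, q), hp0, hpq⟩)
      have h2 : χ (i, u) = χ (i, u + (q : ℚ) • d) := by rw [Bool.eq_iff_iff]; exact h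
      have h3 := h1 h2
      rw [Bool.eq_iff_iff] at h3
      exact h3
    · intro u hu
      rw [hm (0, u) (1, u) ⟨rfl, Or.inl ⟨rfl, rfl, hu⟩⟩]
    · intro u hu
      rw [hm (1, u) (2, u) ⟨rfl, Or.inr (Or.inl ⟨rfl, rfl, hu⟩)⟩]
    · intro u hu
      rw [hm (2, u) (3, u) ⟨rfl, Or.inr (Or.inr (Or.inl ⟨rfl, rfl, hu⟩))⟩]
    · intro u hu
      rw [hm (3, u) (4, u) ⟨rfl, Or.inr (Or.inr (Or.inr (Or.inl ⟨rfl, rfl, hu⟩)))⟩]
    · intro u hu
      rw [hm (0, u) (4, u) ⟨rfl, Or.inr (Or.inr (Or.inr (Or.inr ⟨rfl, rfl, hu⟩)))⟩]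
    · intro s hs
      rw [(hst s hs).1]
    · intro s hs
      rw [(hst s hs).2]
  obtain ⟨u, hu⟩ := hKc.isCompact.elim_finite_subfamily_closed Z hZc hempty
  refine ⟨u.toList.filterMap (Sum.elim (fun e => some e.1) (fun _ => none)),
    u.toList.filterMap (Sum.elim (fun _ => none) (fun t => some t.1)), ?_, ?_, ?_⟩
  · intro e he
    rw [List.mem_filterMap] at he
    obtain ⟨a, _, ha⟩ := he
    rcases a with a | a
    · simp only [Sum.elim_inl, Option.some.injEq] at ha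
      rw [← ha]; exact a.2
    · simp at ha
  · intro t ht
    rw [List.mem_filterMap] at ht
    obtain ⟨a, _, ha⟩ := ht
    rcases a with a | a
    · simp at ha
    · simp only [Sum.elim_inr, Option.some.injEq] at ha
      rw [← ha]; exact a.2
  · intro χ hχ
    by_contra hcon
    rw [not_or] at hcon
    obtain ⟨hE, hT⟩ := hcon
    have hE' : ∀ e ∈ ((star δ).map (fun s => (((0 : Fin 5), (0 : ℚ × ℚ)), ((0 : Fin 5), s))) ++
          (star δ).map (fun s => (((4 : Fin 5), (0 : ℚ × ℚ)), ((4 : Fin 5), s))) ++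
          u.toList.filterMap (Sum.elim (fun e => some e.1) (fun _ => none))), (χ e.1 ↔ χ e.2) := by
      intro e he
      by_contra h
      exact hE ⟨e, he, h⟩
    have hmem : (fun p => decide (χ p)) ∈ (K ∩ ⋂ i ∈ u, Z i) := by
      refine ⟨⟨?_, ?_⟩, ?_⟩
      · intro h
        apply hχ
        simpa using h
      · intro s hs
        constructor
        · have := hE' ((0, 0), (0, s)) (by
            simp only [List.mem_append, List.mem_map]
            exact Or.inl (Or.inl ⟨s, hs, rfl⟩))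
          simpa using this
        · have := hE' ((4, 0), (4, s)) (by
            simp only [List.mem_append, List.mem_map]
            exact Or.inl (Or.inr ⟨s, hs, rfl⟩))
          simpa using this
      · rw [Set.mem_iInter₂]
        rintro (e | t) hi
        · have := hE' e.1 (by
            simp only [List.mem_append]
            refine Or.inr ?_
            rw [List.mem_filterMap]
            exact ⟨Sum.inl e, by simpa using hi, rfl⟩)
          show decide (χ e.1.1) = decide (χ e.1.2)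
          simpa using this
        · show decide (χ (tri t.1).1) = decide (χ (tri t.1).2.2) →
            decide (χ (tri t.1).2.1) = decide (χ (tri t.1).1)
          intro h1
          by_contra h2
          apply hT
          refine ⟨tri t.1, ?_, ?_, ?_⟩
          · rw [List.mem_map]
            refine ⟨t.1, ?_, rfl⟩
            rw [List.mem_filterMap]
            exact ⟨Sum.inr t, by simpa using hi, rfl⟩
          · simpa using h1
          · intro h3
            apply h2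
            simpa using h3
    rw [hu] at hmem
    exact hmem

end Pool.Agent.SL3L1
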