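import Mathlib
import Pool.Agent.SL3L1.AlgSmp
import Pool.Agent.SL3L1.NrmLem
import Pool.Agent.SL3L1.PlaneCfg

set_option autoImplicit false

namespace Pool.Agent.SL3L1

open Matrix

/-- base points of the five flats; `X = 2^(3t)` -/
def nn (t : ℕ) (i : Fin 5) : GQ :=
  uni (![0, 1, 1, 0, 0] i * 2 ^ (3 * t)) (![0, 0, 1, 1, 0] i * 2 ^ (3 * t))
    (![0, 0, 1, 1, 1] i * 2 ^ (6 * t))

/-- the five flats at scale `t` -/
def pt (t : ℕ) (v : PV) : GQ := nn t v.1 * dia ⌊(t : ℚ) * v.2.1⌋ ⌊(t : ℚ) * v.2.2⌋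

/-- properties of the averaged kernel -/
structure IsKer (K : GQ → GQ → ℝ) (c1 C1 : ℝ) : Prop where
  pos1 : 0 < c1
  pos2 : 0 < C1
  inv : ∀ a ∈ HH, ∀ g ∈ HH, ∀ h ∈ HH, K (a * g) (a * h) = K g h
  up : ∀ g ∈ HH, ∀ h ∈ HH, K g h ≤ C1 * (1 + Real.log (nrm (g⁻¹ * h)))
  low : ∀ g ∈ HH, ∀ h ∈ HH, c1 * Real.log (nrm (g⁻¹ * h)) - C1 ≤ K g h
  nonneg : ∀ g ∈ HH, ∀ h ∈ HH, 0 ≤ K g h
  tri : ∀ g ∈ HH, ∀ h ∈ HH, ∀ k ∈ HH, K g k ≤ K g h + K h k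
  cut : ∀ (V : Type) (s0 s4 : V) (E : List (V × V)) (T : List (V × V × V)), CutImp V s0 s4 E T →
        ∀ π : V → GQ, (∀ v, π v ∈ HH) →
          K (π s0) (π s4) ≤ (E.map fun e => K (π e.1) (π e.2)).sum +
            (1/2) * (T.map fun t =>
              K (π t.1) (π t.2.1) + K (π t.2.1) (π t.2.2) - K (π t.1) (π t.2.2)).sum

theorem z1_dia00 : dia 0 0 = 1 := by
  have h := dia_mul 0 0 0 0
  rw [add_zero] at h
  exact mul_eq_left.mp h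

theorem z1_uni000 : uni 0 0 0 = 1 := by
  have h := uni_mul 0 0 0 0 0 0
  rw [add_zero, mul_zero, add_zero] at h
  exact mul_eq_left.mp h

theorem z1_dia_inv (P Q : ℤ) : (dia P Q)⁻¹ = dia (-P) (-Q) := by
  rw [inv_eq_iff_mul_eq_one, dia_mul, add_neg_cancel, add_neg_cancel, z1_dia00]

theorem z1_Dy_int (m : ℤ) : Dy (m : ℚ) := ⟨0, m, by simp⟩

theorem z1_Dy_nat (m : ℕ) : Dy (m : ℚ) := ⟨0, m, by simp⟩

theorem z1_Dy0 : Dy 0 := ⟨0, 0, by simp⟩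

theorem z1_dia_HH (P Q : ℤ) : dia P Q ∈ HH :=
  ⟨0, 0, 0, P, Q, z1_Dy0, z1_Dy0, z1_Dy0, by rw [z1_uni000, one_mul]⟩

theorem z1_uni_HH (x y w : ℚ) (hx : Dy x) (hy : Dy y) (hw : Dy w) : uni x y w ∈ HH :=
  ⟨x, y, w, 0, 0, hx, hy, hw, by rw [z1_dia00, mul_one]⟩

theorem z1_Dy_coef (v : Fin 5 → ℚ) (hv : ∀ i, v i = 0 ∨ v i = 1) (i : Fin 5) (k : ℕ) :
    Dy (v i * 2 ^ k) := by
  rcases hv i with h | h
  · rw [h, zero_mul]; simpa using z1_Dy_int 0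
  · rw [h, one_mul]
    have := z1_Dy_nat (2 ^ k)
    push_cast at this
    exact this

theorem z1_nn_HH (t : ℕ) (i : Fin 5) : nn t i ∈ HH := by
  unfold nn
  refine z1_uni_HH _ _ _ (z1_Dy_coef _ ?_ i _) (z1_Dy_coef _ ?_ i _) (z1_Dy_coef _ ?_ i _)
  all_goals
    intro j
    fin_cases j <;> simp

theorem pt_HH (t : ℕ) (v : PV) : pt t v ∈ HH :=
  HH_mul _ _ (z1_nn_HH t v.1) (z1_dia_HH _ _)

theorem z1_conj (P Q : ℤ) (x y w : ℚ) :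
    (dia P Q)⁻¹ * uni x y w * dia P Q =
      uni (x * 2 ^ (3 * -P)) (y * 2 ^ (3 * -Q)) (w * 2 ^ (3 * -P + 3 * -Q)) := by
  rw [z1_dia_inv, dia_uni, mul_assoc, dia_mul, neg_add_cancel, neg_add_cancel, z1_dia00, mul_one]

theorem z1_mk (K : GQ → GQ → ℝ) (c1 C1 : ℝ) (hK : IsKer K c1 C1) (t : ℕ) (e : PV × PV)
    (he : e.1.2 = e.2.2) (x y w : ℚ) (hN : nn t e.1.1 * uni x y w = nn t e.2.1)
    (hb : |((x * 2 ^ (3 * -⌊(t : ℚ) * e.2.2.1⌋) : ℚ) : ℝ)| +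
      |((y * 2 ^ (3 * -⌊(t : ℚ) * e.2.2.2⌋) : ℚ) : ℝ)| +
      |((w * 2 ^ (3 * -⌊(t : ℚ) * e.2.2.1⌋ + 3 * -⌊(t : ℚ) * e.2.2.2⌋) : ℚ) : ℝ)| ≤ 64) :
    K (pt t e.1) (pt t e.2) ≤ C1 * (1 + Real.log 67) := by
  have h1 := hK.up _ (pt_HH t e.1) _ (pt_HH t e.2)
  have h2 : (pt t e.1)⁻¹ * pt t e.2 = uni (x * 2 ^ (3 * -⌊(t : ℚ) * e.2.2.1⌋))
      (y * 2 ^ (3 * -⌊(t : ℚ) * e.2.2.2⌋))
      (w * 2 ^ (3 * -⌊(t : ℚ) * e.2.2.1⌋ + 3 * -⌊(t : ℚ) * e.2.2.2⌋)) := by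
    unfold pt
    rw [← hN, he, ← z1_conj]
    group
  rw [h2] at h1
  refine h1.trans (mul_le_mul_of_nonneg_left ?_ hK.pos2.le)
  rw [nrm_uni]
  have h3 : (0 : ℝ) ≤ |((x * 2 ^ (3 * -⌊(t : ℚ) * e.2.2.1⌋) : ℚ) : ℝ)| := abs_nonneg _
  have h4 : (0 : ℝ) ≤ |((y * 2 ^ (3 * -⌊(t : ℚ) * e.2.2.2⌋) : ℚ) : ℝ)| := abs_nonneg _
  have h5 : (0 : ℝ) ≤ |((w * 2 ^ (3 * -⌊(t : ℚ) * e.2.2.1⌋ + 3 * -⌊(t : ℚ) * e.2.2.2⌋) : ℚ) : ℝ)| :=
    abs_nonneg _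
  have h6 := Real.log_le_log (by linarith : (0 : ℝ) <
    3 + |((x * 2 ^ (3 * -⌊(t : ℚ) * e.2.2.1⌋) : ℚ) : ℝ)| +
      |((y * 2 ^ (3 * -⌊(t : ℚ) * e.2.2.2⌋) : ℚ) : ℝ)| +
      |((w * 2 ^ (3 * -⌊(t : ℚ) * e.2.2.1⌋ + 3 * -⌊(t : ℚ) * e.2.2.2⌋) : ℚ) : ℝ)|)
    (by linarith : _ ≤ (67 : ℝ))
  linarith

theorem z1_pow1 (t : ℕ) (a : ℤ) (k : ℕ) (e : ℤ) (h : (k : ℤ) * t + e ≤ a) :
    |((2 ^ (k * t) * 2 ^ e : ℚ) : ℝ)| ≤ 2 ^ a := by
  push_cast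
  rw [← zpow_natCast, ← zpow_add₀ (by norm_num : (2 : ℝ) ≠ 0), abs_of_pos (by positivity)]
  apply zpow_le_zpow_right₀ (by norm_num)
  push_cast
  exact h

theorem z1_floor1 (t : ℕ) (u : ℚ) (hu : 1 ≤ u) : (t : ℤ) ≤ ⌊(t : ℚ) * u⌋ := by
  rw [Int.le_floor]
  push_cast
  have : (0 : ℚ) ≤ t := Nat.cast_nonneg t
  nlinarith

theorem z1_floor2 (t : ℕ) (u v : ℚ) (hu : 2 ≤ u + v) :
    2 * (t : ℤ) - 1 ≤ ⌊(t : ℚ) * u⌋ + ⌊(t : ℚ) * v⌋ := by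
  have h1 := Int.lt_floor_add_one ((t : ℚ) * u)
  have h2 := Int.lt_floor_add_one ((t : ℚ) * v)
  have h3 : (0 : ℚ) ≤ t := Nat.cast_nonneg t
  have h4 : (2 : ℚ) * t ≤ t * u + t * v := by nlinarith
  have h5 : (2 : ℚ) * t < (⌊(t : ℚ) * u⌋ + ⌊(t : ℚ) * v⌋ + 2 : ℤ) := by
    push_cast
    linarith
  have h6 : 2 * (t : ℤ) < ⌊(t : ℚ) * u⌋ + ⌊(t : ℚ) * v⌋ + 2 := by exact_mod_cast h5
  omega

/-- glued points stay at bounded distance -/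
theorem merge_bd (K : GQ → GQ → ℝ) (c1 C1 : ℝ) (hK : IsKer K c1 C1) (t : ℕ) (e : PV × PV)
    (he : Merge e) : K (pt t e.1) (pt t e.2) ≤ C1 * (1 + Real.log 67) := by
  obtain ⟨he2, h⟩ := he
  rcases h with ⟨h1, h2, h3⟩ | ⟨h1, h2, h3⟩ | ⟨h1, h2, h3⟩ | ⟨h1, h2, h3⟩ | ⟨h1, h2, h3⟩
  · refine z1_mk K c1 C1 hK t e he2 (2 ^ (3 * t)) 0 0 ?_ ?_
    · rw [h1, h2]; unfold nn
      rw [uni_mul]; congr 1 <;> simp
    · have hf := z1_floor1 t _ h3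
      rw [he2] at hf
      have := z1_pow1 t 0 3 (3 * -⌊(t : ℚ) * e.2.2.1⌋) (by push_cast; omega)
      simp only [zero_mul, Rat.cast_zero, abs_zero, add_zero]
      refine this.trans ?_
      norm_num
  · refine z1_mk K c1 C1 hK t e he2 0 (2 ^ (3 * t)) 0 ?_ ?_
    · rw [h1, h2]; unfold nn
      rw [uni_mul]; congr 1
      · simp
      · simp
      · simp; ring
    · have hf := z1_floor1 t _ h3
      rw [he2] at hf
      have := z1_pow1 t 0 3 (3 * -⌊(t : ℚ) * e.2.2.2⌋) (by push_cast; omega)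
      simp only [zero_mul, Rat.cast_zero, abs_zero, add_zero, zero_add]
      refine this.trans ?_
      norm_num
  · refine z1_mk K c1 C1 hK t e he2 (-(2 ^ (3 * t))) 0 0 ?_ ?_
    · rw [h1, h2]; unfold nn
      rw [uni_mul]; congr 1 <;> simp
    · have hf := z1_floor1 t _ h3
      rw [he2] at hf
      have := z1_pow1 t 0 3 (3 * -⌊(t : ℚ) * e.2.2.1⌋) (by push_cast; omega)
      simp only [zero_mul, Rat.cast_zero, abs_zero, add_zero, neg_mul, Rat.cast_neg, abs_neg]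
      refine this.trans ?_
      norm_num
  · refine z1_mk K c1 C1 hK t e he2 0 (-(2 ^ (3 * t))) 0 ?_ ?_
    · rw [h1, h2]; unfold nn
      rw [uni_mul]; congr 1 <;> simp
    · have hf := z1_floor1 t _ h3
      rw [he2] at hf
      have := z1_pow1 t 0 3 (3 * -⌊(t : ℚ) * e.2.2.2⌋) (by push_cast; omega)
      simp only [zero_mul, Rat.cast_zero, abs_zero, add_zero, neg_mul, Rat.cast_neg, abs_neg,
        zero_add]
      refine this.trans ?_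
      norm_num
  · refine z1_mk K c1 C1 hK t e he2 0 0 (2 ^ (6 * t)) ?_ ?_
    · rw [h1, h2]; unfold nn
      rw [uni_mul]; congr 1 <;> simp
    · have hf := z1_floor2 t _ _ h3
      rw [he2] at hf
      have := z1_pow1 t 3 6 (3 * -⌊(t : ℚ) * e.2.2.1⌋ + 3 * -⌊(t : ℚ) * e.2.2.2⌋)
        (by push_cast; omega)
      simp only [zero_mul, Rat.cast_zero, abs_zero, zero_add]
      refine this.trans ?_
      norm_num

theorem z1_star_aux (K : GQ → GQ → ℝ) (c1 C1 : ℝ) (hK : IsKer K c1 C1) (t : ℕ) (δ : ℚ)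
    (i : Fin 5) (s : ℚ × ℚ) (hs : |(⌊(t : ℚ) * s.1⌋ : ℝ)| + |(⌊(t : ℚ) * s.2⌋ : ℝ)| ≤ t * (δ : ℝ) + 1) :
    K (pt t (i, 0)) (pt t (i, s)) ≤
      C1 * (1 + Real.log 3 + 2 * Real.log 2 * (t * (δ : ℝ) + 1)) := by
  have h1 := hK.up _ (pt_HH t (i, 0)) _ (pt_HH t (i, s))
  have h2 : (pt t (i, 0))⁻¹ * pt t (i, s) = dia ⌊(t : ℚ) * s.1⌋ ⌊(t : ℚ) * s.2⌋ := by
    unfold pt
    simp only [Prod.fst_zero, Prod.snd_zero, mul_zero, Int.floor_zero, z1_dia00, mul_one,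
      inv_mul_cancel_left]
  rw [h2] at h1
  refine h1.trans (mul_le_mul_of_nonneg_left ?_ hK.pos2.le)
  have h3 := log_nrm_dia ⌊(t : ℚ) * s.1⌋ ⌊(t : ℚ) * s.2⌋
  have h4 : 0 < Real.log 2 := Real.log_pos (by norm_num)
  have h5 := mul_le_mul_of_nonneg_right hs h4.le
  nlinarith

theorem z1_abs_floor (a : ℚ) : |(⌊a⌋ : ℝ)| ≤ |(a : ℝ)| + 1 := by
  have h1 : ((⌊a⌋ : ℚ) : ℝ) ≤ (a : ℝ) := by exact_mod_cast Int.floor_le a
  have h2 : (a : ℝ) < ((⌊a⌋ : ℚ) : ℝ) + 1 := by exact_mod_cast Int.lt_floor_add_one a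
  push_cast at h1 h2
  rw [abs_le]
  constructor
  · have := neg_abs_le (a : ℝ); linarith
  · have := le_abs_self (a : ℝ); linarith

/-- the star terms -/
theorem star_bd (K : GQ → GQ → ℝ) (c1 C1 : ℝ) (hK : IsKer K c1 C1) (t : ℕ) (δ : ℚ) (hδ : 0 < δ)
    (i : Fin 5) (s : ℚ × ℚ) (hs : s ∈ star δ) :
    K (pt t (i, 0)) (pt t (i, s)) ≤
      C1 * (1 + Real.log 3 + 2 * Real.log 2 * (t * (δ : ℝ) + 1)) := by
  apply z1_star_aux K c1 C1 hK t δ i s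
  have hδ' : (0 : ℝ) < δ := by exact_mod_cast hδ
  have ht : (0 : ℝ) ≤ t := Nat.cast_nonneg t
  have e1 : |(((t : ℚ) * δ : ℚ) : ℝ)| = t * δ := by
    push_cast
    exact abs_of_nonneg (mul_nonneg ht hδ'.le)
  have e2 : |(((t : ℚ) * -δ : ℚ) : ℝ)| = t * δ := by
    push_cast
    rw [mul_neg, abs_neg]
    exact abs_of_nonneg (mul_nonneg ht hδ'.le)
  have f1 := z1_abs_floor ((t : ℚ) * δ)
  have f2 := z1_abs_floor ((t : ℚ) * -δ)
  rw [e1] at f1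
  rw [e2] at f2
  simp only [star, List.mem_cons, List.not_mem_nil, or_false] at hs
  rcases hs with rfl | rfl | rfl | rfl
  · simpa using f1
  · simpa using f2
  · simpa using f1
  · simpa using f2

/-- the lower bound -/
theorem base_low (K : GQ → GQ → ℝ) (c1 C1 : ℝ) (hK : IsKer K c1 C1) (t : ℕ) :
    c1 * (6 * Real.log 2 * t) - C1 ≤ K (pt t (0, 0)) (pt t (4, 0)) := by
  refine le_trans ?_ (hK.low _ (pt_HH t (0, 0)) _ (pt_HH t (4, 0)))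
  have h2 : (pt t (0, 0))⁻¹ * pt t (4, 0) = uni 0 0 (2 ^ (6 * t)) := by
    unfold pt nn
    simp only [Prod.fst_zero, Prod.snd_zero, mul_zero, Int.floor_zero, z1_dia00, mul_one]
    have : (uni ((![0, 1, 1, 0, 0] : Fin 5 → ℚ) 0 * 2 ^ (3 * t))
        ((![0, 0, 1, 1, 0] : Fin 5 → ℚ) 0 * 2 ^ (3 * t))
        ((![0, 0, 1, 1, 1] : Fin 5 → ℚ) 0 * 2 ^ (6 * t))) = 1 := by
      rw [← z1_uni000]; congr 1 <;> simp
    rw [this, inv_one, one_mul]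
    congr 1 <;> simp
  rw [h2, nrm_uni]
  have h3 : 6 * Real.log 2 * t ≤
      Real.log (3 + |((0 : ℚ) : ℝ)| + |((0 : ℚ) : ℝ)| + |(((2 : ℚ) ^ (6 * t) : ℚ) : ℝ)|) := by
    have h4 : Real.log ((2 : ℝ) ^ (6 * t)) = 6 * Real.log 2 * t := by
      rw [Real.log_pow]; push_cast; ring
    rw [← h4]
    apply Real.log_le_log (by positivity)
    push_cast
    rw [abs_of_pos (by positivity : (0 : ℝ) < 2 ^ (6 * t))]
    have := abs_nonneg ((0 : ℝ))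
    linarith
  have := mul_le_mul_of_nonneg_left h3 hK.pos1.le
  linarith

/-- triples on lines: asymptotically no defect -/
theorem tri_lim (K : GQ → GQ → ℝ) (c1 C1 : ℝ) (hK : IsKer K c1 C1)
    (τ : Fin 5 × (ℚ × ℚ) × (ℚ × ℚ) × ℕ × ℕ) (hp : 0 < τ.2.2.2.1) (hq : τ.2.2.2.1 < τ.2.2.2.2)
    (t1 : ℕ) (ht1 : 0 < t1)
    (hu1 : ∃ n : ℤ, (t1 : ℚ) * τ.2.1.1 = n) (hu2 : ∃ n : ℤ, (t1 : ℚ) * τ.2.1.2 = n)
    (hd1 : ∃ n : ℤ, (t1 : ℚ) * τ.2.2.1.1 = n) (hd2 : ∃ n : ℤ, (t1 : ℚ) * τ.2.2.1.2 = n) :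
    Filter.Tendsto (fun m : ℕ =>
      (K (pt (t1 * m) (tri τ).1) (pt (t1 * m) (tri τ).2.1) +
        K (pt (t1 * m) (tri τ).2.1) (pt (t1 * m) (tri τ).2.2) -
        K (pt (t1 * m) (tri τ).1) (pt (t1 * m) (tri τ).2.2)) / (m : ℝ)) Filter.atTop (nhds 0) := by
  obtain ⟨i, u, d, p, q⟩ := τ
  obtain ⟨n1, hn1⟩ := hu1
  obtain ⟨n2, hn2⟩ := hu2
  obtain ⟨e1, he1⟩ := hd1
  obtain ⟨e2, he2⟩ := hd2
  simp only at hp hq hn1 hn2 he1 he2
  let F : ℕ → ℝ := fun n => K 1 (dia (n * e1) (n * e2))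
  have hshift : ∀ a ∈ HH, ∀ n k : ℕ,
      K (a * dia (n * e1) (n * e2)) (a * dia (((n + k : ℕ) : ℤ) * e1) (((n + k : ℕ) : ℤ) * e2)) =
        F k := by
    intro a ha n k
    have h1 : dia (((n + k : ℕ) : ℤ) * e1) (((n + k : ℕ) : ℤ) * e2) =
        dia (n * e1) (n * e2) * dia (k * e1) (k * e2) := by
      rw [dia_mul]; push_cast; congr 1 <;> ring
    have h2 := hK.inv (a * dia (n * e1) (n * e2)) (HH_mul _ _ ha (z1_dia_HH _ _)) 1 HH_one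
      (dia (k * e1) (k * e2)) (z1_dia_HH _ _)
    rw [mul_one, mul_assoc a, ← h1] at h2
    exact h2
  have hsub : Subadditive F := by
    intro a b
    have h1 := hK.tri 1 HH_one (dia (a * e1) (a * e2)) (z1_dia_HH _ _)
      (dia (((a + b : ℕ) : ℤ) * e1) (((a + b : ℕ) : ℤ) * e2)) (z1_dia_HH _ _)
    have h2 := hshift 1 HH_one a b
    rw [one_mul, one_mul] at h2
    rw [h2] at h1
    exact h1
  have hF0 : ∀ n, 0 ≤ F n := fun n => hK.nonneg _ HH_one _ (z1_dia_HH _ _)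
  have hbdd : BddBelow (Set.range fun n => F n / n) := by
    refine ⟨0, ?_⟩
    rintro _ ⟨n, rfl⟩
    exact div_nonneg (hF0 n) (Nat.cast_nonneg n)
  have hlim := hsub.tendsto_lim hbdd
  set L := hsub.lim with hL
  have hsc : ∀ k : ℕ, 0 < k → Filter.Tendsto (fun m : ℕ => F (m * k) / (m : ℝ)) Filter.atTop
      (nhds (k * L)) := by
    intro k hk
    have h1 : Filter.Tendsto (fun m : ℕ => m * k) Filter.atTop Filter.atTop :=
      Filter.tendsto_id.atTop_mul_const' hk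
    have h2 := (hlim.comp h1).const_mul (k : ℝ)
    refine h2.congr' ?_
    filter_upwards [Filter.eventually_gt_atTop 0] with m hm
    simp only [Function.comp]
    push_cast
    have hm' : (m : ℝ) ≠ 0 := by exact_mod_cast hm.ne'
    have hk' : (k : ℝ) ≠ 0 := by exact_mod_cast hk.ne'
    field_simp
  have hpt : ∀ (m k : ℕ), pt (t1 * m) (i, u + (k : ℚ) • d) =
      (nn (t1 * m) i * dia (m * n1) (m * n2)) * dia (((m * k : ℕ) : ℤ) * e1)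
        (((m * k : ℕ) : ℤ) * e2) := by
    intro m k
    unfold pt
    rw [mul_assoc, dia_mul]
    congr 2
    · have : (((t1 * m : ℕ) : ℚ)) * (u + (k : ℚ) • d).1 =
          ((m * n1 + ((m * k : ℕ) : ℤ) * e1 : ℤ) : ℚ) := by
        push_cast
        rw [Prod.fst_add, Prod.smul_fst, smul_eq_mul, ← hn1, ← he1]
        ring
      simp only
      rw [this, Int.floor_intCast]
    · have : (((t1 * m : ℕ) : ℚ)) * (u + (k : ℚ) • d).2 =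
          ((m * n2 + ((m * k : ℕ) : ℤ) * e2 : ℤ) : ℚ) := by
        push_cast
        rw [Prod.snd_add, Prod.smul_snd, smul_eq_mul, ← hn2, ← he2]
        ring
      simp only
      rw [this, Int.floor_intCast]
  have hA : ∀ m : ℕ, nn (t1 * m) i * dia (m * n1) (m * n2) ∈ HH :=
    fun m => HH_mul _ _ (z1_nn_HH _ _) (z1_dia_HH _ _)
  have hmain : ∀ m : ℕ, (K (pt (t1 * m) (tri (i, u, d, p, q)).1)
        (pt (t1 * m) (tri (i, u, d, p, q)).2.1) +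
        K (pt (t1 * m) (tri (i, u, d, p, q)).2.1) (pt (t1 * m) (tri (i, u, d, p, q)).2.2) -
        K (pt (t1 * m) (tri (i, u, d, p, q)).1) (pt (t1 * m) (tri (i, u, d, p, q)).2.2)) / (m : ℝ) =
      F (m * p) / (m : ℝ) + F (m * (q - p)) / (m : ℝ) - F (m * q) / (m : ℝ) := by
    intro m
    have h0 : pt (t1 * m) (i, u) = (nn (t1 * m) i * dia (m * n1) (m * n2)) *
        dia (((m * 0 : ℕ) : ℤ) * e1) (((m * 0 : ℕ) : ℤ) * e2) := by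
      rw [← hpt]; simp
    have k1 := hshift _ (hA m) (m * 0) (m * p)
    have k2 := hshift _ (hA m) (m * p) (m * (q - p))
    have k3 := hshift _ (hA m) (m * 0) (m * q)
    have z1 : m * 0 + m * p = m * p := by ring
    have z2 : m * p + m * (q - p) = m * q := by
      rw [← mul_add]; congr 1; omega
    have z3 : m * 0 + m * q = m * q := by ring
    rw [z1] at k1
    rw [z2] at k2
    rw [z3] at k3
    unfold tri
    simp only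
    rw [h0, hpt m p, hpt m q, k1, k2, k3]
    ring
  have h4 := ((hsc p hp).add (hsc (q - p) (by omega))).sub (hsc q (by omega))
  have h5 : (p : ℝ) * L + ((q - p : ℕ) : ℝ) * L - (q : ℝ) * L = 0 := by
    rw [Nat.cast_sub hq.le]; ring
  rw [h5] at h4
  refine h4.congr (fun m => ?_)
  exact (hmain m).symm

end Pool.Agent.SL3L1
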