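import Mathlib
import Pool.Agent.SL3L1.Flats

set_option autoImplicit false

namespace Pool.Agent.SL3L1

open Matrix

theorem kf_mul {t : ℕ} {x : ℚ} (k : ℕ) (h : ∃ n : ℤ, (t : ℚ) * x = n) :
    ∃ n : ℤ, ((t * k : ℕ) : ℚ) * x = n := by
  obtain ⟨n, hn⟩ := h
  refine ⟨n * k, ?_⟩
  push_cast
  rw [← hn]; ring

theorem kf_den (x : ℚ) : ∃ n : ℤ, ((x.den : ℕ) : ℚ) * x = n :=
  ⟨x.num, by rw [mul_comm]; exact_mod_cast Rat.mul_den_eq_num x⟩

theorem kf_common (T : List (Fin 5 × (ℚ × ℚ) × (ℚ × ℚ) × ℕ × ℕ)) :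
    ∃ t1 : ℕ, 0 < t1 ∧ ∀ τ ∈ T, (∃ n : ℤ, (t1 : ℚ) * τ.2.1.1 = n) ∧
      (∃ n : ℤ, (t1 : ℚ) * τ.2.1.2 = n) ∧ (∃ n : ℤ, (t1 : ℚ) * τ.2.2.1.1 = n) ∧
      (∃ n : ℤ, (t1 : ℚ) * τ.2.2.1.2 = n) := by
  induction T with
  | nil => exact ⟨1, one_pos, by simp⟩
  | cons τ T ih =>
    obtain ⟨t1, ht1, h⟩ := ih
    refine ⟨t1 * (τ.2.1.1.den * τ.2.1.2.den * τ.2.2.1.1.den * τ.2.2.1.2.den), ?_, ?_⟩
    · have := τ.2.1.1.den_pos
      have := τ.2.1.2.den_pos
      have := τ.2.2.1.1.den_pos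
      have := τ.2.2.1.2.den_pos
      positivity
    · intro τ' hτ'
      rcases List.mem_cons.1 hτ' with rfl | h'
      · refine ⟨?_, ?_, ?_, ?_⟩
        · have := kf_mul (t1 * (τ'.2.1.2.den * τ'.2.2.1.1.den * τ'.2.2.1.2.den)) (kf_den τ'.2.1.1)
          convert this using 5
          ring
        · have := kf_mul (t1 * (τ'.2.1.1.den * τ'.2.2.1.1.den * τ'.2.2.1.2.den)) (kf_den τ'.2.1.2)
          convert this using 5
          ring
        · have := kf_mul (t1 * (τ'.2.1.1.den * τ'.2.1.2.den * τ'.2.2.1.2.den)) (kf_den τ'.2.2.1.1)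
          convert this using 5
          ring
        · have := kf_mul (t1 * (τ'.2.1.1.den * τ'.2.1.2.den * τ'.2.2.1.1.den)) (kf_den τ'.2.2.1.2)
          convert this using 5
          ring
      · obtain ⟨h1, h2, h3, h4⟩ := h τ' h'
        exact ⟨kf_mul _ h1, kf_mul _ h2, kf_mul _ h3, kf_mul _ h4⟩

theorem kf_sum_le {α : Type*} (l : List α) (f : α → ℝ) (B : ℝ) (h : ∀ x ∈ l, f x ≤ B) :
    (l.map f).sum ≤ l.length * B := by
  induction l with
  | nil => simp
  | cons a l ih =>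
    simp only [List.map_cons, List.sum_cons, List.length_cons, Nat.cast_add, Nat.cast_one]
    have h1 := h a (by simp)
    have h2 := ih fun x hx => h x (by simp [hx])
    linarith

/-- TARGET -/
theorem ker_false (K : GQ → GQ → ℝ) (c1 C1 : ℝ) (hK : IsKer K c1 C1) : False := by
  obtain ⟨δ, hδ0, hδ⟩ : ∃ δ : ℚ, (0 : ℝ) < (δ : ℝ) ∧ (δ : ℝ) < 3 * c1 / (16 * C1) :=
    exists_rat_btwn (by have := hK.pos1; have := hK.pos2; positivity)
  have hδ0' : 0 < δ := by exact_mod_cast hδ0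
  have hC1 := hK.pos2
  have hc1 := hK.pos1
  have hδ' : 16 * C1 * (δ : ℝ) < 3 * c1 := by
    rw [lt_div_iff₀ (by positivity)] at hδ
    linarith
  obtain ⟨G, T, hG, hT, hcut⟩ := plane_finite δ hδ0'
  obtain ⟨t1, ht1, hden⟩ := kf_common T
  have hl2 : 0 < Real.log 2 := Real.log_pos (by norm_num)
  set A : ℝ := 8 * (C1 * (1 + Real.log 3 + 2 * Real.log 2)) +
    G.length * (C1 * (1 + Real.log 67)) + C1 with hA
  let S : ℕ → ℝ := fun m => (T.map fun τ =>
      (K (pt (t1 * m) (tri τ).1) (pt (t1 * m) (tri τ).2.1) +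
        K (pt (t1 * m) (tri τ).2.1) (pt (t1 * m) (tri τ).2.2) -
        K (pt (t1 * m) (tri τ).1) (pt (t1 * m) (tri τ).2.2)) / (m : ℝ)).sum
  have hS : Filter.Tendsto S Filter.atTop (nhds 0) := by
    have h := tendsto_list_sum (x := Filter.atTop) (f := fun τ (m : ℕ) =>
      (K (pt (t1 * m) (tri τ).1) (pt (t1 * m) (tri τ).2.1) +
        K (pt (t1 * m) (tri τ).2.1) (pt (t1 * m) (tri τ).2.2) -
        K (pt (t1 * m) (tri τ).1) (pt (t1 * m) (tri τ).2.2)) / (m : ℝ)) (a := fun _ => (0 : ℝ)) T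
      (fun τ hτ => by
        obtain ⟨h1, h2, h3, h4⟩ := hden τ hτ
        exact tri_lim K c1 C1 hK τ (hT τ hτ).1 (hT τ hτ).2 t1 ht1 h1 h2 h3 h4)
    simpa using h
  have hineq : ∀ m : ℕ, 1 ≤ m → (6 * c1 - 16 * C1 * (δ : ℝ)) * Real.log 2 * t1 ≤
      A / m + (1 / 2) * S m := by
    intro m hm
    have hm0 : (0 : ℝ) < m := by exact_mod_cast hm
    set t : ℕ := t1 * m with ht
    have h := hK.cut PV (0, 0) (4, 0) _ _ hcut (pt t) (pt_HH t)
    have hlow := base_low K c1 C1 hK t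
    rw [List.map_append, List.map_append, List.sum_append, List.sum_append, List.map_map,
      List.map_map, List.map_map] at h
    have hs0 : ((star δ).map ((fun e : PV × PV => K (pt t e.1) (pt t e.2)) ∘
        fun s => (((0 : Fin 5), (0 : ℚ × ℚ)), ((0 : Fin 5), s)))).sum ≤
        4 * (C1 * (1 + Real.log 3 + 2 * Real.log 2 * (t * (δ : ℝ) + 1))) := by
      have := kf_sum_le (star δ) ((fun e : PV × PV => K (pt t e.1) (pt t e.2)) ∘
        fun s => (((0 : Fin 5), (0 : ℚ × ℚ)), ((0 : Fin 5), s))) _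
        (fun s hs => star_bd K c1 C1 hK t δ hδ0' 0 s hs)
      simpa [star] using this
    have hs4 : ((star δ).map ((fun e : PV × PV => K (pt t e.1) (pt t e.2)) ∘
        fun s => (((4 : Fin 5), (0 : ℚ × ℚ)), ((4 : Fin 5), s)))).sum ≤
        4 * (C1 * (1 + Real.log 3 + 2 * Real.log 2 * (t * (δ : ℝ) + 1))) := by
      have := kf_sum_le (star δ) ((fun e : PV × PV => K (pt t e.1) (pt t e.2)) ∘
        fun s => (((4 : Fin 5), (0 : ℚ × ℚ)), ((4 : Fin 5), s))) _
        (fun s hs => star_bd K c1 C1 hK t δ hδ0' 4 s hs)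
      simpa [star] using this
    have hsG : (G.map fun e => K (pt t e.1) (pt t e.2)).sum ≤
        G.length * (C1 * (1 + Real.log 67)) :=
      kf_sum_le G _ _ (fun e he => merge_bd K c1 C1 hK t e (hG e he))
    have hST : (T.map ((fun t_1 : PV × PV × PV => K (pt t t_1.1) (pt t t_1.2.1) +
        K (pt t t_1.2.1) (pt t t_1.2.2) - K (pt t t_1.1) (pt t t_1.2.2)) ∘ tri)).sum =
        m * S m := by
      simp only [S]
      rw [← List.sum_map_mul_left]
      congr 1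
      refine List.map_congr_left fun τ _ => ?_
      simp only [Function.comp]
      field_simp
      rw [ht]
    rw [hST] at h
    have htm : (t : ℝ) = t1 * m := by rw [ht]; push_cast; ring
    have hfin : (6 * c1 - 16 * C1 * (δ : ℝ)) * Real.log 2 * t1 * m ≤ A + (1 / 2) * (m * S m) := by
      rw [htm] at hs0 hs4 hlow
      rw [hA]
      nlinarith [h, hs0, hs4, hsG, hlow]
    have : (6 * c1 - 16 * C1 * (δ : ℝ)) * Real.log 2 * t1 ≤ (A + (1 / 2) * (m * S m)) / m := by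
      rw [le_div_iff₀ hm0]; exact hfin
    refine this.trans (le_of_eq ?_)
    field_simp
  have hlim : Filter.Tendsto (fun m : ℕ => A / m + (1 / 2) * S m) Filter.atTop (nhds 0) := by
    have h1 : Filter.Tendsto (fun m : ℕ => A / (m : ℝ)) Filter.atTop (nhds 0) :=
      tendsto_const_div_atTop_nhds_zero_nat A
    have h2 := h1.add (hS.const_mul (1 / 2))
    simpa using h2
  have hle : (6 * c1 - 16 * C1 * (δ : ℝ)) * Real.log 2 * t1 ≤ 0 :=
    ge_of_tendsto hlim (Filter.eventually_atTop.2 ⟨1, fun m hm => hineq m hm⟩)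
  have hpos : 0 < (6 * c1 - 16 * C1 * (δ : ℝ)) * Real.log 2 * t1 := by
    have h1 : 0 < 6 * c1 - 16 * C1 * (δ : ℝ) := by linarith
    have h2 : (0 : ℝ) < t1 := by exact_mod_cast ht1
    positivity
  linarith

end Pool.Agent.SL3L1
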