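import Mathlib
import Pool.Agent.SL3L1.NrmLem

set_option autoImplicit false

namespace Pool.Agent.SL3L1

open Matrix

/-- elementary matrices -/
def el (i j : Fin 3) (h : i ≠ j) (n : ℤ) : GZ :=
  ⟨Matrix.transvection i j n, Matrix.det_transvection_of_ne i j h n⟩

/-- `SL₂`-block in rows and columns 0,1 -/
def blk01 (a b c d : ℤ) (h : a * d - b * c = 1) : GZ :=
  ⟨!![a, b, 0; c, d, 0; 0, 0, 1], by simp [Matrix.det_fin_three]; linarith⟩

/-- `SL₂`-block in rows and columns 0,2 -/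
def blk02 (a b c d : ℤ) (h : a * d - b * c = 1) : GZ :=
  ⟨!![a, 0, b; 0, 1, 0; c, 0, d], by simp [Matrix.det_fin_three]; linarith⟩

/-- `SL₂`-block in rows and columns 1,2 -/
def blk12 (a b c d : ℤ) (h : a * d - b * c = 1) : GZ :=
  ⟨!![1, 0, 0; 0, a, b; 0, c, d], by simp [Matrix.det_fin_three]; linarith⟩

/-- length functions -/
structure IsLen (W : GZ → ℝ) : Prop where
  mul : ∀ g h : GZ, W (g * h) ≤ W g + W h
  inv : ∀ g : GZ, W g⁻¹ ≤ W g
  nonneg : ∀ g : GZ, 0 ≤ W g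

theorem nrm_castQ_one : nrm (castQ 1) = 3 := by
  rw [map_one]
  unfold nrm
  have h : ∀ i j : Fin 3, |(((1 : GQ).1 i j : ℚ) : ℝ)| = if i = j then 1 else 0 := by
    intro i j
    rw [Matrix.SpecialLinearGroup.coe_one, Matrix.one_apply]
    split_ifs <;> simp
  simp only [h]
  simp

/-- TARGET 1 -/
theorem wl_word (S : Finset GZ) (hS : Subgroup.closure (S : Set GZ) = ⊤) (g : GZ) :
    ∃ l : List GZ, l.length = wl S g ∧ (∀ x ∈ l, x ∈ S ∨ x⁻¹ ∈ S) ∧ l.prod = g := by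
  have hg : g ∈ Subgroup.closure (S : Set GZ) := by rw [hS]; trivial
  rw [← Subgroup.mem_toSubmonoid, Subgroup.closure_toSubmonoid] at hg
  obtain ⟨l, hl, hp⟩ := Submonoid.exists_list_of_mem_closure hg
  have hne : {n : ℕ | ∃ l : List GZ, l.length = n ∧ (∀ x ∈ l, x ∈ S ∨ x⁻¹ ∈ S) ∧
      l.prod = g}.Nonempty := ⟨l.length, l, rfl, fun x hx => by simpa using hl x hx, hp⟩
  exact Nat.sInf_mem hne

theorem wl_le (S : Finset GZ) (g : GZ) (l : List GZ) (hl : ∀ x ∈ l, x ∈ S ∨ x⁻¹ ∈ S)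
    (hp : l.prod = g) : wl S g ≤ l.length :=
  Nat.sInf_le ⟨l, rfl, hl, hp⟩

/-- TARGET 2 -/
theorem wl_isLen (S : Finset GZ) (hS : Subgroup.closure (S : Set GZ) = ⊤) :
    IsLen (fun g => (wl S g : ℝ)) := by
  refine ⟨?_, ?_, fun g => Nat.cast_nonneg _⟩
  · intro g h
    obtain ⟨l, hl, hl2, hl3⟩ := wl_word S hS g
    obtain ⟨m, hm, hm2, hm3⟩ := wl_word S hS h
    have h1 := wl_le S (g * h) (l ++ m) (by
      intro x hx
      rcases List.mem_append.1 hx with hx | hx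
      · exact hl2 x hx
      · exact hm2 x hx) (by rw [List.prod_append, hl3, hm3])
    rw [List.length_append, hl, hm] at h1
    show (wl S (g * h) : ℝ) ≤ (wl S g : ℝ) + (wl S h : ℝ)
    exact_mod_cast h1
  · intro g
    obtain ⟨l, hl, hl2, hl3⟩ := wl_word S hS g
    have h1 := wl_le S g⁻¹ (l.map (fun x => x⁻¹)).reverse (by
      intro x hx
      rw [List.mem_reverse, List.mem_map] at hx
      obtain ⟨y, hy, rfl⟩ := hx
      rw [inv_inv]
      exact (hl2 y hy).symm) (by rw [← List.prod_inv_reverse, hl3])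
    rw [List.length_reverse, List.length_map, hl] at h1
    show (wl S g⁻¹ : ℝ) ≤ (wl S g : ℝ)
    exact_mod_cast h1

/-- TARGET 3 -/
theorem wl_lower (S : Finset GZ) (hS : Subgroup.closure (S : Set GZ) = ⊤) :
    ∃ C : ℝ, 0 < C ∧ ∀ γ : GZ, Real.log (nrm (castQ γ)) ≤ C * (1 + (wl S γ : ℝ)) := by
  have hn0 : ∀ A : GQ, 0 ≤ nrm A := fun A => zero_le_one.trans (nrm_one_le A)
  set M : ℝ := 1 + ∑ s ∈ S, (nrm (castQ s) + nrm (castQ s⁻¹)) with hM
  have hsum : ∀ s ∈ S, nrm (castQ s) + nrm (castQ s⁻¹) ≤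
      ∑ s ∈ S, (nrm (castQ s) + nrm (castQ s⁻¹)) := fun s hs =>
    Finset.single_le_sum (f := fun s => nrm (castQ s) + nrm (castQ s⁻¹))
      (fun t _ => add_nonneg (hn0 _) (hn0 _)) hs
  have hM1 : 1 ≤ M := by
    rw [hM]
    have : 0 ≤ ∑ s ∈ S, (nrm (castQ s) + nrm (castQ s⁻¹)) :=
      Finset.sum_nonneg fun t _ => add_nonneg (hn0 _) (hn0 _)
    linarith
  have hx : ∀ x : GZ, (x ∈ S ∨ x⁻¹ ∈ S) → nrm (castQ x) ≤ M := by
    rintro x (hx | hx)
    · have h1 := hsum x hx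
      have h2 := hn0 (castQ x⁻¹)
      rw [hM]
      linarith
    · have h1 := hsum x⁻¹ hx
      rw [inv_inv] at h1
      have h2 := hn0 (castQ x⁻¹)
      rw [hM]
      linarith
  have hword : ∀ l : List GZ, (∀ x ∈ l, x ∈ S ∨ x⁻¹ ∈ S) →
      nrm (castQ l.prod) ≤ 3 * M ^ l.length := by
    intro l
    induction l with
    | nil =>
      intro _
      rw [List.prod_nil, nrm_castQ_one]
      simp
    | cons x l ih =>
      intro h
      rw [List.prod_cons, map_mul, List.length_cons, pow_succ]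
      have h1 := ih fun y hy => h y (List.mem_cons_of_mem _ hy)
      have h2 := hx x (h x List.mem_cons_self)
      calc nrm (castQ x * castQ l.prod) ≤ nrm (castQ x) * nrm (castQ l.prod) := nrm_mul _ _
        _ ≤ M * (3 * M ^ l.length) :=
          mul_le_mul h2 h1 (hn0 _) (zero_le_one.trans hM1)
        _ = 3 * (M ^ l.length * M) := by ring
  have hlog3 : 0 ≤ Real.log 3 := Real.log_nonneg (by norm_num)
  have hlogM : 0 ≤ Real.log M := Real.log_nonneg hM1
  refine ⟨1 + Real.log 3 + Real.log M, by positivity, ?_⟩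
  intro γ
  obtain ⟨l, hl, hl2, hl3⟩ := wl_word S hS γ
  have h1 := hword l hl2
  rw [hl3, hl] at h1
  have hM0 : 0 < M := by linarith
  have h2 : Real.log (nrm (castQ γ)) ≤ Real.log (3 * M ^ wl S γ) :=
    Real.log_le_log (by have := nrm_one_le (castQ γ); linarith) h1
  rw [Real.log_mul (by norm_num) (by positivity), Real.log_pow] at h2
  have h3 : (0:ℝ) ≤ (wl S γ : ℝ) := Nat.cast_nonneg _
  nlinarith [mul_nonneg hlog3 h3, mul_nonneg hlogM h3]

end Pool.Agent.SL3L1
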