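import Mathlib
import Pool.Agent.SL3L1.WordLen

set_option autoImplicit false

namespace Pool.Agent.SL3L1

open Matrix

/-- the abelian unipotent subgroup -/
def uu (x y : ℤ) : GZ := ⟨!![1, 0, x; 0, 1, y; 0, 0, 1], by simp [Matrix.det_fin_three]⟩

theorem uu_mul9443 (x y x' y' : ℤ) : uu x y * uu x' y' = uu (x + x') (y + y') := by
  apply Subtype.ext
  rw [Matrix.SpecialLinearGroup.coe_mul]
  ext i j
  fin_cases i <;> fin_cases j <;> simp [uu, Matrix.mul_apply, Fin.sum_univ_three, add_comm]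

/-- the Fibonacci matrix -/
def gA9443 : GZ := ⟨!![1, 1, 0; 1, 2, 0; 0, 0, 1], by simp [Matrix.det_fin_three]⟩

theorem gA_conj9443 (x y : ℤ) : gA9443 * uu x y * gA9443⁻¹ = uu (x + y) (x + 2 * y) := by
  rw [mul_inv_eq_iff_eq_mul]
  apply Subtype.ext
  rw [Matrix.SpecialLinearGroup.coe_mul, Matrix.SpecialLinearGroup.coe_mul]
  ext i j
  fin_cases i <;> fin_cases j <;> simp [uu, gA9443, Matrix.mul_apply, Fin.sum_univ_three]

/-- TARGET 1: Horner scheme with `gA = !![1,1,0;1,2,0;0,0,1]`, `gA * uu x y * gA⁻¹ = uu (x+y) (x+2y)` -/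
theorem horner (W : GZ → ℝ) (hW : IsLen W) : ∃ C : ℝ, 0 < C ∧ ∀ (k : ℕ) (ε : ℕ → ℕ),
    (∀ i, ε i ≤ 2) →
    W (uu (∑ i ∈ Finset.range k, (ε i : ℤ) * (Nat.fib (2 * i) : ℤ))
          (∑ i ∈ Finset.range k, (ε i : ℤ) * (Nat.fib (2 * i + 1) : ℤ))) ≤ C * (1 + k) := by
  have n0 := hW.nonneg (uu 0 0)
  have n1 := hW.nonneg (uu 0 1)
  have n2 := hW.nonneg (uu 0 2)
  have nA := hW.nonneg gA9443
  refine ⟨W (uu 0 0) + W (uu 0 1) + W (uu 0 2) + 2 * W gA9443 + 1, by linarith, ?_⟩
  intro k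
  induction k with
  | zero =>
    intro ε _
    simp only [Finset.range_zero, Finset.sum_empty, Nat.cast_zero, add_zero, mul_one]
    linarith
  | succ k ih =>
    intro ε hε
    have h1 := ih (fun i => ε (i + 1)) (fun i => hε _)
    set X' : ℤ := ∑ i ∈ Finset.range k, (ε (i + 1) : ℤ) * (Nat.fib (2 * i) : ℤ) with hX'
    set Y' : ℤ := ∑ i ∈ Finset.range k, (ε (i + 1) : ℤ) * (Nat.fib (2 * i + 1) : ℤ) with hY'
    have e1 : ∑ i ∈ Finset.range (k + 1), (ε i : ℤ) * (Nat.fib (2 * i) : ℤ) = 0 + (X' + Y') := by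
      rw [Finset.sum_range_succ', hX', hY', ← Finset.sum_add_distrib]
      simp only [mul_zero, Nat.fib_zero, Nat.cast_zero, add_zero, zero_add]
      apply Finset.sum_congr rfl
      intro i _
      rw [show 2 * (i + 1) = 2 * i + 2 by ring, Nat.fib_add_two]
      push_cast
      ring
    have e2 : ∑ i ∈ Finset.range (k + 1), (ε i : ℤ) * (Nat.fib (2 * i + 1) : ℤ) =
        (ε 0 : ℤ) + (X' + 2 * Y') := by
      rw [Finset.sum_range_succ', hX', hY', Finset.mul_sum, ← Finset.sum_add_distrib]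
      simp only [mul_zero, zero_add, Nat.fib_one, Nat.cast_one, mul_one]
      rw [add_comm]
      congr 1
      apply Finset.sum_congr rfl
      intro i _
      rw [show 2 * (i + 1) + 1 = (2 * i + 1) + 2 by ring, Nat.fib_add_two,
        show 2 * i + 1 + 1 = 2 * i + 2 by ring, Nat.fib_add_two]
      push_cast
      ring
    rw [e1, e2, ← uu_mul9443, ← gA_conj9443]
    have h2 := hW.mul (uu 0 (ε 0)) (gA9443 * uu X' Y' * gA9443⁻¹)
    have h3 := hW.mul (gA9443 * uu X' Y') gA9443⁻¹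
    have h4 := hW.mul gA9443 (uu X' Y')
    have h5 := hW.inv gA9443
    have h6 : W (uu 0 (ε 0)) ≤ W (uu 0 0) + W (uu 0 1) + W (uu 0 2) := by
      have h7 := hε 0
      interval_cases h : ε 0
      · simp only [Nat.cast_zero]; linarith
      · simp only [Nat.cast_one]; linarith
      · have : ((2 : ℕ) : ℤ) = 2 := rfl
        rw [this]; linarith
    push_cast
    nlinarith

/-- TARGET 2: greedy expansion -/
theorem digits (k : ℕ) (hk : 1 ≤ k) : ∀ n : ℕ, n < Nat.fib (2 * k) →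
    ∃ ε : ℕ → ℕ, (∀ i, ε i ≤ 2) ∧ (n : ℤ) = ∑ i ∈ Finset.range k, (ε i : ℤ) * (Nat.fib (2 * i) : ℤ) := by
  induction k, hk using Nat.le_induction with
  | base =>
    intro n hn
    have h0 : n = 0 := by
      have : Nat.fib (2 * 1) = 1 := by decide
      omega
    exact ⟨fun _ => 0, fun _ => Nat.zero_le 2, by simp [h0]⟩
  | succ k hk ih =>
    intro n hn
    have hpos : 0 < Nat.fib (2 * k) := Nat.fib_pos.2 (by omega)
    have h1 : Nat.fib (2 * (k + 1)) ≤ 3 * Nat.fib (2 * k) := by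
      obtain ⟨m, rfl⟩ : ∃ m, k = m + 1 := ⟨k - 1, by omega⟩
      rw [show 2 * (m + 1 + 1) = 2 * (m + 1) + 2 by ring, Nat.fib_add_two,
        show 2 * (m + 1) + 1 = (2 * m + 1) + 2 by ring, Nat.fib_add_two,
        show 2 * m + 1 + 1 = 2 * (m + 1) by ring]
      have : Nat.fib (2 * m + 1) ≤ Nat.fib (2 * (m + 1)) := Nat.fib_mono (by omega)
      omega
    obtain ⟨ε, hε, hsum⟩ := ih (n % Nat.fib (2 * k)) (Nat.mod_lt _ hpos)
    refine ⟨Function.update ε k (n / Nat.fib (2 * k)), ?_, ?_⟩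
    · intro i
      by_cases hi : i = k
      · subst hi
        rw [Function.update_self]
        have : n / Nat.fib (2 * i) < 3 := by
          rw [Nat.div_lt_iff_lt_mul hpos]
          omega
        omega
      · rw [Function.update_of_ne hi]
        exact hε i
    · rw [Finset.sum_range_succ, Function.update_self]
      have e : ∑ i ∈ Finset.range k, (Function.update ε k (n / Nat.fib (2 * k)) i : ℤ) *
          (Nat.fib (2 * i) : ℤ) = ∑ i ∈ Finset.range k, (ε i : ℤ) * (Nat.fib (2 * i) : ℤ) := by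
        apply Finset.sum_congr rfl
        intro i hi
        rw [Finset.mem_range] at hi
        rw [Function.update_of_ne (by omega)]
      rw [e, ← hsum]
      have := Nat.mod_add_div' n (Nat.fib (2 * k))
      exact_mod_cast this.symm

theorem el12_9443 (n : ℤ) : el 1 2 (by decide) n = uu 0 n := by
  apply Subtype.ext
  ext i j
  fin_cases i <;> fin_cases j <;> simp [uu, el, Matrix.transvection, Matrix.single]

theorem E_conj9443 (x y : ℤ) : el 1 0 (by decide) 1 * uu x y * (el 1 0 (by decide) 1)⁻¹ =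
    uu x (x + y) := by
  rw [mul_inv_eq_iff_eq_mul]
  apply Subtype.ext
  rw [Matrix.SpecialLinearGroup.coe_mul, Matrix.SpecialLinearGroup.coe_mul]
  ext i j
  fin_cases i <;> fin_cases j <;>
    simp [uu, el, Matrix.transvection, Matrix.single, Matrix.mul_apply, Fin.sum_univ_three]

theorem fib_big9443 (k : ℕ) : 2 ^ k ≤ Nat.fib (2 * (k + 1)) := by
  induction k with
  | zero => decide
  | succ k ih =>
    rw [show 2 * (k + 1 + 1) = 2 * (k + 1) + 2 by ring, Nat.fib_add_two, pow_succ]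
    have : Nat.fib (2 * (k + 1)) ≤ Nat.fib (2 * (k + 1) + 1) := Nat.fib_mono (by omega)
    omega

/-- TARGET 3 -/
theorem len_e12 (W : GZ → ℝ) (hW : IsLen W) : ∃ C : ℝ, 0 < C ∧ ∀ n : ℕ,
    W (el 1 2 (by decide) (n : ℤ)) ≤ C * (1 + Real.log (1 + (n : ℝ))) := by
  obtain ⟨C, hC, hhor⟩ := horner W hW
  have nE := hW.nonneg (el 1 0 (by decide) 1)
  refine ⟨2 * W (el 1 0 (by decide) 1) + 6 * C, by linarith, ?_⟩
  intro n
  set k : ℕ := Nat.log 2 n + 2 with hk
  have hn : n < Nat.fib (2 * k) := by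
    have h1 : n < 2 ^ (Nat.log 2 n + 1) := Nat.lt_pow_succ_log_self (by norm_num) n
    have h2 := fib_big9443 (Nat.log 2 n + 1)
    exact lt_of_lt_of_le h1 h2
  obtain ⟨ε, hε, hsum⟩ := digits k (by omega) n hn
  have h1 := hhor k ε hε
  rw [← hsum] at h1
  set y : ℤ := ∑ i ∈ Finset.range k, (ε i : ℤ) * (Nat.fib (2 * i + 1) : ℤ) with hy
  have h2 : el 1 2 (by decide) (n : ℤ) =
      (el 1 0 (by decide) 1 * uu n y * (el 1 0 (by decide) 1)⁻¹) * (uu n y)⁻¹ := by
    rw [E_conj9443, el12_9443, eq_mul_inv_iff_mul_eq, uu_mul9443]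
    congr 1
    ring
  have h3 := hW.mul (el 1 0 (by decide) 1 * uu n y * (el 1 0 (by decide) 1)⁻¹) (uu n y)⁻¹
  have h4 := hW.mul (el 1 0 (by decide) 1 * uu n y) (el 1 0 (by decide) 1)⁻¹
  have h5 := hW.mul (el 1 0 (by decide) 1) (uu n y)
  have h6 := hW.inv (el 1 0 (by decide) 1)
  have h7 := hW.inv (uu n y)
  have hlog : (Nat.log 2 n : ℝ) ≤ 2 * Real.log (1 + (n : ℝ)) := by
    rcases Nat.eq_zero_or_pos n with h0 | h0
    · subst h0
      simp
    · have h8 : 2 ^ Nat.log 2 n ≤ n := Nat.pow_log_le_self 2 (by omega)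
      have h9 : ((2 : ℝ)) ^ Nat.log 2 n ≤ 1 + n := by
        have : ((2 : ℝ)) ^ Nat.log 2 n ≤ n := by exact_mod_cast h8
        linarith
      have h10 := Real.log_le_log (by positivity) h9
      rw [Real.log_pow] at h10
      have h11 := Real.log_two_gt_d9
      have h12 : (0 : ℝ) ≤ (Nat.log 2 n : ℝ) := Nat.cast_nonneg _
      nlinarith
  have hlog0 : 0 ≤ Real.log (1 + (n : ℝ)) := Real.log_nonneg (by
    have : (0 : ℝ) ≤ n := Nat.cast_nonneg n
    linarith)
  have hkr : (k : ℝ) = Nat.log 2 n + 2 := by rw [hk]; push_cast; ring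
  rw [hkr] at h1
  rw [h2]
  have h13 : C * (1 + ((Nat.log 2 n : ℝ) + 2)) ≤ C * (3 * (1 + Real.log (1 + (n : ℝ)))) := by
    apply mul_le_mul_of_nonneg_left _ hC.le
    linarith
  nlinarith

theorem len_e12_int9443 (W : GZ → ℝ) (hW : IsLen W) (C : ℝ)
    (h : ∀ n : ℕ, W (el 1 2 (by decide) (n : ℤ)) ≤ C * (1 + Real.log (1 + (n : ℝ)))) (n : ℤ) :
    W (el 1 2 (by decide) n) ≤ C * (1 + Real.log (1 + |(n : ℝ)|)) := by
  have habs : |(n : ℝ)| = (n.natAbs : ℝ) := by
    rw [Nat.cast_natAbs]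
    push_cast
    rfl
  rw [habs]
  rcases Int.natAbs_eq n with hn | hn
  · have := h n.natAbs
    rwa [← hn] at this
  · have h1 := h n.natAbs
    have h2 : el 1 2 (by decide) n = (el 1 2 (by decide) (n.natAbs : ℤ))⁻¹ := by
      rw [el12_9443, el12_9443, eq_inv_iff_mul_eq_one, uu_mul9443]
      apply Subtype.ext
      ext i j
      have : n + (n.natAbs : ℤ) = 0 := by omega
      rw [this]
      fin_cases i <;> fin_cases j <;> simp [uu]
    rw [h2]
    exact (hW.inv _).trans h1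

theorem len_conj9443 (W : GZ → ℝ) (hW : IsLen W) (P : GZ) {g g' : GZ} (h : g * P = P * g') :
    W g ≤ 2 * W P + W g' := by
  have h1 : g = P * g' * P⁻¹ := by rw [eq_mul_inv_iff_mul_eq, h]
  rw [h1]
  have h2 := hW.mul (P * g') P⁻¹
  have h3 := hW.mul P g'
  have h4 := hW.inv P
  linarith

theorem exists_P9443 (i j : Fin 3) (h : i ≠ j) : ∃ P : GZ, ∀ n : ℤ,
    el i j h n * P = P * el 1 2 (by decide) n := by
  have key : ∀ (i j : Fin 3) (h : i ≠ j) (M : Matrix (Fin 3) (Fin 3) ℤ) (hM : M.det = 1),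
      (∀ n : ℤ, Matrix.transvection i j n * M = M * Matrix.transvection 1 2 n) →
      ∃ P : GZ, ∀ n : ℤ, el i j h n * P = P * el 1 2 (by decide) n := by
    intro i j h M hM hn
    let P : GZ := ⟨M, hM⟩
    refine ⟨P, fun n => ?_⟩
    apply Subtype.ext
    exact hn n
  fin_cases i <;> fin_cases j
  · exact absurd rfl h
  · -- (0,1): columns c0 = e2, c1 = e0, c2 = e1
    refine key 0 1 (by decide) !![0, 1, 0; 0, 0, 1; 1, 0, 0] (by simp [Matrix.det_fin_three]) ?_
    intro n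
    ext a b
    fin_cases a <;> fin_cases b <;>
      simp [Matrix.transvection, Matrix.single, Matrix.mul_apply, Fin.sum_univ_three]
  · -- (0,2): c0 = -e1, c1 = e0, c2 = e2
    refine key 0 2 (by decide) !![0, 1, 0; -1, 0, 0; 0, 0, 1] (by simp [Matrix.det_fin_three]) ?_
    intro n
    ext a b
    fin_cases a <;> fin_cases b <;>
      simp [Matrix.transvection, Matrix.single, Matrix.mul_apply, Fin.sum_univ_three]
  · -- (1,0): c0 = -e2, c1 = e1, c2 = e0
    refine key 1 0 (by decide) !![0, 0, 1; 0, 1, 0; -1, 0, 0] (by simp [Matrix.det_fin_three]) ?_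
    intro n
    ext a b
    fin_cases a <;> fin_cases b <;>
      simp [Matrix.transvection, Matrix.single, Matrix.mul_apply, Fin.sum_univ_three]
  · exact absurd rfl h
  · -- (1,2)
    refine key 1 2 (by decide) !![1, 0, 0; 0, 1, 0; 0, 0, 1] (by simp [Matrix.det_fin_three]) ?_
    intro n
    ext a b
    fin_cases a <;> fin_cases b <;>
      simp [Matrix.transvection, Matrix.single, Matrix.mul_apply, Fin.sum_univ_three]
  · -- (2,0): c0 = e1, c1 = e2, c2 = e0
    refine key 2 0 (by decide) !![0, 0, 1; 1, 0, 0; 0, 1, 0] (by simp [Matrix.det_fin_three]) ?_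
    intro n
    ext a b
    fin_cases a <;> fin_cases b <;>
      simp [Matrix.transvection, Matrix.single, Matrix.mul_apply, Fin.sum_univ_three]
  · -- (2,1): c0 = -e0, c1 = e2, c2 = e1
    refine key 2 1 (by decide) !![-1, 0, 0; 0, 0, 1; 0, 1, 0] (by simp [Matrix.det_fin_three]) ?_
    intro n
    ext a b
    fin_cases a <;> fin_cases b <;>
      simp [Matrix.transvection, Matrix.single, Matrix.mul_apply, Fin.sum_univ_three]
  · exact absurd rfl h

/-- TARGET 4: all elementary matrices, by conjugation with signed permutation matrices -/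
theorem len_el (W : GZ → ℝ) (hW : IsLen W) : ∃ C : ℝ, 0 < C ∧
    ∀ (i j : Fin 3) (h : i ≠ j) (n : ℤ),
      W (el i j h n) ≤ C * (1 + Real.log (1 + |(n : ℝ)|)) := by
  classical
  obtain ⟨C, hC, h12⟩ := len_e12 W hW
  have h12' := len_e12_int9443 W hW C h12
  choose P hP using exists_P9443
  set K : ℝ := ∑ x : Fin 3 × Fin 3, if h : x.1 ≠ x.2 then W (P x.1 x.2 h) else 0 with hK
  have hnn : ∀ x : Fin 3 × Fin 3, 0 ≤ if h : x.1 ≠ x.2 then W (P x.1 x.2 h) else 0 := by
    intro x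
    split_ifs
    · exact hW.nonneg _
    · exact le_rfl
  have hKP : ∀ (i j : Fin 3) (h : i ≠ j), W (P i j h) ≤ K := by
    intro i j h
    have := Finset.single_le_sum (f := fun x : Fin 3 × Fin 3 =>
      if h : x.1 ≠ x.2 then W (P x.1 x.2 h) else 0) (fun x _ => hnn x) (Finset.mem_univ (i, j))
    simp only [dif_pos h] at this
    exact this
  have hK0 : 0 ≤ K := Finset.sum_nonneg (fun x _ => hnn x)
  refine ⟨2 * K + C, by linarith, ?_⟩
  intro i j h n
  have h1 := len_conj9443 W hW (P i j h) (hP i j h n)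
  have h2 := h12' n
  have h3 := hKP i j h
  have h4 : 0 ≤ Real.log (1 + |(n : ℝ)|) := Real.log_nonneg (by
    have := abs_nonneg (n : ℝ)
    linarith)
  nlinarith

end Pool.Agent.SL3L1
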