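import Mathlib
import Pool.Agent.SL3L1.ElemLen

set_option autoImplicit false

namespace Pool.Agent.SL3L1

open Matrix

/-- TARGET 1: one step of the euclidean algorithm does not increase the sup norm of the second
column -/
theorem second_col (a b c d q : ℤ) (h : |a * d - b * c| = 1) (hc : c ≠ 0)
    (hr : |a - q * c| < |c|) : |b - q * d| ≤ max |b| |d| := by
  by_cases hd : d = 0
  · subst hd
    simp
  · apply le_trans _ (le_max_right _ _)
    have hd1 : 1 ≤ |d| := Int.one_le_abs hd
    have hc1 : 1 ≤ |c| := Int.one_le_abs hc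
    have e : (b - q * d) * c = (a - q * c) * d - (a * d - b * c) := by ring
    have h1 : |b - q * d| * |c| ≤ |a - q * c| * |d| + 1 := by
      rw [← abs_mul, e, ← abs_mul, ← h]
      exact abs_sub _ _
    have h2 : |a - q * c| * |d| ≤ (|c| - 1) * |d| := by
      apply mul_le_mul_of_nonneg_right _ (abs_nonneg d)
      omega
    have h3 : |b - q * d| * |c| ≤ |d| * |c| := by nlinarith
    exact le_of_mul_le_mul_right h3 (by omega)

theorem step_9444 (a c : ℤ) (hc : c ≠ 0) (hac : |c| ≤ |a|) :
    |a - a.tdiv c * c| < |c| ∧ 1 ≤ |a.tdiv c| ∧ (1 + |a.tdiv c|) * |a - a.tdiv c * c| ≤ |a| ∧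
      |a.tdiv c| * |c| ≤ |a| := by
  have h1 : a - a.tdiv c * c = a.tmod c := by
    have := Int.tmod_add_mul_tdiv a c
    linarith
  have hcpos : 0 < |c| := abs_pos.2 hc
  have h2 : |a - a.tdiv c * c| < |c| := by
    rw [h1]
    have h3 := Int.natAbs_tmod a c
    have h4 : a.natAbs % c.natAbs < c.natAbs := Nat.mod_lt _ (Int.natAbs_pos.2 hc)
    rw [← h3] at h4
    rw [Int.abs_eq_natAbs, Int.abs_eq_natAbs]
    exact_mod_cast h4
  have h5 : |a| = |a.tdiv c| * |c| + |a - a.tdiv c * c| := by
    rw [h1]
    have h3 := Int.natAbs_tmod a c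
    have h4 := Int.natAbs_tdiv a c
    rw [Int.abs_eq_natAbs, Int.abs_eq_natAbs, Int.abs_eq_natAbs, Int.abs_eq_natAbs, h3, h4]
    have := Nat.div_add_mod' a.natAbs c.natAbs
    exact_mod_cast this.symm
  have h6 : 1 ≤ |a.tdiv c| := by
    by_contra h7
    push Not at h7
    have h8 : |a.tdiv c| = 0 := by
      have := abs_nonneg (a.tdiv c)
      omega
    rw [h8] at h5
    omega
  refine ⟨h2, h6, ?_, ?_⟩
  · have h9 : |a.tdiv c| * |a - a.tdiv c * c| ≤ |a.tdiv c| * |c| :=
      mul_le_mul_of_nonneg_left h2.le (abs_nonneg _)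
    linarith
  · have := abs_nonneg (a - a.tdiv c * c)
    linarith

theorem cost_9444 (C : ℝ) (hC : 0 < C) (a q r : ℤ) (hq : 1 ≤ |q|) (hr : r ≠ 0) (h : (1 + |q|) * |r| ≤ |a|) :
    C * (1 + Real.log (1 + |(q : ℝ)|)) + 3 * C * Real.log |(r : ℝ)| ≤ 3 * C * Real.log |(a : ℝ)| := by
  have hq' : (1 : ℝ) ≤ |(q : ℝ)| := by exact_mod_cast hq
  have hr' : (0 : ℝ) < |(r : ℝ)| := by
    have : (r : ℝ) ≠ 0 := by exact_mod_cast hr
    positivity
  have h' : (1 + |(q : ℝ)|) * |(r : ℝ)| ≤ |(a : ℝ)| := by exact_mod_cast h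
  have h1 : Real.log (1 + |(q : ℝ)|) + Real.log |(r : ℝ)| ≤ Real.log |(a : ℝ)| := by
    rw [← Real.log_mul (by positivity) hr'.ne']
    exact Real.log_le_log (by positivity) h'
  have h2 : Real.log 2 ≤ Real.log (1 + |(q : ℝ)|) := Real.log_le_log (by norm_num) (by linarith)
  have h3 : (1 : ℝ) / 2 ≤ Real.log 2 := by
    have := Real.log_two_gt_d9
    linarith
  nlinarith [mul_le_mul_of_nonneg_left h1 hC.le]

theorem blk_up_9444 (a b c d q : ℤ) (h : a * d - b * c = 1) (h' : (a - q * c) * d - (b - q * d) * c = 1) :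
    blk01 a b c d h = el 0 1 (by decide) q * blk01 (a - q * c) (b - q * d) c d h' := by
  apply Subtype.ext
  show (blk01 a b c d h).1 = (el 0 1 (by decide) q).1 * (blk01 (a - q * c) (b - q * d) c d h').1
  ext i j
  fin_cases i <;> fin_cases j <;>
    simp [blk01, el, Matrix.mul_apply, Fin.sum_univ_three, Matrix.transvection, Matrix.single_apply, Matrix.one_apply]

theorem blk_lo_9444 (a b c d q : ℤ) (h : a * d - b * c = 1) (h' : a * (d - q * b) - b * (c - q * a) = 1) :
    blk01 a b c d h = el 1 0 (by decide) q * blk01 a b (c - q * a) (d - q * b) h' := by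
  apply Subtype.ext
  show (blk01 a b c d h).1 = (el 1 0 (by decide) q).1 * (blk01 a b (c - q * a) (d - q * b) h').1
  ext i j
  fin_cases i <;> fin_cases j <;>
    simp [blk01, el, Matrix.mul_apply, Fin.sum_univ_three, Matrix.transvection, Matrix.single_apply, Matrix.one_apply]

theorem blk_mul_9444 (a b c d a' b' c' d' : ℤ) (h : a * d - b * c = 1) (h' : a' * d' - b' * c' = 1)
    (h'' : (a * a' + b * c') * (c * b' + d * d') - (a * b' + b * d') * (c * a' + d * c') = 1) :
    blk01 a b c d h * blk01 a' b' c' d' h' =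
      blk01 (a * a' + b * c') (a * b' + b * d') (c * a' + d * c') (c * b' + d * d') h'' := by
  apply Subtype.ext
  show (blk01 a b c d h).1 * (blk01 a' b' c' d' h').1 = _
  ext i j
  fin_cases i <;> fin_cases j <;>
    simp [blk01, Matrix.mul_apply, Fin.sum_univ_three]

theorem el_eq_9444 (n : ℤ) : el 0 1 (by decide) n = blk01 1 n 0 1 (by ring) := by
  apply Subtype.ext
  show (el 0 1 (by decide) n).1 = (blk01 1 n 0 1 (by ring)).1
  ext i j
  fin_cases i <;> fin_cases j <;>
    simp [blk01, el, Matrix.transvection, Matrix.single_apply, Matrix.one_apply]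

theorem blk_congr_9444 (a b c d a' b' c' d' : ℤ) (h : a * d - b * c = 1) (h' : a' * d' - b' * c' = 1)
    (h1 : a = a') (h2 : b = b') (h3 : c = c') (h4 : d = d') : blk01 a b c d h = blk01 a' b' c' d' h' := by
  subst h1 h2 h3 h4; rfl

/-- TARGET 2: `SL₂`-blocks -/
theorem len_blk01 (W : GZ → ℝ) (hW : IsLen W) : ∃ C : ℝ, 0 < C ∧
    ∀ (a b c d : ℤ) (h : a * d - b * c = 1),
      W (blk01 a b c d h) ≤
        C * (1 + Real.log (1 + |(a : ℝ)| + |(b : ℝ)| + |(c : ℝ)| + |(d : ℝ)|)) := by
  obtain ⟨C1, hC1, hel⟩ := len_el W hW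
  set D : GZ := blk01 (-1) 0 0 (-1) (by ring) with hD
  set w : GZ := blk01 0 1 (-1) 0 (by ring) with hw
  have hD0 := hW.nonneg D
  have hw0 := hW.nonneg w
  set K : ℝ := W D + W w with hK
  -- the case c = 0
  have hA : ∀ (a b d : ℤ) (h : a * d - b * 0 = 1) (M : ℝ), |(b : ℝ)| ≤ M →
      W (blk01 a b 0 d h) ≤ W D + C1 * (1 + Real.log (1 + M)) := by
    intro a b d h M hM
    have hmono : Real.log (1 + |(b : ℝ)|) ≤ Real.log (1 + M) :=
      Real.log_le_log (by positivity) (by linarith)
    have had : a * d = 1 := by linarith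
    rcases Int.eq_one_or_neg_one_of_mul_eq_one had with ha | ha
    · have hd : d = 1 := by rw [ha] at had; linarith
      have e : blk01 a b 0 d h = el 0 1 (by decide) b := by
        rw [el_eq_9444]
        exact blk_congr_9444 _ _ _ _ _ _ _ _ _ _ ha rfl rfl hd
      rw [e]
      have h1 := hel 0 1 (by decide) b
      have h2 : C1 * (1 + Real.log (1 + |(b : ℝ)|)) ≤ C1 * (1 + Real.log (1 + M)) :=
        mul_le_mul_of_nonneg_left (by linarith) hC1.le
      linarith
    · have hd : d = -1 := by rw [ha] at had; linarith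
      have e : blk01 a b 0 d h = D * el 0 1 (by decide) (-b) := by
        rw [el_eq_9444, hD, blk_mul_9444 _ _ _ _ _ _ _ _ _ _ (by ring)]
        apply blk_congr_9444
        · rw [ha]; ring
        · ring
        · ring
        · rw [hd]; ring
      rw [e]
      have h1 := hel 0 1 (by decide) (-b)
      have h2 := hW.mul D (el 0 1 (by decide) (-b))
      push_cast at h1
      rw [abs_neg] at h1
      have h3 : C1 * (1 + Real.log (1 + |(b : ℝ)|)) ≤ C1 * (1 + Real.log (1 + M)) :=
        mul_le_mul_of_nonneg_left (by linarith) hC1.le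
      linarith
  -- the case a = 0
  have hB : ∀ (b c d : ℤ) (h : 0 * d - b * c = 1) (M : ℝ), |(d : ℝ)| ≤ M →
      W (blk01 0 b c d h) ≤ K + C1 * (1 + Real.log (1 + M)) := by
    intro b c d h M hM
    have h0 : c * (-b) - d * 0 = 1 := by linarith
    have e : blk01 c d 0 (-b) h0 = w * blk01 0 b c d h := by
      rw [hw, blk_mul_9444 _ _ _ _ _ _ _ _ _ _ (by linarith)]
      apply blk_congr_9444 <;> ring
    have e2 : blk01 0 b c d h = w⁻¹ * blk01 c d 0 (-b) h0 := by
      rw [e, inv_mul_cancel_left]
    have h1 := hA c d (-b) h0 M hM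
    have h2 := hW.mul w⁻¹ (blk01 c d 0 (-b) h0)
    have h3 := hW.inv w
    rw [e2]
    linarith
  have key : ∀ (n : ℕ) (a b c d : ℤ) (h : a * d - b * c = 1) (M : ℝ), a ≠ 0 → c ≠ 0 →
      a.natAbs + c.natAbs = n → |(b : ℝ)| ≤ M → |(d : ℝ)| ≤ M →
      W (blk01 a b c d h) ≤ 3 * C1 * (Real.log |(a : ℝ)| + Real.log |(c : ℝ)|) + (K + C1 * (1 + Real.log (1 + M))) + 2 * C1 := by
    intro n
    induction n using Nat.strong_induction_on with
    | _ n ih =>
      intro a b c d h M ha hc hn hb hd
      rcases le_total |c| |a| with hac | hac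
      · obtain ⟨s1, s2, s3, s4⟩ := step_9444 a c hc hac
        set q := a.tdiv c with hq
        have h' : (a - q * c) * d - (b - q * d) * c = 1 := by rw [← h]; ring
        rw [blk_up_9444 a b c d q h h']
        have h1 := hW.mul (el 0 1 (by decide) q) (blk01 (a - q * c) (b - q * d) c d h')
        have h2 := hel 0 1 (by decide) q
        have hsc := second_col a b c d q (by rw [h]; rfl) hc s1
        have hM' : |((b - q * d : ℤ) : ℝ)| ≤ M := by
          have h3 : ((|b - q * d| : ℤ) : ℝ) ≤ ((max |b| |d| : ℤ) : ℝ) := by exact_mod_cast hsc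
          rw [Int.cast_abs] at h3
          refine h3.trans ?_
          rw [Int.cast_max, Int.cast_abs, Int.cast_abs]
          exact max_le hb hd
        by_cases hr : a - q * c = 0
        · have hc1 : |c| = 1 := by
            have hdiv : c ∣ 1 := ⟨q * d - b, by rw [← h]; have : a = q * c := by linarith
                                                rw [this]; ring⟩
            exact Int.isUnit_iff_abs_eq.1 (isUnit_of_dvd_one hdiv)
          have h3 : W (blk01 (a - q * c) (b - q * d) c d h') ≤ K + C1 * (1 + Real.log (1 + M)) := by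
            have h4 : 0 * d - (b - q * d) * c = 1 := by rw [← h', hr]
            rw [blk_congr_9444 _ _ _ _ 0 (b - q * d) c d h' h4 hr rfl rfl rfl]
            exact hB _ _ _ h4 M hd
          have h5 : |(q : ℝ)| ≤ |(a : ℝ)| := by
            rw [hc1, mul_one] at s4
            exact_mod_cast s4
          have ha1 : (1 : ℝ) ≤ |(a : ℝ)| := by
            have := Int.one_le_abs ha
            exact_mod_cast this
          have h6 : Real.log (1 + |(q : ℝ)|) ≤ 1 + Real.log |(a : ℝ)| := by
            have h7 : Real.log (1 + |(q : ℝ)|) ≤ Real.log (2 * |(a : ℝ)|) :=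
              Real.log_le_log (by positivity) (by linarith)
            rw [Real.log_mul (by norm_num) (by positivity)] at h7
            have := Real.log_two_lt_d9
            linarith
          have h8 : 0 ≤ Real.log |(a : ℝ)| := Real.log_nonneg ha1
          have hc1' : |(c : ℝ)| = 1 := by exact_mod_cast hc1
          rw [hc1', Real.log_one]
          have h9 : C1 * (1 + Real.log (1 + |(q : ℝ)|)) ≤ C1 * (2 + Real.log |(a : ℝ)|) :=
            mul_le_mul_of_nonneg_left (by linarith) hC1.le
          have h10 : 0 ≤ C1 * Real.log |(a : ℝ)| := mul_nonneg hC1.le h8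
          nlinarith
        · have hlt : (a - q * c).natAbs + c.natAbs < n := by
            have h3 : (a - q * c).natAbs < a.natAbs := by
              have := lt_of_lt_of_le s1 hac
              rw [Int.abs_eq_natAbs, Int.abs_eq_natAbs] at this
              exact_mod_cast this
            omega
          have h3 := ih _ hlt (a - q * c) (b - q * d) c d h' M hr hc rfl hM' hd
          have h4 := cost_9444 C1 hC1 a q (a - q * c) s2 hr s3
          linarith
      · obtain ⟨s1, s2, s3, s4⟩ := step_9444 c a ha hac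
        set q := c.tdiv a with hq
        have h' : a * (d - q * b) - b * (c - q * a) = 1 := by rw [← h]; ring
        rw [blk_lo_9444 a b c d q h h']
        have h1 := hW.mul (el 1 0 (by decide) q) (blk01 a b (c - q * a) (d - q * b) h')
        have h2 := hel 1 0 (by decide) q
        have hsc := second_col c d a b q (by
          have : c * b - d * a = -1 := by linarith
          rw [this]; rfl) ha s1
        have hM' : |((d - q * b : ℤ) : ℝ)| ≤ M := by
          have h3 : ((|d - q * b| : ℤ) : ℝ) ≤ ((max |d| |b| : ℤ) : ℝ) := by exact_mod_cast hsc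
          rw [Int.cast_abs] at h3
          refine h3.trans ?_
          rw [Int.cast_max, Int.cast_abs, Int.cast_abs]
          exact max_le hd hb
        by_cases hr : c - q * a = 0
        · have hc1 : |a| = 1 := by
            have hdiv : a ∣ 1 := ⟨d - b * q, by rw [← h]; have : c = q * a := by linarith
                                                rw [this]; ring⟩
            exact Int.isUnit_iff_abs_eq.1 (isUnit_of_dvd_one hdiv)
          have h3 : W (blk01 a b (c - q * a) (d - q * b) h') ≤ K + C1 * (1 + Real.log (1 + M)) := by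
            have h4 : a * (d - q * b) - b * 0 = 1 := by rw [← h', hr]
            rw [blk_congr_9444 _ _ _ _ a b 0 (d - q * b) h' h4 rfl rfl hr rfl]
            have := hA _ _ _ h4 M hb
            linarith
          have h5 : |(q : ℝ)| ≤ |(c : ℝ)| := by
            rw [hc1, mul_one] at s4
            exact_mod_cast s4
          have ha1 : (1 : ℝ) ≤ |(c : ℝ)| := by
            have := Int.one_le_abs hc
            exact_mod_cast this
          have h6 : Real.log (1 + |(q : ℝ)|) ≤ 1 + Real.log |(c : ℝ)| := by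
            have h7 : Real.log (1 + |(q : ℝ)|) ≤ Real.log (2 * |(c : ℝ)|) :=
              Real.log_le_log (by positivity) (by linarith)
            rw [Real.log_mul (by norm_num) (by positivity)] at h7
            have := Real.log_two_lt_d9
            linarith
          have h8 : 0 ≤ Real.log |(c : ℝ)| := Real.log_nonneg ha1
          have hc1' : |(a : ℝ)| = 1 := by exact_mod_cast hc1
          rw [hc1', Real.log_one]
          have h9 : C1 * (1 + Real.log (1 + |(q : ℝ)|)) ≤ C1 * (2 + Real.log |(c : ℝ)|) :=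
            mul_le_mul_of_nonneg_left (by linarith) hC1.le
          have h10 : 0 ≤ C1 * Real.log |(c : ℝ)| := mul_nonneg hC1.le h8
          nlinarith
        · have hlt : a.natAbs + (c - q * a).natAbs < n := by
            have h3 : (c - q * a).natAbs < c.natAbs := by
              have := lt_of_lt_of_le s1 hac
              rw [Int.abs_eq_natAbs, Int.abs_eq_natAbs] at this
              exact_mod_cast this
            omega
          have h3 := ih _ hlt a b (c - q * a) (d - q * b) h' M ha hr rfl hb hM'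
          have h4 := cost_9444 C1 hC1 c q (c - q * a) s2 hr s3
          linarith
  have hK0 : 0 ≤ K := by rw [hK]; linarith
  refine ⟨9 * C1 + K, by linarith, ?_⟩
  intro a b c d h
  set Λ := Real.log (1 + |(a : ℝ)| + |(b : ℝ)| + |(c : ℝ)| + |(d : ℝ)|) with hΛ
  have hpa := abs_nonneg (a : ℝ)
  have hpb := abs_nonneg (b : ℝ)
  have hpc := abs_nonneg (c : ℝ)
  have hpd := abs_nonneg (d : ℝ)
  have hΛ0 : 0 ≤ Λ := Real.log_nonneg (by linarith)
  have hMb : |(b : ℝ)| ≤ |(b : ℝ)| + |(d : ℝ)| := by linarith
  have hMd : |(d : ℝ)| ≤ |(b : ℝ)| + |(d : ℝ)| := by linarith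
  have hMΛ : Real.log (1 + (|(b : ℝ)| + |(d : ℝ)|)) ≤ Λ :=
    Real.log_le_log (by positivity) (by linarith)
  have hlast : C1 * (1 + Real.log (1 + (|(b : ℝ)| + |(d : ℝ)|))) ≤ C1 * (1 + Λ) :=
    mul_le_mul_of_nonneg_left (by linarith) hC1.le
  have hgen : ∀ x : ℝ, x ≤ 6 * C1 * Λ + K + C1 * (1 + Λ) + 2 * C1 → x ≤ (9 * C1 + K) * (1 + Λ) := by
    intro x hx
    have h1 : 0 ≤ K * Λ := mul_nonneg hK0 hΛ0
    have h2 : 0 ≤ C1 * Λ := mul_nonneg hC1.le hΛ0
    nlinarith
  apply hgen
  have h2 : 0 ≤ C1 * Λ := mul_nonneg hC1.le hΛ0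
  by_cases hc : c = 0
  · subst hc
    have := hA a b d h _ hMb
    have hK' : W D ≤ K := by rw [hK]; linarith
    nlinarith
  · by_cases ha : a = 0
    · subst ha
      have := hB b c d h _ hMd
      nlinarith
    · have h3 := key _ a b c d h _ ha hc rfl hMb hMd
      have h4 : Real.log |(a : ℝ)| ≤ Λ :=
        Real.log_le_log (abs_pos.2 (by exact_mod_cast ha)) (by linarith)
      have h5 : Real.log |(c : ℝ)| ≤ Λ :=
        Real.log_le_log (abs_pos.2 (by exact_mod_cast hc)) (by linarith)
      have h6 : 3 * C1 * (Real.log |(a : ℝ)| + Real.log |(c : ℝ)|) ≤ 3 * C1 * (2 * Λ) :=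
        mul_le_mul_of_nonneg_left (by linarith) (by linarith)
      linarith

end Pool.Agent.SL3L1
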