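import Mathlib
import Pool.Agent.SL3L1.BlkLen

set_option autoImplicit false

namespace Pool.Agent.SL3L1

open Matrix

/-- the cyclic permutation matrix -/
def cycP : GZ := ⟨!![0, 0, 1; 1, 0, 0; 0, 1, 0], by simp [Matrix.det_fin_three]⟩

theorem blk12_conj (a b c d : ℤ) (h : a * d - b * c = 1) :
    blk12 a b c d h = cycP * blk01 a b c d h * cycP⁻¹ := by
  rw [eq_mul_inv_iff_mul_eq]
  apply Subtype.ext
  show (!![1, 0, 0; 0, a, b; 0, c, d] : Matrix (Fin 3) (Fin 3) ℤ) * !![0, 0, 1; 1, 0, 0; 0, 1, 0] =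
    !![0, 0, 1; 1, 0, 0; 0, 1, 0] * !![a, b, 0; c, d, 0; 0, 0, 1]
  ext i j
  fin_cases i <;> fin_cases j <;> simp [Matrix.mul_apply, Fin.sum_univ_three]

theorem blk02_conj (a b c d : ℤ) (h : a * d - b * c = 1) :
    blk02 a b c d h = (cycP * cycP) * blk01 d c b a (by linarith) * (cycP * cycP)⁻¹ := by
  rw [eq_mul_inv_iff_mul_eq]
  apply Subtype.ext
  show (!![a, 0, b; 0, 1, 0; c, 0, d] : Matrix (Fin 3) (Fin 3) ℤ) *
      (!![0, 0, 1; 1, 0, 0; 0, 1, 0] * !![0, 0, 1; 1, 0, 0; 0, 1, 0]) =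
    (!![0, 0, 1; 1, 0, 0; 0, 1, 0] * !![0, 0, 1; 1, 0, 0; 0, 1, 0]) * !![d, c, 0; b, a, 0; 0, 0, 1]
  ext i j
  fin_cases i <;> fin_cases j <;> simp [Matrix.mul_apply, Fin.sum_univ_three]

theorem len_conj (W : GZ → ℝ) (hW : IsLen W) (Q g : GZ) : W (Q * g * Q⁻¹) ≤ W g + 2 * W Q := by
  have h1 := hW.mul (Q * g) Q⁻¹
  have h2 := hW.mul Q g
  have h3 := hW.inv Q
  linarith

/-- TARGET 1 -/
theorem len_blk02 (W : GZ → ℝ) (hW : IsLen W) : ∃ C : ℝ, 0 < C ∧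
    ∀ (a b c d : ℤ) (h : a * d - b * c = 1),
      W (blk02 a b c d h) ≤
        C * (1 + Real.log (1 + |(a : ℝ)| + |(b : ℝ)| + |(c : ℝ)| + |(d : ℝ)|)) := by
  obtain ⟨C, hC, hb⟩ := len_blk01 W hW
  have hn := hW.nonneg (cycP * cycP)
  refine ⟨C + 2 * W (cycP * cycP), by linarith, ?_⟩
  intro a b c d h
  rw [blk02_conj]
  refine (len_conj W hW _ _).trans ?_
  have h1 := hb d c b a (by linarith)
  have e : 1 + |(d : ℝ)| + |(c : ℝ)| + |(b : ℝ)| + |(a : ℝ)| =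
      1 + |(a : ℝ)| + |(b : ℝ)| + |(c : ℝ)| + |(d : ℝ)| := by ring
  rw [e] at h1
  have h2 : 0 ≤ Real.log (1 + |(a : ℝ)| + |(b : ℝ)| + |(c : ℝ)| + |(d : ℝ)|) := by
    apply Real.log_nonneg
    have := abs_nonneg (a : ℝ); have := abs_nonneg (b : ℝ)
    have := abs_nonneg (c : ℝ); have := abs_nonneg (d : ℝ)
    linarith
  nlinarith

/-- TARGET 2 -/
theorem len_blk12 (W : GZ → ℝ) (hW : IsLen W) : ∃ C : ℝ, 0 < C ∧
    ∀ (a b c d : ℤ) (h : a * d - b * c = 1),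
      W (blk12 a b c d h) ≤
        C * (1 + Real.log (1 + |(a : ℝ)| + |(b : ℝ)| + |(c : ℝ)| + |(d : ℝ)|)) := by
  obtain ⟨C, hC, hb⟩ := len_blk01 W hW
  have hn := hW.nonneg cycP
  refine ⟨C + 2 * W cycP, by linarith, ?_⟩
  intro a b c d h
  rw [blk12_conj]
  refine (len_conj W hW _ _).trans ?_
  have h1 := hb a b c d h
  have h2 : 0 ≤ Real.log (1 + |(a : ℝ)| + |(b : ℝ)| + |(c : ℝ)| + |(d : ℝ)|) := by
    apply Real.log_nonneg
    have := abs_nonneg (a : ℝ); have := abs_nonneg (b : ℝ)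
    have := abs_nonneg (c : ℝ); have := abs_nonneg (d : ℝ)
    linarith
  nlinarith

/-- TARGET 3: bounded Bezout matrices -/
theorem bez (x y : ℤ) : ∃ a b c d : ℤ, a * d - b * c = 1 ∧ a * x + b * y = Int.gcd x y ∧
    c * x + d * y = 0 ∧ |a| ≤ 1 + |x| + |y| ∧ |b| ≤ 1 + |x| + |y| ∧ |c| ≤ 1 + |x| + |y| ∧
    |d| ≤ 1 + |x| + |y| := by
  by_cases h0 : x = 0 ∧ y = 0
  · obtain ⟨rfl, rfl⟩ := h0
    exact ⟨1, 0, 0, 1, by simp⟩
  · have hg : Int.gcd x y ≠ 0 := by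
      intro h
      exact h0 (Int.gcd_eq_zero_iff.1 h)
    set g : ℤ := (Int.gcd x y : ℤ) with hgdef
    have hgpos : 0 < g := by
      have : 0 < Int.gcd x y := Nat.pos_of_ne_zero hg
      rw [hgdef]; exact_mod_cast this
    obtain ⟨x', hx'⟩ : g ∣ x := Int.gcd_dvd_left x y
    obtain ⟨y', hy'⟩ : g ∣ y := Int.gcd_dvd_right x y
    have hbz : g = x * Int.gcdA x y + y * Int.gcdB x y := Int.gcd_eq_gcd_ab x y
    set u := Int.gcdA x y
    set v := Int.gcdB x y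
    have huv : u * x' + v * y' = 1 := by
      have h1 : g * (u * x' + v * y') = g * 1 := by
        rw [mul_one]
        calc g * (u * x' + v * y') = (g * x') * u + (g * y') * v := by ring
          _ = x * u + y * v := by rw [← hx', ← hy']
          _ = g := hbz.symm
      exact mul_left_cancel₀ hgpos.ne' h1
    have hxx : |x'| ≤ |x| := by
      rw [hx', abs_mul, abs_of_pos hgpos]
      exact le_mul_of_one_le_left (abs_nonneg _) hgpos
    have hyy : |y'| ≤ |y| := by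
      rw [hy', abs_mul, abs_of_pos hgpos]
      exact le_mul_of_one_le_left (abs_nonneg _) hgpos
    have hx0 := abs_nonneg x
    have hy0 := abs_nonneg y
    by_cases hy : y' = 0
    · rw [hy, mul_zero, add_zero] at huv
      have hx1 : x' * x' = 1 := by
        rcases Int.eq_one_or_neg_one_of_mul_eq_one' huv with ⟨_, h2⟩ | ⟨_, h2⟩ <;> rw [h2] <;> norm_num
      have hx2 : |x'| = 1 := by
        rcases Int.eq_one_or_neg_one_of_mul_eq_one' huv with ⟨_, h2⟩ | ⟨_, h2⟩ <;> rw [h2] <;> norm_num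
      refine ⟨x', 0, 0, x', by linarith, ?_, ?_, ?_, ?_, ?_, ?_⟩
      · calc x' * x + 0 * y = x' * (g * x') := by rw [← hx']; ring
          _ = g * (x' * x') := by ring
          _ = g := by rw [hx1, mul_one]
      · rw [hy', hy]; ring
      · rw [hx2]; linarith
      · rw [abs_zero]; linarith
      · rw [abs_zero]; linarith
      · rw [hx2]; linarith
    · have hu0 : 0 ≤ u % y' := Int.emod_nonneg u hy
      have hu1 : u % y' < |y'| := Int.emod_lt_abs u hy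
      have hu2 : u % y' + y' * (u / y') = u := Int.emod_add_mul_ediv u y'
      set u' := u % y'
      set q := u / y'
      have huv' : u' * x' + (v + q * x') * y' = 1 := by
        rw [← huv, ← hu2]; ring
      have hyp : 1 ≤ |y'| := Int.one_le_abs hy
      have hv : |v + q * x'| ≤ 1 + |x'| := by
        have h1 : |v + q * x'| * |y'| ≤ (1 + |x'|) * |y'| := by
          rw [← abs_mul]
          have h2 : (v + q * x') * y' = 1 - u' * x' := by linarith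
          rw [h2]
          have h3 : |1 - u' * x'| ≤ 1 + |u'| * |x'| := by
            have := abs_sub (1 : ℤ) (u' * x')
            rw [abs_mul, abs_one] at this
            exact this
          have h4 : |u'| ≤ |y'| := by rw [abs_of_nonneg hu0]; exact hu1.le
          have h5 : |u'| * |x'| ≤ |y'| * |x'| := mul_le_mul_of_nonneg_right h4 (abs_nonneg _)
          nlinarith [abs_nonneg x']
        exact le_of_mul_le_mul_right h1 (by linarith)
      refine ⟨u', v + q * x', -y', x', by linarith, ?_, ?_, ?_, ?_, ?_, ?_⟩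
      · calc u' * x + (v + q * x') * y = u' * (g * x') + (v + q * x') * (g * y') := by
              rw [← hx', ← hy']
          _ = g * (u' * x' + (v + q * x') * y') := by ring
          _ = g := by rw [huv', mul_one]
      · calc -y' * x + x' * y = -y' * (g * x') + x' * (g * y') := by rw [← hx', ← hy']
          _ = 0 := by ring
      · rw [abs_of_nonneg hu0]; linarith
      · linarith
      · rw [abs_neg]; linarith
      · linarith

theorem blk01_mul (a b c d : ℤ) (h : a * d - b * c = 1) (γ : GZ) (j : Fin 3) :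
    (blk01 a b c d h * γ).1 0 j = a * γ.1 0 j + b * γ.1 1 j ∧
    (blk01 a b c d h * γ).1 1 j = c * γ.1 0 j + d * γ.1 1 j ∧
    (blk01 a b c d h * γ).1 2 j = γ.1 2 j := by
  have e : (blk01 a b c d h * γ).1 =
    (!![a, b, 0; c, d, 0; 0, 0, 1] : Matrix (Fin 3) (Fin 3) ℤ) * γ.1 := rfl
  rw [e]
  refine ⟨?_, ?_, ?_⟩ <;> simp [Matrix.mul_apply, Fin.sum_univ_three]

theorem blk02_mul (a b c d : ℤ) (h : a * d - b * c = 1) (γ : GZ) (j : Fin 3) :
    (blk02 a b c d h * γ).1 0 j = a * γ.1 0 j + b * γ.1 2 j ∧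
    (blk02 a b c d h * γ).1 1 j = γ.1 1 j ∧
    (blk02 a b c d h * γ).1 2 j = c * γ.1 0 j + d * γ.1 2 j := by
  have e : (blk02 a b c d h * γ).1 =
    (!![a, 0, b; 0, 1, 0; c, 0, d] : Matrix (Fin 3) (Fin 3) ℤ) * γ.1 := rfl
  rw [e]
  refine ⟨?_, ?_, ?_⟩ <;> simp [Matrix.mul_apply, Fin.sum_univ_three]

theorem el01_mat (p : ℤ) : (el 0 1 (by decide) p).1 =
    (!![1, p, 0; 0, 1, 0; 0, 0, 1] : Matrix (Fin 3) (Fin 3) ℤ) := by
  show Matrix.transvection (0 : Fin 3) 1 p = _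
  ext i j
  fin_cases i <;> fin_cases j <;> simp [Matrix.transvection, Matrix.single]

theorem el02_mat (p : ℤ) : (el 0 2 (by decide) p).1 =
    (!![1, 0, p; 0, 1, 0; 0, 0, 1] : Matrix (Fin 3) (Fin 3) ℤ) := by
  show Matrix.transvection (0 : Fin 3) 2 p = _
  ext i j
  fin_cases i <;> fin_cases j <;> simp [Matrix.transvection, Matrix.single]

theorem decomp (δ : GZ) (h0 : δ.1 0 0 = 1) (h1 : δ.1 1 0 = 0) (h2 : δ.1 2 0 = 0)
    (hd : δ.1 1 1 * δ.1 2 2 - δ.1 1 2 * δ.1 2 1 = 1) :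
    δ = blk12 (δ.1 1 1) (δ.1 1 2) (δ.1 2 1) (δ.1 2 2) hd *
      (el 0 1 (by decide) (δ.1 0 1) * el 0 2 (by decide) (δ.1 0 2)) := by
  apply Subtype.ext
  have e : (blk12 (δ.1 1 1) (δ.1 1 2) (δ.1 2 1) (δ.1 2 2) hd *
      (el 0 1 (by decide) (δ.1 0 1) * el 0 2 (by decide) (δ.1 0 2))).1 =
      (!![1, 0, 0; 0, δ.1 1 1, δ.1 1 2; 0, δ.1 2 1, δ.1 2 2] : Matrix (Fin 3) (Fin 3) ℤ) *
        ((el 0 1 (by decide) (δ.1 0 1)).1 * (el 0 2 (by decide) (δ.1 0 2)).1) := rfl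
  rw [e, el01_mat, el02_mat]
  ext i j
  fin_cases i <;> fin_cases j <;> simp [Matrix.mul_apply, Fin.sum_univ_three, h0, h1, h2]

theorem nrm_exp (γ : GZ) : nrm (castQ γ) =
    (|((γ.1 0 0 : ℤ) : ℝ)| + |((γ.1 0 1 : ℤ) : ℝ)| + |((γ.1 0 2 : ℤ) : ℝ)|) +
    (|((γ.1 1 0 : ℤ) : ℝ)| + |((γ.1 1 1 : ℤ) : ℝ)| + |((γ.1 1 2 : ℤ) : ℝ)|) +
    (|((γ.1 2 0 : ℤ) : ℝ)| + |((γ.1 2 1 : ℤ) : ℝ)| + |((γ.1 2 2 : ℤ) : ℝ)|) := by
  rw [nrm_castQ]
  simp only [Fin.sum_univ_three]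

theorem nrm_blk01 (a b c d : ℤ) (h : a * d - b * c = 1) : nrm (castQ (blk01 a b c d h)) =
    1 + |(a : ℝ)| + |(b : ℝ)| + |(c : ℝ)| + |(d : ℝ)| := by
  rw [nrm_exp]
  simp [blk01]
  ring

theorem nrm_blk02 (a b c d : ℤ) (h : a * d - b * c = 1) : nrm (castQ (blk02 a b c d h)) =
    1 + |(a : ℝ)| + |(b : ℝ)| + |(c : ℝ)| + |(d : ℝ)| := by
  rw [nrm_exp]
  simp [blk02]
  ring

/-- TARGET 4: logarithmic upper bound of the length on all of `SL₃(ℤ)` -/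
theorem len_all (W : GZ → ℝ) (hW : IsLen W) : ∃ C : ℝ, 0 < C ∧ ∀ γ : GZ,
    W γ ≤ C * (1 + Real.log (nrm (castQ γ))) := by
  obtain ⟨C1, hC1, hb1⟩ := len_blk01 W hW
  obtain ⟨C2, hC2, hb2⟩ := len_blk02 W hW
  obtain ⟨C3, hC3, hb3⟩ := len_blk12 W hW
  obtain ⟨C4, hC4, hb4⟩ := len_el W hW
  refine ⟨(C1 + C2 + C3 + 2 * C4) * 222, by positivity, ?_⟩
  intro γ
  set M : ℝ := nrm (castQ γ) with hM
  have hM1 : 1 ≤ M := nrm_one_le _
  have hMe := nrm_exp γ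
  rw [← hM] at hMe
  have hlogM : 0 ≤ Real.log M := Real.log_nonneg hM1
  have hlog : ∀ T : ℝ, 1 ≤ T → T ≤ 222 * M ^ 3 → 1 + Real.log T ≤ 222 * (1 + Real.log M) := by
    intro T hT1 hT2
    have h1 : Real.log T ≤ Real.log (222 * M ^ 3) := Real.log_le_log (by linarith) hT2
    rw [Real.log_mul (by norm_num) (by positivity), Real.log_pow] at h1
    have h2 : Real.log 222 ≤ 222 - 1 := Real.log_le_sub_one_of_pos (by norm_num)
    push_cast at h1
    linarith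
  have n00 := abs_nonneg ((γ.1 0 0 : ℤ) : ℝ)
  have n01 := abs_nonneg ((γ.1 0 1 : ℤ) : ℝ)
  have n02 := abs_nonneg ((γ.1 0 2 : ℤ) : ℝ)
  have n10 := abs_nonneg ((γ.1 1 0 : ℤ) : ℝ)
  have n11 := abs_nonneg ((γ.1 1 1 : ℤ) : ℝ)
  have n12 := abs_nonneg ((γ.1 1 2 : ℤ) : ℝ)
  have n20 := abs_nonneg ((γ.1 2 0 : ℤ) : ℝ)
  have n21 := abs_nonneg ((γ.1 2 1 : ℤ) : ℝ)
  have n22 := abs_nonneg ((γ.1 2 2 : ℤ) : ℝ)
  -- first Bezout
  obtain ⟨a, b, c, d, hdet, hab, hcd, ba, bb, bc, bd⟩ := bez (γ.1 0 0) (γ.1 1 0)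
  set g : ℕ := Int.gcd (γ.1 0 0) (γ.1 1 0) with hg
  obtain ⟨a', b', c', d', hdet', hab', hcd', ba', bb', bc', bd'⟩ := bez (g : ℤ) (γ.1 2 0)
  set g' : ℕ := Int.gcd (g : ℤ) (γ.1 2 0) with hg'
  set B := blk01 a b c d hdet with hB
  set B' := blk02 a' b' c' d' hdet' with hB'
  set δ := B' * (B * γ) with hδ
  have e0 := blk01_mul a b c d hdet γ 0
  rw [← hB, hab, hcd] at e0
  have e1 := blk02_mul a' b' c' d' hdet' (B * γ) 0
  rw [← hB', e0.1, e0.2.1, e0.2.2, hab', hcd', ← hδ] at e1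
  obtain ⟨d00, d10, d20⟩ := e1
  have hdδ : δ.1.det = 1 := δ.2
  rw [Matrix.det_fin_three, d10, d20, d00] at hdδ
  have hprod : (g' : ℤ) * (δ.1 1 1 * δ.1 2 2 - δ.1 1 2 * δ.1 2 1) = 1 := by linarith
  have hg1 : (g' : ℤ) = 1 := by
    rcases Int.eq_one_or_neg_one_of_mul_eq_one hprod with h | h
    · exact h
    · have : (0 : ℤ) ≤ g' := Int.natCast_nonneg _
      linarith
  rw [hg1, one_mul] at hprod
  rw [hg1] at d00
  have hdec := decomp δ d00 d10 d20 hprod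
  -- real bounds
  have hgle : (g : ℝ) ≤ |((γ.1 0 0 : ℤ) : ℝ)| + |((γ.1 1 0 : ℤ) : ℝ)| := by
    have h1 : (g : ℤ) ≤ |γ.1 0 0| + |γ.1 1 0| := by
      by_cases hx : γ.1 0 0 = 0
      · rw [hg, hx, Int.gcd_zero_left, abs_zero, zero_add, Int.natCast_natAbs]
      · have h2 : (g : ℤ) ∣ γ.1 0 0 := Int.gcd_dvd_left _ _
        have h3 := Int.le_of_dvd (abs_pos.2 hx) ((dvd_abs _ _).2 h2)
        have := abs_nonneg (γ.1 1 0)
        linarith
    have h2 : ((g : ℤ) : ℝ) ≤ ((|γ.1 0 0| + |γ.1 1 0| : ℤ) : ℝ) := by exact_mod_cast h1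
    push_cast at h2
    exact h2
  have rb : ∀ (t x y : ℤ), |t| ≤ 1 + |x| + |y| → |(t : ℝ)| ≤ 1 + |(x : ℝ)| + |(y : ℝ)| := by
    intro t x y h
    have : ((|t| : ℤ) : ℝ) ≤ ((1 + |x| + |y| : ℤ) : ℝ) := by exact_mod_cast h
    push_cast at this
    exact this
  have ra := rb _ _ _ ba
  have rbb := rb _ _ _ bb
  have rc := rb _ _ _ bc
  have rd := rb _ _ _ bd
  have ra' := rb _ _ _ ba'
  have rb' := rb _ _ _ bb'
  have rc' := rb _ _ _ bc'
  have rd' := rb _ _ _ bd'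
  have hgabs : |(((g : ℕ) : ℤ) : ℝ)| = (g : ℝ) := by
    rw [Int.cast_natCast, abs_of_nonneg (Nat.cast_nonneg g)]
  rw [hgabs] at ra' rb' rc' rd'
  have hnB : nrm (castQ B) ≤ 13 * M := by
    rw [hB, nrm_blk01]; linarith
  have hnB' : nrm (castQ B') ≤ 17 * M := by
    rw [hB', nrm_blk02]; linarith
  have hB1 := nrm_one_le (castQ B)
  have hB1' := nrm_one_le (castQ B')
  have hnδ : nrm (castQ δ) ≤ 221 * M ^ 3 := by
    rw [hδ, map_mul, map_mul]
    have h1 := nrm_mul (castQ B') (castQ B * castQ γ)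
    have h2 := nrm_mul (castQ B) (castQ γ)
    calc nrm (castQ B' * (castQ B * castQ γ)) ≤ nrm (castQ B') * nrm (castQ B * castQ γ) := h1
      _ ≤ nrm (castQ B') * (nrm (castQ B) * nrm (castQ γ)) :=
          mul_le_mul_of_nonneg_left h2 (by linarith)
      _ ≤ (17 * M) * ((13 * M) * M) := by
          rw [← hM]
          apply mul_le_mul hnB' _ (by positivity) (by positivity)
          exact mul_le_mul_of_nonneg_right hnB (by linarith)
      _ = 221 * M ^ 3 := by ring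
  have hδe := nrm_exp δ
  have m00 := abs_nonneg ((δ.1 0 0 : ℤ) : ℝ)
  have m01 := abs_nonneg ((δ.1 0 1 : ℤ) : ℝ)
  have m02 := abs_nonneg ((δ.1 0 2 : ℤ) : ℝ)
  have m10 := abs_nonneg ((δ.1 1 0 : ℤ) : ℝ)
  have m11 := abs_nonneg ((δ.1 1 1 : ℤ) : ℝ)
  have m12 := abs_nonneg ((δ.1 1 2 : ℤ) : ℝ)
  have m20 := abs_nonneg ((δ.1 2 0 : ℤ) : ℝ)
  have m21 := abs_nonneg ((δ.1 2 1 : ℤ) : ℝ)
  have m22 := abs_nonneg ((δ.1 2 2 : ℤ) : ℝ)
  have hM3 : 1 ≤ M ^ 3 := one_le_pow₀ hM1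
  have hMM3 : M ≤ M ^ 3 := by
    have : M * 1 ≤ M * M ^ 2 := mul_le_mul_of_nonneg_left (one_le_pow₀ hM1) (by linarith)
    calc M = M * 1 := (mul_one M).symm
      _ ≤ M * M ^ 2 := this
      _ = M ^ 3 := by ring
  -- lengths
  have w1 : W B ≤ C1 * (222 * (1 + Real.log M)) := by
    refine (hb1 a b c d hdet).trans (mul_le_mul_of_nonneg_left ?_ hC1.le)
    apply hlog
    · have := abs_nonneg (a : ℝ); have := abs_nonneg (b : ℝ)
      have := abs_nonneg (c : ℝ); have := abs_nonneg (d : ℝ)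
      linarith
    · rw [← nrm_blk01 a b c d hdet]
      linarith
  have w2 : W B' ≤ C2 * (222 * (1 + Real.log M)) := by
    refine (hb2 a' b' c' d' hdet').trans (mul_le_mul_of_nonneg_left ?_ hC2.le)
    apply hlog
    · have := abs_nonneg (a' : ℝ); have := abs_nonneg (b' : ℝ)
      have := abs_nonneg (c' : ℝ); have := abs_nonneg (d' : ℝ)
      linarith
    · rw [← nrm_blk02 a' b' c' d' hdet']
      linarith
  have w3 : W (blk12 (δ.1 1 1) (δ.1 1 2) (δ.1 2 1) (δ.1 2 2) hprod) ≤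
      C3 * (222 * (1 + Real.log M)) := by
    refine (hb3 _ _ _ _ hprod).trans (mul_le_mul_of_nonneg_left ?_ hC3.le)
    apply hlog
    · linarith
    · linarith
  have w4 : W (el 0 1 (by decide) (δ.1 0 1)) ≤ C4 * (222 * (1 + Real.log M)) := by
    refine (hb4 _ _ _ _).trans (mul_le_mul_of_nonneg_left ?_ hC4.le)
    apply hlog
    · linarith
    · linarith
  have w5 : W (el 0 2 (by decide) (δ.1 0 2)) ≤ C4 * (222 * (1 + Real.log M)) := by
    refine (hb4 _ _ _ _).trans (mul_le_mul_of_nonneg_left ?_ hC4.le)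
    apply hlog
    · linarith
    · linarith
  have hγ : γ = B⁻¹ * (B'⁻¹ * δ) := by rw [hδ]; group
  have k1 := hW.mul B⁻¹ (B'⁻¹ * δ)
  have k2 := hW.mul B'⁻¹ δ
  have k3 := hW.inv B
  have k4 := hW.inv B'
  have k5 : W δ ≤ W (blk12 (δ.1 1 1) (δ.1 1 2) (δ.1 2 1) (δ.1 2 2) hprod) +
      (W (el 0 1 (by decide) (δ.1 0 1)) + W (el 0 2 (by decide) (δ.1 0 2))) := by
    have k6 := hW.mul (blk12 (δ.1 1 1) (δ.1 1 2) (δ.1 2 1) (δ.1 2 2) hprod)
      (el 0 1 (by decide) (δ.1 0 1) * el 0 2 (by decide) (δ.1 0 2))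
    have k7 := hW.mul (el 0 1 (by decide) (δ.1 0 1)) (el 0 2 (by decide) (δ.1 0 2))
    rw [← hdec] at k6
    linarith
  rw [← hγ] at k1
  calc W γ ≤ C1 * (222 * (1 + Real.log M)) + C2 * (222 * (1 + Real.log M)) +
        (C3 * (222 * (1 + Real.log M)) + (C4 * (222 * (1 + Real.log M)) +
          C4 * (222 * (1 + Real.log M)))) := by linarith
    _ = (C1 + C2 + C3 + 2 * C4) * 222 * (1 + Real.log M) := by ring

end Pool.Agent.SL3L1
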