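import Mathlib
import Pool.Agent.SL3L1.Defs2

set_option autoImplicit false

namespace Pool.Agent.SL3L1

open Matrix

theorem exists_BL : ∃ BL : (ℕ → ℝ) → ℝ,
    (∀ u v : ℕ → ℝ, (∃ B, ∀ n, |u n| ≤ B) → (∃ B, ∀ n, |v n| ≤ B) →
      BL (fun n => u n + v n) = BL u + BL v) ∧
    (∀ (c : ℝ) (u : ℕ → ℝ), (∃ B, ∀ n, |u n| ≤ B) → BL (fun n => c * u n) = c * BL u) ∧
    (∀ u v : ℕ → ℝ, (∃ B, ∀ n, |u n| ≤ B) → (∃ B, ∀ n, |v n| ≤ B) → (∀ n, u n ≤ v n) →
      BL u ≤ BL v) ∧
    (∀ c : ℝ, BL (fun _ => c) = c) ∧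
    (∀ u : ℕ → ℝ, (∃ B, ∀ n, |u n| ≤ B) → BL (fun n => u (n + 1)) = BL u) ∧
    (∀ (u : ℕ → ℝ) (x : ℝ), (∃ B, ∀ n, |u n| ≤ B) →
      (∀ e > 0, ∀ᶠ T : ℕ in Filter.atTop,
        (∑ k ∈ Finset.range T, u k) ≤ (x + e) * (T : ℝ)) → BL u ≤ x) := by
  classical
  let U : Ultrafilter ℕ := Filter.hyperfilter ℕ
  have hU : (U : Filter ℕ) ≤ Filter.atTop := Nat.hyperfilter_le_atTop
  let C : (ℕ → ℝ) → ℕ → ℝ := fun u n => (∑ k ∈ Finset.range (n + 1), u k) / ((n : ℝ) + 1)
  let BL : (ℕ → ℝ) → ℝ := fun u => Filter.limUnder (U : Filter ℕ) (C u)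
  have hpos : ∀ n : ℕ, (0 : ℝ) < (n : ℝ) + 1 := fun n => by positivity
  have hC : ∀ (u : ℕ → ℝ) (B : ℝ), (∀ n, |u n| ≤ B) → ∀ n, |C u n| ≤ B := by
    intro u B hB n
    show |(∑ k ∈ Finset.range (n + 1), u k) / ((n : ℝ) + 1)| ≤ B
    rw [abs_div, abs_of_pos (hpos n), div_le_iff₀ (hpos n)]
    calc |∑ k ∈ Finset.range (n + 1), u k| ≤ ∑ k ∈ Finset.range (n + 1), |u k| :=
          Finset.abs_sum_le_sum_abs _ _
      _ ≤ ∑ k ∈ Finset.range (n + 1), B := Finset.sum_le_sum (fun k _ => hB k)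
      _ = B * ((n : ℝ) + 1) := by simp [mul_comm]
  have hlim : ∀ u : ℕ → ℝ, (∃ B, ∀ n, |u n| ≤ B) →
      Filter.Tendsto (C u) (U : Filter ℕ) (nhds (BL u)) := by
    rintro u ⟨B, hB⟩
    refine tendsto_nhds_limUnder ?_
    have hK : IsCompact (Set.Icc (-B) B) := isCompact_Icc
    have h1 : ((U.map (C u) : Ultrafilter ℝ) : Filter ℝ) ≤ Filter.principal (Set.Icc (-B) B) := by
      rw [Filter.le_principal_iff]
      show C u ⁻¹' Set.Icc (-B) B ∈ (U : Filter ℕ)
      have : C u ⁻¹' Set.Icc (-B) B = Set.univ := by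
        ext n
        simp only [Set.mem_preimage, Set.mem_Icc, Set.mem_univ, iff_true]
        exact abs_le.1 (hC u B hB n)
      rw [this]
      exact Filter.univ_mem
    obtain ⟨a, _, ha⟩ := hK.ultrafilter_le_nhds (U.map (C u)) h1
    exact ⟨a, ha⟩
  have hne : (U : Filter ℕ).NeBot := U.neBot
  refine ⟨BL, ?_, ?_, ?_, ?_, ?_, ?_⟩
  · rintro u v ⟨B, hB⟩ ⟨B', hB'⟩
    have h1 := hlim (fun n => u n + v n) ⟨B + B', fun n => (abs_add_le _ _).trans
      (add_le_add (hB n) (hB' n))⟩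
    have h2 := (hlim u ⟨B, hB⟩).add (hlim v ⟨B', hB'⟩)
    have h3 : C (fun n => u n + v n) = fun n => C u n + C v n := by
      funext n
      show (∑ k ∈ Finset.range (n + 1), (u k + v k)) / ((n : ℝ) + 1) = _
      rw [Finset.sum_add_distrib, add_div]
    rw [h3] at h1
    exact tendsto_nhds_unique h1 h2
  · rintro c u ⟨B, hB⟩
    have h1 := hlim (fun n => c * u n) ⟨|c| * B, fun n => by
      rw [abs_mul]; exact mul_le_mul_of_nonneg_left (hB n) (abs_nonneg c)⟩
    have h2 := (hlim u ⟨B, hB⟩).const_mul c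
    have h3 : C (fun n => c * u n) = fun n => c * C u n := by
      funext n
      show (∑ k ∈ Finset.range (n + 1), (c * u k)) / ((n : ℝ) + 1) = _
      rw [← Finset.mul_sum, mul_div_assoc]
    rw [h3] at h1
    exact tendsto_nhds_unique h1 h2
  · rintro u v hu hv huv
    refine le_of_tendsto_of_tendsto' (hlim u hu) (hlim v hv) (fun n => ?_)
    exact div_le_div_of_nonneg_right (Finset.sum_le_sum (fun k _ => huv k)) (hpos n).le
  · intro c
    have h1 := hlim (fun _ => c) ⟨|c|, fun _ => le_rfl⟩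
    have h3 : C (fun _ => c) = fun _ => c := by
      funext n
      show (∑ k ∈ Finset.range (n + 1), c) / ((n : ℝ) + 1) = c
      rw [Finset.sum_const, Finset.card_range, nsmul_eq_mul]
      have := (hpos n).ne'
      push_cast
      field_simp
    rw [h3] at h1
    exact tendsto_nhds_unique h1 tendsto_const_nhds
  · rintro u ⟨B, hB⟩
    have h1 := hlim (fun n => u (n + 1)) ⟨B, fun n => hB (n + 1)⟩
    have h2 := hlim u ⟨B, hB⟩
    have h3 : Filter.Tendsto (fun n : ℕ => (u (n + 1) - u 0) / ((n : ℝ) + 1))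
        (U : Filter ℕ) (nhds 0) := by
      refine Filter.Tendsto.mono_left ?_ hU
      have hb : ∀ n, |(u (n + 1) - u 0) / ((n : ℝ) + 1)| ≤ (2 * B) * (1 / ((n : ℝ) + 1)) := by
        intro n
        rw [abs_div, abs_of_pos (hpos n), mul_one_div]
        refine div_le_div_of_nonneg_right ?_ (hpos n).le
        have := abs_sub (u (n + 1)) (u 0)
        have h4 := hB (n + 1)
        have h5 := hB 0
        linarith
      refine squeeze_zero_norm (fun n => ?_) (f := fun n : ℕ =>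
        (u (n + 1) - u 0) / ((n : ℝ) + 1)) (a := fun n : ℕ => (2 * B) * (1 / ((n : ℝ) + 1))) ?_
      · rw [Real.norm_eq_abs]; exact hb n
      · have := tendsto_one_div_add_atTop_nhds_zero_nat (𝕜 := ℝ)
        simpa using this.const_mul (2 * B)
    have h4 : C (fun n => u (n + 1)) = fun n => C u n + (u (n + 1) - u 0) / ((n : ℝ) + 1) := by
      funext n
      show (∑ k ∈ Finset.range (n + 1), u (k + 1)) / ((n : ℝ) + 1) =
        (∑ k ∈ Finset.range (n + 1), u k) / ((n : ℝ) + 1) + (u (n + 1) - u 0) / ((n : ℝ) + 1)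
      have h5 : ∑ k ∈ Finset.range (n + 1), u (k + 1) =
          ∑ k ∈ Finset.range (n + 1), u k + (u (n + 1) - u 0) := by
        have h6 := Finset.sum_range_succ' u (n + 1)
        have h7 := Finset.sum_range_succ u (n + 1)
        linarith
      rw [h5, add_div]
    rw [h4] at h1
    have h5 := h2.add h3
    rw [add_zero] at h5
    exact tendsto_nhds_unique h1 h5
  · rintro u x hu hx
    refine le_of_forall_pos_le_add (fun e he => ?_)
    refine le_of_tendsto (hlim u hu) (hU ?_)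
    have h1 := hx e he
    have h2 := (Filter.tendsto_add_atTop_nat 1).eventually h1
    filter_upwards [h2] with n hn
    show (∑ k ∈ Finset.range (n + 1), u k) / ((n : ℝ) + 1) ≤ x + e
    rw [div_le_iff₀ (hpos n)]
    push_cast at hn
    exact hn

theorem exists_IsBL : ∃ BL : (ℕ → ℝ) → ℝ, IsBL BL := by
  obtain ⟨BL, h1, h2, h3, h4, h5, h6⟩ := exists_BL
  exact ⟨BL, ⟨h1, h2, h3, h4, h5, h6⟩⟩

end Pool.Agent.SL3L1
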