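import Mathlib
import Pool.Agent.SL3L1.Defs2

set_option autoImplicit false

namespace Pool.Agent.SL3L1

open Matrix

/-- TARGET 1 -/
theorem bl_abs (BL : (ℕ → ℝ) → ℝ) (h : IsBL BL) (u : ℕ → ℝ) (B : ℝ) (hu : ∀ n, |u n| ≤ B) :
    |BL u| ≤ B := by
  have hb : Bd u := ⟨B, hu⟩
  have hc : ∀ c : ℝ, Bd (fun _ : ℕ => c) := fun c => ⟨|c|, fun _ => le_rfl⟩
  rw [abs_le]
  constructor
  · have h1 := h.mono (fun _ => -B) u (hc _) hb (fun n => (abs_le.1 (hu n)).1)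
    rwa [h.const] at h1
  · have h1 := h.mono u (fun _ => B) hb (hc _) (fun n => (abs_le.1 (hu n)).2)
    rwa [h.const] at h1

theorem bl_shiftN (BL : (ℕ → ℝ) → ℝ) (h : IsBL BL) (u : ℕ → ℝ) (hu : Bd u) (k : ℕ) :
    BL (fun n => u (n + k)) = BL u := by
  induction k with
  | zero => rfl
  | succ k ih =>
    rw [← ih]
    obtain ⟨B, hB⟩ := hu
    have h1 := h.shift (fun n => u (n + k)) ⟨B, fun n => hB _⟩
    rw [← h1]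
    congr 1
    funext n
    congr 1
    ring

theorem Bd.shiftN {u : ℕ → ℝ} (hu : Bd u) (k : ℕ) : Bd (fun n => u (n + k)) := by
  obtain ⟨B, hB⟩ := hu
  exact ⟨B, fun n => hB _⟩

/-- TARGET 2 -/
theorem bl_congr (BL : (ℕ → ℝ) → ℝ) (h : IsBL BL) (u v : ℕ → ℝ) (hu : Bd u) (hv : Bd v)
    (n0 : ℕ) (huv : ∀ n ≥ n0, u n = v n) : BL u = BL v := by
  rw [← bl_shiftN BL h u hu n0, ← bl_shiftN BL h v hv n0]
  congr 1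
  funext n
  exact huv _ (Nat.le_add_left _ _)

/-- TARGET 3 -/
theorem bl_mono_ev (BL : (ℕ → ℝ) → ℝ) (h : IsBL BL) (u v : ℕ → ℝ) (hu : Bd u) (hv : Bd v)
    (n0 : ℕ) (huv : ∀ n ≥ n0, u n ≤ v n) : BL u ≤ BL v := by
  rw [← bl_shiftN BL h u hu n0, ← bl_shiftN BL h v hv n0]
  exact h.mono _ _ (hu.shiftN n0) (hv.shiftN n0) (fun n => huv _ (Nat.le_add_left _ _))

/-- TARGET 4 -/
theorem bl_shiftZ (BL : (ℕ → ℝ) → ℝ) (h : IsBL BL) (u : ℤ → ℝ) (B : ℝ) (hu : ∀ n, |u n| ≤ B)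
    (c : ℤ) : BL (fun n : ℕ => u ((n : ℤ) + c)) = BL (fun n : ℕ => u (n : ℤ)) := by
  rcases Int.eq_nat_or_neg c with ⟨k, rfl | rfl⟩
  · have h1 := bl_shiftN BL h (fun n : ℕ => u (n : ℤ)) ⟨B, fun n => hu _⟩ k
    rw [← h1]
    congr 1
  · have h1 := bl_shiftN BL h (fun n : ℕ => u ((n : ℤ) + -(k : ℤ))) ⟨B, fun n => hu _⟩ k
    rw [← h1]
    congr 1
    funext n
    congr 1
    push_cast
    ring

/-- abbreviation: `φ` is bounded on the samples with parameters `L i j` -/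
def SB (φ : GQ → ℝ) (L : ℕ) (i j : ℤ) : Prop :=
  ∃ B : ℝ, ∀ k1 k2 k3 : ℤ, |φ (smp L k1 k2 k3 i j)| ≤ B

theorem in1_abs (BL : (ℕ → ℝ) → ℝ) (h : IsBL BL) (φ : GQ → ℝ) (L : ℕ) (i j : ℤ) (B : ℝ)
    (hB : ∀ k1 k2 k3 : ℤ, |φ (smp L k1 k2 k3 i j)| ≤ B) (a b : ℤ) :
    |BL (fun k1 : ℕ => φ (smp L (k1 : ℤ) a b i j))| ≤ B :=
  bl_abs BL h _ B (fun n => hB _ _ _)

theorem in2_abs (BL : (ℕ → ℝ) → ℝ) (h : IsBL BL) (φ : GQ → ℝ) (L : ℕ) (i j : ℤ) (B : ℝ)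
    (hB : ∀ k1 k2 k3 : ℤ, |φ (smp L k1 k2 k3 i j)| ≤ B) (b : ℤ) :
    |BL (fun k2 : ℕ => BL (fun k1 : ℕ => φ (smp L (k1 : ℤ) (k2 : ℤ) b i j)))| ≤ B :=
  bl_abs BL h _ B (fun n => in1_abs BL h φ L i j B hB _ _)

/-- TARGET 5 -/
theorem BL3_add (BL : (ℕ → ℝ) → ℝ) (h : IsBL BL) (φ ψ : GQ → ℝ) (L : ℕ) (i j : ℤ)
    (hφ : SB φ L i j) (hψ : SB ψ L i j) :
    BL3 BL (fun X => φ X + ψ X) L i j = BL3 BL φ L i j + BL3 BL ψ L i j := by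
  obtain ⟨B, hB⟩ := hφ
  obtain ⟨C, hC⟩ := hψ
  unfold BL3
  rw [← h.add _ _ ⟨B, fun n => in2_abs BL h φ L i j B hB _⟩ ⟨C, fun n => in2_abs BL h ψ L i j C hC _⟩]
  congr 1
  funext k3
  rw [← h.add _ _ ⟨B, fun n => in1_abs BL h φ L i j B hB _ _⟩
    ⟨C, fun n => in1_abs BL h ψ L i j C hC _ _⟩]
  congr 1
  funext k2
  rw [← h.add _ _ ⟨B, fun n => hB _ _ _⟩ ⟨C, fun n => hC _ _ _⟩]

/-- TARGET 6 -/
theorem BL3_smul (BL : (ℕ → ℝ) → ℝ) (h : IsBL BL) (c : ℝ) (φ : GQ → ℝ) (L : ℕ) (i j : ℤ)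
    (hφ : SB φ L i j) :
    BL3 BL (fun X => c * φ X) L i j = c * BL3 BL φ L i j := by
  obtain ⟨B, hB⟩ := hφ
  unfold BL3
  rw [← h.smul _ _ ⟨B, fun n => in2_abs BL h φ L i j B hB _⟩]
  congr 1
  funext k3
  rw [← h.smul _ _ ⟨B, fun n => in1_abs BL h φ L i j B hB _ _⟩]
  congr 1
  funext k2
  rw [← h.smul _ _ ⟨B, fun n => hB _ _ _⟩]

/-- TARGET 7 -/
theorem BL3_mono (BL : (ℕ → ℝ) → ℝ) (h : IsBL BL) (φ ψ : GQ → ℝ) (L : ℕ) (i j : ℤ)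
    (hφ : SB φ L i j) (hψ : SB ψ L i j)
    (hle : ∀ k1 k2 k3 : ℤ, φ (smp L k1 k2 k3 i j) ≤ ψ (smp L k1 k2 k3 i j)) :
    BL3 BL φ L i j ≤ BL3 BL ψ L i j := by
  obtain ⟨B, hB⟩ := hφ
  obtain ⟨C, hC⟩ := hψ
  unfold BL3
  refine h.mono _ _ ⟨B, fun n => in2_abs BL h φ L i j B hB _⟩
    ⟨C, fun n => in2_abs BL h ψ L i j C hC _⟩ fun k3 => ?_
  refine h.mono _ _ ⟨B, fun n => in1_abs BL h φ L i j B hB _ _⟩
    ⟨C, fun n => in1_abs BL h ψ L i j C hC _ _⟩ fun k2 => ?_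
  exact h.mono _ _ ⟨B, fun n => hB _ _ _⟩ ⟨C, fun n => hC _ _ _⟩ fun k1 => hle _ _ _

/-- TARGET 8 -/
theorem BL3_const (BL : (ℕ → ℝ) → ℝ) (h : IsBL BL) (c : ℝ) (L : ℕ) (i j : ℤ) :
    BL3 BL (fun _ => c) L i j = c := by
  unfold BL3
  simp only [h.const]

/-- TARGET 9 -/
theorem BL3_abs (BL : (ℕ → ℝ) → ℝ) (h : IsBL BL) (φ : GQ → ℝ) (L : ℕ) (i j : ℤ)
    (hφ : SB φ L i j) :
    |BL3 BL φ L i j| ≤ BL3 BL (fun X => |φ X|) L i j := by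
  have hφ' := hφ
  obtain ⟨B, hB⟩ := hφ'
  have habs : SB (fun X => |φ X|) L i j := ⟨B, fun k1 k2 k3 => by
    simp only [abs_abs]; exact hB _ _ _⟩
  have hneg : SB (fun X => (-1) * |φ X|) L i j := ⟨B, fun k1 k2 k3 => by
    simp only [abs_mul, abs_neg, abs_one, one_mul, abs_abs]; exact hB _ _ _⟩
  rw [abs_le]
  constructor
  · have h1 := BL3_mono BL h (fun X => (-1) * |φ X|) φ L i j hneg hφ
      (fun k1 k2 k3 => by simp only [neg_mul, one_mul]; exact neg_abs_le _)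
    rw [BL3_smul BL h (-1) (fun X => |φ X|) L i j habs] at h1
    linarith
  · exact BL3_mono BL h φ (fun X => |φ X|) L i j hφ habs (fun k1 k2 k3 => le_abs_self _)

/-- TARGET 10 -/
theorem BL3_shift (BL : (ℕ → ℝ) → ℝ) (h : IsBL BL) (φ : GQ → ℝ) (L : ℕ) (i j : ℤ)
    (hφ : SB φ L i j) (m1 m2 m3 : ℤ) :
    (BL fun k3 : ℕ => BL fun k2 : ℕ => BL fun k1 : ℕ =>
      φ (smp L ((k1 : ℤ) + m1 - m2 * (k3 : ℤ) - m2 * m3) ((k2 : ℤ) + m2) ((k3 : ℤ) + m3) i j)) =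
      BL3 BL φ L i j := by
  obtain ⟨B, hB⟩ := hφ
  have e1 : ∀ k3 k2 : ℕ, (BL fun k1 : ℕ =>
      φ (smp L ((k1 : ℤ) + m1 - m2 * (k3 : ℤ) - m2 * m3) ((k2 : ℤ) + m2) ((k3 : ℤ) + m3) i j)) =
      BL fun k1 : ℕ => φ (smp L (k1 : ℤ) ((k2 : ℤ) + m2) ((k3 : ℤ) + m3) i j) := by
    intro k3 k2
    have h1 := bl_shiftZ BL h (fun a : ℤ => φ (smp L a ((k2 : ℤ) + m2) ((k3 : ℤ) + m3) i j)) B
      (fun n => hB _ _ _) (m1 - m2 * (k3 : ℤ) - m2 * m3)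
    rw [← h1]
    congr 1
    funext k1
    congr 2
    ring
  have e2 : ∀ k3 : ℕ, (BL fun k2 : ℕ => BL fun k1 : ℕ =>
      φ (smp L (k1 : ℤ) ((k2 : ℤ) + m2) ((k3 : ℤ) + m3) i j)) =
      BL fun k2 : ℕ => BL fun k1 : ℕ => φ (smp L (k1 : ℤ) (k2 : ℤ) ((k3 : ℤ) + m3) i j) := by
    intro k3
    exact bl_shiftZ BL h (fun a : ℤ => BL fun k1 : ℕ => φ (smp L (k1 : ℤ) a ((k3 : ℤ) + m3) i j)) B
      (fun n => in1_abs BL h φ L i j B hB _ _) m2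
  have e3 := bl_shiftZ BL h (fun b : ℤ => BL fun k2 : ℕ => BL fun k1 : ℕ =>
    φ (smp L (k1 : ℤ) (k2 : ℤ) b i j)) B (fun n => in2_abs BL h φ L i j B hB _) m3
  unfold BL3
  rw [← e3]
  congr 1
  funext k3
  rw [← e2]
  congr 1
  funext k2
  exact e1 k3 k2

end Pool.Agent.SL3L1
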