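import Mathlib
import Pool.Agent.SL3L1.IterBL

set_option autoImplicit false

namespace Pool.Agent.SL3L1

open Matrix

lemma sb_abs_8855 {φ : GQ → ℝ} {L : ℕ} {i j : ℤ} (h : SB φ L i j) :
    SB (fun X => |φ X|) L i j := by
  obtain ⟨B, hB⟩ := h
  exact ⟨B, fun k1 k2 k3 => by rw [abs_abs]; exact hB k1 k2 k3⟩

lemma bd_neg_8855 {u : ℕ → ℝ} (hu : Bd u) : Bd (fun n => (-1) * u n) := by
  obtain ⟨B, hB⟩ := hu
  exact ⟨B, fun n => by
    show |(-1) * u n| ≤ B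
    rw [neg_one_mul, abs_neg]; exact hB n⟩

lemma bl_abs_le_8855 (BL : (ℕ → ℝ) → ℝ) (h : IsBL BL) (u v : ℕ → ℝ) (hu : Bd u) (hv : Bd v)
    (huv : ∀ n, |u n| ≤ v n) : |BL u| ≤ BL v := by
  rw [abs_le]
  refine ⟨?_, h.mono u v hu hv fun n => (le_abs_self _).trans (huv n)⟩
  have h1 : BL (fun n => (-1) * v n) ≤ BL u := by
    refine h.mono _ u (bd_neg_8855 hv) hu fun n => ?_
    have := neg_abs_le (u n)
    have := huv n
    linarith
  rw [h.smul (-1) v hv] at h1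
  linarith

lemma BL3_nonneg_8855 (BL : (ℕ → ℝ) → ℝ) (h : IsBL BL) (φ : GQ → ℝ) (L : ℕ) (i j : ℤ)
    (hφ : SB φ L i j) : 0 ≤ BL3 BL (fun X => |φ X|) L i j := by
  exact (abs_nonneg _).trans (BL3_abs BL h φ L i j hφ)

lemma cls_bdabs_8855 (BL : (ℕ → ℝ) → ℝ) (h : IsBL BL) (φ : GQ → ℝ) (hφ : φ ∈ Cls BL) (i j : ℤ) :
    Bd fun L => BL3 BL (fun X => |φ X|) L i j := by
  obtain ⟨h1, h2, h3⟩ := hφ
  obtain ⟨B, hB⟩ := h2 i j
  refine ⟨B, fun L => ?_⟩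
  rw [abs_of_nonneg (BL3_nonneg_8855 BL h φ L i j (h1 L i j))]
  exact hB L

lemma cls_bd_8855 (BL : (ℕ → ℝ) → ℝ) (h : IsBL BL) (φ : GQ → ℝ) (hφ : φ ∈ Cls BL) (i j : ℤ) :
    Bd fun L => BL3 BL φ L i j := by
  obtain ⟨h1, h2, h3⟩ := hφ
  obtain ⟨B, hB⟩ := h2 i j
  exact ⟨B, fun L => (BL3_abs BL h φ L i j (h1 L i j)).trans (hB L)⟩

lemma cls_level_8855 (BL : (ℕ → ℝ) → ℝ) (h : IsBL BL) (φ : GQ → ℝ) (hφ : φ ∈ Cls BL)
    (i0 j0 : ℤ) : ∃ B : ℝ, ∀ i j : ℤ, i0 ≤ i → j0 ≤ j →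
      |BL (fun L => BL3 BL φ L i j)| ≤ B := by
  obtain ⟨B, hB⟩ := hφ.2.2 i0 j0
  refine ⟨B, fun i j hi hj => ?_⟩
  refine le_trans ?_ (hB i j hi hj)
  exact bl_abs_le_8855 BL h _ _ (cls_bd_8855 BL h φ hφ i j) (cls_bdabs_8855 BL h φ hφ i j)
    (fun L => BL3_abs BL h φ L i j (hφ.1 L i j))

/-- all level functions of a class member are bounded -/
theorem cls_bounds (BL : (ℕ → ℝ) → ℝ) (h : IsBL BL) (φ : GQ → ℝ) (hφ : φ ∈ Cls BL) :
    (∀ L i j, SB φ L i j) ∧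
    (∀ i j : ℤ, Bd fun L => BL3 BL φ L i j) ∧
    (∀ i : ℤ, ∀ c : ℤ, Bd fun j : ℕ => BL fun L => BL3 BL φ L i ((j : ℤ) + c)) ∧
    (∀ c c' : ℤ, Bd fun i : ℕ => BL fun j : ℕ => BL fun L => BL3 BL φ L ((i : ℤ) + c) ((j : ℤ) + c')) := by
  refine ⟨hφ.1, cls_bd_8855 BL h φ hφ, ?_, ?_⟩
  · intro i c
    obtain ⟨B, hB⟩ := cls_level_8855 BL h φ hφ i c
    exact ⟨B, fun j => hB i ((j : ℤ) + c) le_rfl (by omega)⟩
  · intro c c'
    obtain ⟨B, hB⟩ := cls_level_8855 BL h φ hφ c c'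
    refine ⟨B, fun i => bl_abs BL h _ B fun j => ?_⟩
    exact hB _ _ (by omega) (by omega)

lemma sb_add_8855 {φ ψ : GQ → ℝ} {L : ℕ} {i j : ℤ} (h : SB φ L i j) (h' : SB ψ L i j) :
    SB (fun X => φ X + ψ X) L i j := by
  obtain ⟨B, hB⟩ := h
  obtain ⟨B', hB'⟩ := h'
  exact ⟨B + B', fun k1 k2 k3 => (abs_add_le _ _).trans (add_le_add (hB k1 k2 k3) (hB' k1 k2 k3))⟩

lemma sb_smul_8855 (c : ℝ) {φ : GQ → ℝ} {L : ℕ} {i j : ℤ} (h : SB φ L i j) :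
    SB (fun X => c * φ X) L i j := by
  obtain ⟨B, hB⟩ := h
  exact ⟨|c| * B, fun k1 k2 k3 => by
    rw [abs_mul]; exact mul_le_mul_of_nonneg_left (hB k1 k2 k3) (abs_nonneg c)⟩

lemma bd_add_8855 {u v : ℕ → ℝ} (hu : Bd u) (hv : Bd v) : Bd (fun n => u n + v n) := by
  obtain ⟨B, hB⟩ := hu
  obtain ⟨B', hB'⟩ := hv
  exact ⟨B + B', fun n => (abs_add_le _ _).trans (add_le_add (hB n) (hB' n))⟩

lemma bd_smul_8855 (c : ℝ) {u : ℕ → ℝ} (hu : Bd u) : Bd (fun n => c * u n) := by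
  obtain ⟨B, hB⟩ := hu
  exact ⟨|c| * B, fun n => by
    rw [abs_mul]; exact mul_le_mul_of_nonneg_left (hB n) (abs_nonneg c)⟩

/-- general domination criterion for membership -/
lemma cls_of_8855 (BL : (ℕ → ℝ) → ℝ) (h : IsBL BL) (φ : GQ → ℝ)
    (w : ℕ → ℤ → ℤ → ℝ)
    (h1 : ∀ L i j, SB φ L i j)
    (h2 : ∀ L i j, BL3 BL (fun X => |φ X|) L i j ≤ w L i j)
    (h3 : ∀ i j : ℤ, ∃ B : ℝ, ∀ L : ℕ, w L i j ≤ B)
    (h4 : ∀ i0 j0 : ℤ, ∃ B : ℝ, ∀ i j : ℤ, i0 ≤ i → j0 ≤ j → BL (fun L => w L i j) ≤ B) :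
    φ ∈ Cls BL := by
  refine ⟨h1, fun i j => ?_, fun i0 j0 => ?_⟩
  · obtain ⟨B, hB⟩ := h3 i j
    exact ⟨B, fun L => (h2 L i j).trans (hB L)⟩
  · obtain ⟨B, hB⟩ := h4 i0 j0
    refine ⟨B, fun i j hi hj => le_trans ?_ (hB i j hi hj)⟩
    obtain ⟨C, hC⟩ := h3 i j
    refine h.mono _ _ ?_ ?_ fun L => h2 L i j
    · refine ⟨C, fun L => ?_⟩
      rw [abs_of_nonneg (BL3_nonneg_8855 BL h φ L i j (h1 L i j))]
      exact (h2 L i j).trans (hC L)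
    · refine ⟨C, fun L => ?_⟩
      rw [abs_of_nonneg ((BL3_nonneg_8855 BL h φ L i j (h1 L i j)).trans (h2 L i j))]
      exact hC L

theorem cls_add (BL : (ℕ → ℝ) → ℝ) (h : IsBL BL) (φ ψ : GQ → ℝ) (hφ : φ ∈ Cls BL) (hψ : ψ ∈ Cls BL) :
    (fun X => φ X + ψ X) ∈ Cls BL ∧ Mn BL (fun X => φ X + ψ X) = Mn BL φ + Mn BL ψ := by
  constructor
  · refine cls_of_8855 BL h _ (fun L i j => BL3 BL (fun X => |φ X|) L i j +
      BL3 BL (fun X => |ψ X|) L i j) (fun L i j => sb_add_8855 (hφ.1 L i j) (hψ.1 L i j)) ?_ ?_ ?_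
    · intro L i j
      have e := BL3_add BL h (fun X => |φ X|) (fun X => |ψ X|) L i j
        (sb_abs_8855 (hφ.1 L i j)) (sb_abs_8855 (hψ.1 L i j))
      show BL3 BL (fun X => |φ X + ψ X|) L i j ≤ BL3 BL (fun X => |φ X|) L i j +
        BL3 BL (fun X => |ψ X|) L i j
      rw [← e]
      refine BL3_mono BL h _ _ L i j (sb_abs_8855 (sb_add_8855 (hφ.1 L i j) (hψ.1 L i j)))
        (sb_add_8855 (sb_abs_8855 (hφ.1 L i j)) (sb_abs_8855 (hψ.1 L i j))) ?_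
      intro k1 k2 k3
      exact abs_add_le _ _
    · intro i j
      obtain ⟨B, hB⟩ := hφ.2.1 i j
      obtain ⟨B', hB'⟩ := hψ.2.1 i j
      exact ⟨B + B', fun L => add_le_add (hB L) (hB' L)⟩
    · intro i0 j0
      obtain ⟨B, hB⟩ := hφ.2.2 i0 j0
      obtain ⟨B', hB'⟩ := hψ.2.2 i0 j0
      refine ⟨B + B', fun i j hi hj => ?_⟩
      have e := h.add (fun L => BL3 BL (fun X => |φ X|) L i j)
        (fun L => BL3 BL (fun X => |ψ X|) L i j) (cls_bdabs_8855 BL h φ hφ i j)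
        (cls_bdabs_8855 BL h ψ hψ i j)
      refine le_trans (le_of_eq e) ?_
      exact add_le_add (hB i j hi hj) (hB' i j hi hj)
  · unfold Mn
    obtain ⟨p1, p2, p3, p4⟩ := cls_bounds BL h φ hφ
    obtain ⟨q1, q2, q3, q4⟩ := cls_bounds BL h ψ hψ
    have e1 : ∀ i j : ℤ, BL (fun L => BL3 BL (fun X => φ X + ψ X) L i j) =
        BL (fun L => BL3 BL φ L i j) + BL (fun L => BL3 BL ψ L i j) := by
      intro i j
      rw [← h.add _ _ (p2 i j) (q2 i j)]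
      congr 1
      funext L
      exact BL3_add BL h φ ψ L i j (p1 L i j) (q1 L i j)
    have e2 : ∀ i : ℤ, BL (fun j : ℕ => BL (fun L => BL3 BL (fun X => φ X + ψ X) L i (j : ℤ))) =
        BL (fun j : ℕ => BL (fun L => BL3 BL φ L i (j : ℤ))) +
        BL (fun j : ℕ => BL (fun L => BL3 BL ψ L i (j : ℤ))) := by
      intro i
      have a1 := p3 i 0
      have a2 := q3 i 0
      simp only [add_zero] at a1 a2
      rw [← h.add _ _ a1 a2]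
      congr 1
      funext j
      exact e1 i j
    have a1 := p4 0 0
    have a2 := q4 0 0
    simp only [add_zero] at a1 a2
    rw [← h.add _ _ a1 a2]
    congr 1
    funext i
    exact e2 i

theorem cls_smul (BL : (ℕ → ℝ) → ℝ) (h : IsBL BL) (c : ℝ) (φ : GQ → ℝ) (hφ : φ ∈ Cls BL) :
    (fun X => c * φ X) ∈ Cls BL ∧ Mn BL (fun X => c * φ X) = c * Mn BL φ := by
  constructor
  · refine cls_of_8855 BL h _ (fun L i j => |c| * BL3 BL (fun X => |φ X|) L i j)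
      (fun L i j => sb_smul_8855 c (hφ.1 L i j)) ?_ ?_ ?_
    · intro L i j
      have e := BL3_smul BL h |c| (fun X => |φ X|) L i j (sb_abs_8855 (hφ.1 L i j))
      show BL3 BL (fun X => |c * φ X|) L i j ≤ |c| * BL3 BL (fun X => |φ X|) L i j
      rw [← e]
      simp only [abs_mul]
      exact le_rfl
    · intro i j
      obtain ⟨B, hB⟩ := hφ.2.1 i j
      exact ⟨|c| * B, fun L => mul_le_mul_of_nonneg_left (hB L) (abs_nonneg c)⟩
    · intro i0 j0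
      obtain ⟨B, hB⟩ := hφ.2.2 i0 j0
      refine ⟨|c| * B, fun i j hi hj => ?_⟩
      have e := h.smul |c| (fun L => BL3 BL (fun X => |φ X|) L i j) (cls_bdabs_8855 BL h φ hφ i j)
      refine le_trans (le_of_eq e) ?_
      exact mul_le_mul_of_nonneg_left (hB i j hi hj) (abs_nonneg c)
  · unfold Mn
    obtain ⟨p1, p2, p3, p4⟩ := cls_bounds BL h φ hφ
    have e1 : ∀ i j : ℤ, BL (fun L => BL3 BL (fun X => c * φ X) L i j) =
        c * BL (fun L => BL3 BL φ L i j) := by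
      intro i j
      rw [← h.smul c _ (p2 i j)]
      congr 1
      funext L
      exact BL3_smul BL h c φ L i j (p1 L i j)
    have e2 : ∀ i : ℤ, BL (fun j : ℕ => BL (fun L => BL3 BL (fun X => c * φ X) L i (j : ℤ))) =
        c * BL (fun j : ℕ => BL (fun L => BL3 BL φ L i (j : ℤ))) := by
      intro i
      have a1 := p3 i 0
      simp only [add_zero] at a1
      rw [← h.smul c _ a1]
      congr 1
      funext j
      exact e1 i j
    have a1 := p4 0 0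
    simp only [add_zero] at a1
    rw [← h.smul c _ a1]
    congr 1
    funext i
    exact e2 i

theorem cls_dom (BL : (ℕ → ℝ) → ℝ) (h : IsBL BL) (φ ψ : GQ → ℝ) (hψ : ψ ∈ Cls BL)
    (hle : ∀ X, |φ X| ≤ ψ X) : φ ∈ Cls BL := by
  have hle' : ∀ X, |φ X| ≤ |ψ X| := fun X => (hle X).trans (le_abs_self _)
  have hsb : ∀ L i j, SB φ L i j := by
    intro L i j
    obtain ⟨B, hB⟩ := hψ.1 L i j
    exact ⟨B, fun k1 k2 k3 => (hle' _).trans (hB k1 k2 k3)⟩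
  refine cls_of_8855 BL h _ (fun L i j => BL3 BL (fun X => |ψ X|) L i j) hsb ?_ hψ.2.1 hψ.2.2
  intro L i j
  exact BL3_mono BL h _ _ L i j (sb_abs_8855 (hsb L i j)) (sb_abs_8855 (hψ.1 L i j))
    (fun k1 k2 k3 => hle' _)

theorem cls_mono (BL : (ℕ → ℝ) → ℝ) (h : IsBL BL) (φ ψ : GQ → ℝ) (hφ : φ ∈ Cls BL) (hψ : ψ ∈ Cls BL)
    (hle : ∀ X, φ X ≤ ψ X) : Mn BL φ ≤ Mn BL ψ := by
  unfold Mn
  obtain ⟨p1, p2, p3, p4⟩ := cls_bounds BL h φ hφ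
  obtain ⟨q1, q2, q3, q4⟩ := cls_bounds BL h ψ hψ
  have e1 : ∀ i j : ℤ, BL (fun L => BL3 BL φ L i j) ≤ BL (fun L => BL3 BL ψ L i j) := by
    intro i j
    exact h.mono _ _ (p2 i j) (q2 i j) fun L =>
      BL3_mono BL h φ ψ L i j (p1 L i j) (q1 L i j) fun k1 k2 k3 => hle _
  have e2 : ∀ i : ℤ, BL (fun j : ℕ => BL (fun L => BL3 BL φ L i (j : ℤ))) ≤
      BL (fun j : ℕ => BL (fun L => BL3 BL ψ L i (j : ℤ))) := by
    intro i
    have a1 := p3 i 0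
    have a2 := q3 i 0
    simp only [add_zero] at a1 a2
    exact h.mono _ _ a1 a2 fun j => e1 i j
  have a1 := p4 0 0
  have a2 := q4 0 0
  simp only [add_zero] at a1 a2
  exact h.mono _ _ a1 a2 fun i => e2 i

theorem cls_const (BL : (ℕ → ℝ) → ℝ) (h : IsBL BL) (c : ℝ) :
    (fun _ => c) ∈ Cls BL ∧ Mn BL (fun _ => c) = c := by
  constructor
  · refine ⟨fun L i j => ⟨|c|, fun _ _ _ => le_rfl⟩, fun i j => ⟨|c|, fun L => ?_⟩,
      fun i0 j0 => ⟨|c|, fun i j _ _ => ?_⟩⟩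
    · exact le_of_eq (BL3_const BL h |c| L i j)
    · have e : (fun L : ℕ => BL3 BL (fun _ => |c|) L i j) = fun _ => |c| := by
        funext L
        exact BL3_const BL h |c| L i j
      rw [e, h.const]
  · unfold Mn
    simp only [BL3_const BL h, h.const]

end Pool.Agent.SL3L1
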