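import Mathlib
import Pool.Agent.SL3L1.ClsMean
import Pool.Agent.SL3L1.AlgSmp

set_option autoImplicit false

namespace Pool.Agent.SL3L1

open Matrix

theorem cls_trans_bd {u v : ℕ → ℝ} (hv : Bd v) (n0 : ℕ) (huv : ∀ n ≥ n0, u n = v n) : Bd u := by
  obtain ⟨B, hB⟩ := hv
  refine ⟨|B| + ∑ k ∈ Finset.range n0, |u k|, fun n => ?_⟩
  have hs : 0 ≤ ∑ k ∈ Finset.range n0, |u k| := Finset.sum_nonneg fun _ _ => abs_nonneg _
  by_cases hn : n0 ≤ n
  · rw [huv n hn]
    have := hB n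
    have h2 := le_abs_self B
    linarith
  · have h1 : |u n| ≤ ∑ k ∈ Finset.range n0, |u k| :=
      Finset.single_le_sum (f := fun k => |u k|) (fun _ _ => abs_nonneg _)
        (Finset.mem_range.2 (by omega))
    have h2 := abs_nonneg B
    linarith

theorem cls_trans_shift (BL : (ℕ → ℝ) → ℝ) (h : IsBL BL) (u : ℤ → ℝ) (c : ℤ)
    (h0 : Bd fun n : ℕ => u (n : ℤ)) (hc : Bd fun n : ℕ => u ((n : ℤ) + c)) :
    BL (fun n : ℕ => u ((n : ℤ) + c)) = BL (fun n : ℕ => u (n : ℤ)) := by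
  obtain ⟨B0, hB0⟩ := h0
  obtain ⟨B1, hB1⟩ := hc
  have key := bl_shiftZ BL h (fun n => if min 0 c ≤ n then u n else 0) (|B0| + |B1|) (by
    intro n
    by_cases hn : min 0 c ≤ n
    · simp only [hn, if_true]
      by_cases hn0 : 0 ≤ n
      · have := hB0 n.toNat
        simp only at this
        rw [Int.toNat_of_nonneg hn0] at this
        have h2 := le_abs_self B0
        have h3 := abs_nonneg B1
        linarith
      · have hcn : c ≤ n := by omega
        have := hB1 (n - c).toNat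
        simp only at this
        rw [Int.toNat_of_nonneg (by omega), sub_add_cancel] at this
        have h2 := le_abs_self B1
        have h3 := abs_nonneg B0
        linarith
    · simp only [hn, if_false, abs_zero]
      positivity) c
  have e1 : (fun n : ℕ => if min 0 c ≤ (n : ℤ) + c then u ((n : ℤ) + c) else 0) =
      fun n : ℕ => u ((n : ℤ) + c) := by
    funext n
    rw [if_pos (by omega)]
  have e2 : (fun n : ℕ => if min 0 c ≤ (n : ℤ) then u (n : ℤ) else 0) =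
      fun n : ℕ => u (n : ℤ) := by
    funext n
    rw [if_pos (by omega)]
  rw [e1, e2] at key
  exact key

theorem cls_trans_abs (BL : (ℕ → ℝ) → ℝ) (φ : GQ → ℝ) (hφ : φ ∈ Cls BL) :
    (fun X => |φ X|) ∈ Cls BL := by
  obtain ⟨h1, h2, h3⟩ := hφ
  refine ⟨?_, ?_, ?_⟩
  · intro L i j
    obtain ⟨B, hB⟩ := h1 L i j
    exact ⟨B, fun k1 k2 k3 => by rw [abs_abs]; exact hB k1 k2 k3⟩
  · intro i j
    obtain ⟨B, hB⟩ := h2 i j
    exact ⟨B, fun L => by simp only [abs_abs]; exact hB L⟩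
  · intro i0 j0
    obtain ⟨B, hB⟩ := h3 i0 j0
    exact ⟨B, fun i j hi hj => by simp only [abs_abs]; exact hB i j hi hj⟩

theorem cls_trans (BL : (ℕ → ℝ) → ℝ) (h : IsBL BL) (φ : GQ → ℝ) (g : GQ) (hφ : φ ∈ Cls BL)
    (hg : g ∈ HH) :
    (fun X => φ (X * g)) ∈ Cls BL ∧ Mn BL (fun X => φ (X * g)) = Mn BL φ := by
  obtain ⟨P, Q, hPQ⟩ := smp_mul_ex g hg
  choose L0 hL0 using hPQ
  -- BL3 of translates
  have hB3 : ∀ θ : GQ → ℝ, (∀ L i j, SB θ L i j) → ∀ i j : ℤ, ∀ L ≥ L0 i j,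
      BL3 BL (fun X => θ (X * g)) L i j = BL3 BL θ L (i - P) (j - Q) := by
    intro θ hθ i j L hL
    obtain ⟨m1, m2, m3, hm⟩ := hL0 i j L hL
    rw [← BL3_shift BL h θ L (i - P) (j - Q) (hθ L (i - P) (j - Q)) m1 m2 m3]
    unfold BL3
    simp only [hm]
  have hφ' := cls_trans_abs BL φ hφ
  obtain ⟨c1, c2, c3, c4⟩ := cls_bounds BL h φ hφ
  obtain ⟨d1, d2, d3, d4⟩ := cls_bounds BL h _ hφ'
  have hcls : (fun X => φ (X * g)) ∈ Cls BL := by
    refine ⟨?_, ?_, ?_⟩
    · intro L i j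
      obtain ⟨m1, m2, m3, hm⟩ := hL0 i j (max L (L0 i j)) (le_max_right _ _)
      obtain ⟨B, hB⟩ := hφ.1 (max L (L0 i j)) (i - P) (j - Q)
      refine ⟨B, fun k1 k2 k3 => ?_⟩
      rw [smp_refine L (max L (L0 i j)) (le_max_left _ _)]
      simp only [hm]
      exact hB _ _ _
    · intro i j
      have hbd : Bd fun L => BL3 BL (fun X => |φ (X * g)|) L i j :=
        cls_trans_bd (d2 (i - P) (j - Q)) (L0 i j)
          (fun L hL => hB3 (fun X => |φ X|) d1 i j L hL)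
      obtain ⟨B, hB⟩ := hbd
      exact ⟨B, fun L => (le_abs_self _).trans (hB L)⟩
    · intro i0 j0
      obtain ⟨B, hB⟩ := hφ.2.2 (i0 - P) (j0 - Q)
      refine ⟨B, fun i j hi hj => ?_⟩
      have hbd : Bd fun L => BL3 BL (fun X => |φ (X * g)|) L i j :=
        cls_trans_bd (d2 (i - P) (j - Q)) (L0 i j)
          (fun L hL => hB3 (fun X => |φ X|) d1 i j L hL)
      rw [bl_congr BL h _ _ hbd (d2 (i - P) (j - Q)) (L0 i j)
        (fun L hL => hB3 (fun X => |φ X|) d1 i j L hL)]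
      exact hB (i - P) (j - Q) (by omega) (by omega)
  refine ⟨hcls, ?_⟩
  have hin : ∀ i j : ℤ, BL (fun L => BL3 BL (fun X => φ (X * g)) L i j) =
      BL (fun L => BL3 BL φ L (i - P) (j - Q)) := by
    intro i j
    have hbd : Bd fun L => BL3 BL (fun X => φ (X * g)) L i j :=
      cls_trans_bd (c2 (i - P) (j - Q)) (L0 i j) (fun L hL => hB3 φ c1 i j L hL)
    exact bl_congr BL h _ _ hbd (c2 (i - P) (j - Q)) (L0 i j) (fun L hL => hB3 φ c1 i j L hL)
  unfold Mn
  simp only [hin]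
  have hj : ∀ i : ℤ, BL (fun j : ℕ => BL (fun L => BL3 BL φ L (i - P) ((j : ℤ) - Q))) =
      BL (fun j : ℕ => BL (fun L => BL3 BL φ L (i - P) (j : ℤ))) := by
    intro i
    have := cls_trans_shift BL h (fun j : ℤ => BL (fun L => BL3 BL φ L (i - P) j)) (-Q)
      (by simpa using c3 (i - P) 0) (c3 (i - P) (-Q))
    simpa only [← sub_eq_add_neg] using this
  simp only [hj]
  have hi := cls_trans_shift BL h
    (fun i : ℤ => BL (fun j : ℕ => BL (fun L => BL3 BL φ L i (j : ℤ)))) (-P)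
    (by simpa using c4 0 0) (by simpa using c4 (-P) 0)
  simpa only [← sub_eq_add_neg] using hi

end Pool.Agent.SL3L1
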