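import Mathlib
import Pool.Agent.SL3L1.Defs

set_option autoImplicit false

namespace Pool.Agent.SL3L1

open Matrix

open MeasureTheory in
/-- layer function -/
noncomputable def lay (a b t : ℝ) : ℝ := Set.indicator (Set.Ico (min a b) (max a b)) (fun _ => (1 : ℝ)) t

open Classical in
theorem lay_eq (a b t : ℝ) : lay a b t = if ((t < a) ↔ (t < b)) then 0 else 1 := by
  unfold lay
  by_cases h1 : t < a
  · by_cases h2 : t < b
    · rw [if_pos (by tauto), Set.indicator_of_notMem]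
      rintro ⟨h3, -⟩
      exact absurd h3 (not_le.2 (lt_min h1 h2))
    · rw [if_neg (by tauto), Set.indicator_of_mem]
      exact ⟨(min_le_right _ _).trans (not_lt.1 h2), lt_max_of_lt_left h1⟩
  · by_cases h2 : t < b
    · rw [if_neg (by tauto), Set.indicator_of_mem]
      exact ⟨(min_le_left _ _).trans (not_lt.1 h1), lt_max_of_lt_right h2⟩
    · rw [if_pos (by tauto), Set.indicator_of_notMem]
      rintro ⟨-, h3⟩
      exact absurd h3 (not_lt.2 (max_le (not_lt.1 h1) (not_lt.1 h2)))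

open MeasureTheory in
theorem lay_int (a b : ℝ) : Integrable (lay a b) := by
  unfold lay
  exact (integrable_indicator_iff measurableSet_Ico).2 (by simp)

open MeasureTheory in
theorem lay_integral (a b : ℝ) : ∫ t, lay a b t = |a - b| := by
  unfold lay
  rw [integral_indicator measurableSet_Ico]
  simp only [integral_const, smul_eq_mul, mul_one, measureReal_restrict_apply_univ]
  rw [Measure.real, Real.volume_Ico, ENNReal.toReal_ofReal (by
    have := min_le_max (a := a) (b := b); linarith)]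
  rw [max_sub_min_eq_abs, abs_sub_comm]

open MeasureTheory in
theorem list_int {α : Type} (l : List α) (f : α → ℝ → ℝ) (hf : ∀ x ∈ l, Integrable (f x)) :
    Integrable (fun t => (l.map fun x => f x t).sum) ∧
    ∫ t, (l.map fun x => f x t).sum = (l.map fun x => ∫ t, f x t).sum := by
  induction l with
  | nil => simp
  | cons a l ih =>
    obtain ⟨h1, h2⟩ := ih fun x hx => hf x (List.mem_cons_of_mem _ hx)
    have ha := hf a List.mem_cons_self
    simp only [List.map_cons, List.sum_cons]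
    refine ⟨ha.add h1, ?_⟩
    rw [integral_add ha h1, h2]

open MeasureTheory in
theorem cut_real (V : Type) (s0 s4 : V) (E : List (V × V)) (T : List (V × V × V))
    (h : CutImp V s0 s4 E T) (φ : V → ℝ) :
    |φ s0 - φ s4| ≤ (E.map fun e => |φ e.1 - φ e.2|).sum +
      (1/2) * (T.map fun t => |φ t.1 - φ t.2.1| + |φ t.2.1 - φ t.2.2| - |φ t.1 - φ t.2.2|).sum := by
  classical
  have hpt : ∀ t : ℝ, lay (φ s0) (φ s4) t ≤ (E.map fun e => lay (φ e.1) (φ e.2) t).sum +
      (1/2) * (T.map fun u => lay (φ u.1) (φ u.2.1) t + lay (φ u.2.1) (φ u.2.2) t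
        - lay (φ u.1) (φ u.2.2) t).sum := by
    intro t
    have hE0 : ∀ y ∈ E.map (fun e => lay (φ e.1) (φ e.2) t), 0 ≤ y := by
      intro y hy
      obtain ⟨e, -, rfl⟩ := List.mem_map.1 hy
      rw [lay_eq]
      split_ifs <;> norm_num
    have hT0 : ∀ y ∈ T.map (fun u => lay (φ u.1) (φ u.2.1) t + lay (φ u.2.1) (φ u.2.2) t
        - lay (φ u.1) (φ u.2.2) t), 0 ≤ y := by
      intro y hy
      obtain ⟨u, -, rfl⟩ := List.mem_map.1 hy
      simp only [lay_eq]
      by_cases h1 : t < φ u.1 <;> by_cases h2 : t < φ u.2.1 <;> by_cases h3 : t < φ u.2.2 <;>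
        simp [h1, h2, h3]
    have hEs := List.sum_nonneg hE0
    have hTs := List.sum_nonneg hT0
    rw [lay_eq]
    by_cases hc : (t < φ s0) ↔ (t < φ s4)
    · rw [if_pos hc]
      linarith
    · rw [if_neg hc]
      rcases h (fun v => t < φ v) hc with ⟨e, he, hne⟩ | ⟨u, hu, hu1, hu2⟩
      · have h1 : lay (φ e.1) (φ e.2) t = 1 := by rw [lay_eq, if_neg hne]
        have h2 := List.single_le_sum hE0 _ (List.mem_map.2 ⟨e, he, rfl⟩)
        rw [h1] at h2
        linarith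
      · have h1 : lay (φ u.1) (φ u.2.1) t + lay (φ u.2.1) (φ u.2.2) t
            - lay (φ u.1) (φ u.2.2) t = 2 := by
          simp only [lay_eq]
          rw [if_pos hu1, if_neg (fun h' => hu2 h'.symm), if_neg (fun h' => hu2 (h'.trans hu1.symm))]
          norm_num
        have h2 := List.single_le_sum hT0 _ (List.mem_map.2 ⟨u, hu, rfl⟩)
        rw [h1] at h2
        linarith
  obtain ⟨iE, eE⟩ := list_int E (fun e t => lay (φ e.1) (φ e.2) t) fun e _ => lay_int _ _
  obtain ⟨iT, eT⟩ := list_int T (fun u t => lay (φ u.1) (φ u.2.1) t + lay (φ u.2.1) (φ u.2.2) t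
        - lay (φ u.1) (φ u.2.2) t) fun u _ => ((lay_int _ _).add (lay_int _ _)).sub (lay_int _ _)
  have hmono := integral_mono (lay_int (φ s0) (φ s4)) (iE.add (iT.const_mul (1/2))) hpt
  rw [lay_integral] at hmono
  refine hmono.trans (le_of_eq ?_)
  show ∫ t, ((E.map fun e => lay (φ e.1) (φ e.2) t).sum +
      (1/2) * (T.map fun u => lay (φ u.1) (φ u.2.1) t + lay (φ u.2.1) (φ u.2.2) t
        - lay (φ u.1) (φ u.2.2) t).sum) = _
  rw [integral_add iE (iT.const_mul (1/2)), integral_const_mul, eE, eT]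
  congr 2
  · congr 1
    funext e
    exact lay_integral _ _
  · congr 1
    congr 1
    funext u
    have i1 := integral_sub ((lay_int (φ u.1) (φ u.2.1)).add (lay_int (φ u.2.1) (φ u.2.2)))
      (lay_int (φ u.1) (φ u.2.2))
    have i2 := integral_add (lay_int (φ u.1) (φ u.2.1)) (lay_int (φ u.2.1) (φ u.2.2))
    have i3 : ∫ t, (lay (φ u.1) (φ u.2.1) + lay (φ u.2.1) (φ u.2.2)) t
      = ∫ t, (lay (φ u.1) (φ u.2.1) t + lay (φ u.2.1) (φ u.2.2) t) := rfl
    rw [i3, i2, lay_integral, lay_integral, lay_integral] at i1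
    exact i1

theorem list_int2 {A Ω : Type} [MeasurableSpace Ω] (μ : MeasureTheory.Measure Ω) (g : A → Ω → ℝ)
    (hg : ∀ a, MeasureTheory.Integrable (g a) μ) (L : List A) :
    MeasureTheory.Integrable (fun ω => (L.map fun a => g a ω).sum) μ ∧
      ∫ ω, (L.map fun a => g a ω).sum ∂μ = (L.map fun a => ∫ ω, g a ω ∂μ).sum := by
  induction L with
  | nil => simp
  | cons a L ih =>
    refine ⟨?_, ?_⟩
    · simp only [List.map_cons, List.sum_cons]
      exact (hg a).add ih.1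
    · simp only [List.map_cons, List.sum_cons]
      rw [MeasureTheory.integral_add (hg a) ih.1, ih.2]

/-- TARGET -/
theorem cut_L1 (V : Type) (s0 s4 : V) (E : List (V × V)) (T : List (V × V × V))
    (h : CutImp V s0 s4 E T) {Ω : Type} [MeasurableSpace Ω] (μ : MeasureTheory.Measure Ω)
    (φ : V → MeasureTheory.Lp ℝ 1 μ) :
    ‖φ s0 - φ s4‖ ≤ (E.map fun e => ‖φ e.1 - φ e.2‖).sum +
      (1/2) * (T.map fun t => ‖φ t.1 - φ t.2.1‖ + ‖φ t.2.1 - φ t.2.2‖ - ‖φ t.1 - φ t.2.2‖).sum := by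
  have hN : ∀ x y : V, ‖φ x - φ y‖ = ∫ ω, |φ x ω - φ y ω| ∂μ := by
    intro x y
    rw [MeasureTheory.L1.norm_eq_integral_norm]
    refine MeasureTheory.integral_congr_ae ?_
    filter_upwards [MeasureTheory.Lp.coeFn_sub (φ x) (φ y)] with ω hω
    rw [hω, Pi.sub_apply, Real.norm_eq_abs]
  have hI : ∀ x y : V, MeasureTheory.Integrable (fun ω => |φ x ω - φ y ω|) μ := by
    intro x y
    exact ((MeasureTheory.L1.integrable_coeFn (φ x)).sub
      (MeasureTheory.L1.integrable_coeFn (φ y))).abs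
  have hE := list_int2 μ (fun (e : V × V) ω => |φ e.1 ω - φ e.2 ω|) (fun e => hI e.1 e.2) E
  have hTI : ∀ t : V × V × V, MeasureTheory.Integrable
      (fun ω => |φ t.1 ω - φ t.2.1 ω| + |φ t.2.1 ω - φ t.2.2 ω| - |φ t.1 ω - φ t.2.2 ω|) μ :=
    fun t => ((hI t.1 t.2.1).add (hI t.2.1 t.2.2)).sub (hI t.1 t.2.2)
  have hT := list_int2 μ (fun (t : V × V × V) ω =>
    |φ t.1 ω - φ t.2.1 ω| + |φ t.2.1 ω - φ t.2.2 ω| - |φ t.1 ω - φ t.2.2 ω|) hTI T
  have key : ∫ ω, |φ s0 ω - φ s4 ω| ∂μ ≤ ∫ ω, ((E.map fun e => |φ e.1 ω - φ e.2 ω|).sum +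
      (1/2) * (T.map fun t => |φ t.1 ω - φ t.2.1 ω| + |φ t.2.1 ω - φ t.2.2 ω| -
        |φ t.1 ω - φ t.2.2 ω|).sum) ∂μ := by
    refine MeasureTheory.integral_mono (hI s0 s4) (hE.1.add (hT.1.const_mul _)) ?_
    intro ω
    exact cut_real V s0 s4 E T h (fun v => φ v ω)
  rw [MeasureTheory.integral_add hE.1 (hT.1.const_mul _), MeasureTheory.integral_const_mul,
    hE.2, hT.2] at key
  have e1 : (E.map fun e => ‖φ e.1 - φ e.2‖) = E.map fun e => ∫ ω, |φ e.1 ω - φ e.2 ω| ∂μ := by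
    refine List.map_congr_left fun e _ => hN _ _
  have e2 : (T.map fun t => ‖φ t.1 - φ t.2.1‖ + ‖φ t.2.1 - φ t.2.2‖ - ‖φ t.1 - φ t.2.2‖) =
      T.map fun t => ∫ ω, (|φ t.1 ω - φ t.2.1 ω| + |φ t.2.1 ω - φ t.2.2 ω| -
        |φ t.1 ω - φ t.2.2 ω|) ∂μ := by
    refine List.map_congr_left fun t _ => ?_
    have a1 : ∫ ω, (|φ t.1 ω - φ t.2.1 ω| + |φ t.2.1 ω - φ t.2.2 ω| -
        |φ t.1 ω - φ t.2.2 ω|) ∂μ = ∫ ω, (|φ t.1 ω - φ t.2.1 ω| + |φ t.2.1 ω - φ t.2.2 ω|) ∂μ -
        ∫ ω, |φ t.1 ω - φ t.2.2 ω| ∂μ :=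
      MeasureTheory.integral_sub ((hI t.1 t.2.1).add (hI t.2.1 t.2.2)) (hI t.1 t.2.2)
    rw [hN, hN, hN, a1, MeasureTheory.integral_add (hI t.1 t.2.1) (hI t.2.1 t.2.2)]
  rw [hN, e1, e2]
  exact key

end Pool.Agent.SL3L1
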