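import Mathlib
import Pool.Agent.SL3L1.Defs2

set_option autoImplicit false

namespace Pool.Agent.SL3L1

open Matrix

theorem j8859_Ioo (a b : ℝ) (hab : a ≤ b) : {n : ℤ | a < n ∧ (n : ℝ) < b}.Finite ∧
    (Set.ncard {n : ℤ | a < n ∧ (n : ℝ) < b} : ℝ) ≤ b - a + 1 := by
  have hset : {n : ℤ | a < n ∧ (n : ℝ) < b} = ↑(Finset.Icc (⌊a⌋ + 1) (⌈b⌉ - 1)) := by
    ext n
    simp only [Set.mem_setOf_eq, Finset.coe_Icc, Set.mem_Icc]
    rw [Int.add_one_le_iff, Int.floor_lt, Int.le_sub_one_iff, Int.lt_ceil]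
  rw [hset]
  refine ⟨Finset.finite_toSet _, ?_⟩
  rw [Set.ncard_coe_finset, Int.card_Icc]
  have h1 := Int.ceil_lt_add_one b
  have h2 := Int.lt_floor_add_one a
  rcases le_or_gt 0 (⌈b⌉ - 1 + 1 - (⌊a⌋ + 1)) with h | h
  · have h3 : (((⌈b⌉ - 1 + 1 - (⌊a⌋ + 1)).toNat : ℤ) : ℝ) =
        ((⌈b⌉ - 1 + 1 - (⌊a⌋ + 1) : ℤ) : ℝ) := by
      rw [Int.toNat_of_nonneg h]
    rw [Int.cast_natCast] at h3
    rw [h3]
    push_cast
    linarith
  · rw [Int.toNat_of_nonpos h.le]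
    push_cast
    linarith

theorem j8859_set (t r : ℝ) : {n : ℤ | |t + n| < r} =
    {n : ℤ | (-t - r) < n ∧ (n : ℝ) < (-t + r)} := by
  ext n
  simp only [Set.mem_setOf_eq, abs_lt]
  constructor
  · rintro ⟨h1, h2⟩; constructor <;> linarith
  · rintro ⟨h1, h2⟩; constructor <;> linarith

/-- TARGET 1 -/
theorem cnt_le (t r : ℝ) (hr : 0 < r) : 0 ≤ cnt t r ∧ cnt t r ≤ 2 * r + 1 := by
  refine ⟨Nat.cast_nonneg _, ?_⟩
  unfold cnt
  rw [j8859_set]
  have h := (j8859_Ioo (-t - r) (-t + r) (by linarith)).2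
  linarith

theorem j8859_cnt_neg (t r : ℝ) : cnt (-t) r = cnt t r := by
  unfold cnt
  have h : {n : ℤ | |(-t) + n| < r} = (fun n : ℤ => -n) '' {n : ℤ | |t + n| < r} := by
    ext n
    simp only [Set.mem_setOf_eq, Set.mem_image]
    constructor
    · intro h
      refine ⟨-n, ?_, neg_neg n⟩
      have : t + ((-n : ℤ) : ℝ) = -(-t + n) := by push_cast; ring
      rw [this, abs_neg]; exact h
    · rintro ⟨m, hm, rfl⟩
      have : -t + ((-m : ℤ) : ℝ) = -(t + m) := by push_cast; ring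
      rw [this, abs_neg]; exact hm
  rw [h, Set.ncard_image_of_injective _ neg_injective]

open Classical in
theorem j8859_cnt_sum (t r : ℝ) (F : Finset ℤ) (hF : ∀ n : ℤ, |t + n| < r → n ∈ F) :
    cnt t r = ∑ n ∈ F, if |t + n| < r then (1 : ℝ) else 0 := by
  unfold cnt
  have h : {n : ℤ | |t + n| < r} = ↑(F.filter fun n : ℤ => |t + n| < r) := by
    ext n
    simp only [Set.mem_setOf_eq, Finset.coe_filter]
    exact ⟨fun h => ⟨hF n h, h⟩, fun h => h.2⟩
  rw [h, Set.ncard_coe_finset, Finset.card_filter]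
  push_cast
  rfl

open Classical in
theorem j8859_k (α c r : ℝ) (hα : 0 < α) (hr : 0 < r) (n : ℤ) (T : ℕ) :
    (∑ k ∈ Finset.range T, if |α * k + c + n| < r then (1 : ℝ) else 0) ≤ 2 * r / α + 1 := by
  have h1 : (∑ k ∈ Finset.range T, if |α * k + c + n| < r then (1 : ℝ) else 0) =
      (((Finset.range T).filter fun k : ℕ => |α * k + c + n| < r).card : ℝ) := by
    rw [Finset.card_filter]
    push_cast
    rfl
  rw [h1]
  obtain ⟨hfin, hcard⟩ := j8859_Ioo ((-(c + n) - r) / α) ((-(c + n) + r) / α)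
    (by apply div_le_div_of_nonneg_right _ hα.le; linarith)
  have h2 : (((Finset.range T).filter fun k : ℕ => |α * k + c + n| < r).card) ≤
      Set.ncard {m : ℤ | ((-(c + n) - r) / α) < m ∧ (m : ℝ) < ((-(c + n) + r) / α)} := by
    rw [← Finset.card_image_of_injective
      ((Finset.range T).filter fun k : ℕ => |α * k + c + n| < r)
      (Nat.cast_injective (R := ℤ)),
      ← Set.ncard_coe_finset]
    apply Set.ncard_le_ncard _ hfin
    intro m hm
    simp only [Finset.coe_image, Finset.coe_filter, Set.mem_image, Set.mem_setOf_eq] at hm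
    obtain ⟨k, ⟨-, hk⟩, rfl⟩ := hm
    rw [abs_lt] at hk
    simp only [Set.mem_setOf_eq, Int.cast_natCast]
    rw [div_lt_iff₀ hα, lt_div_iff₀ hα]
    constructor <;> linarith [hk.1, hk.2]
  have h3 : ((-(c + n) + r) / α) - ((-(c + n) - r) / α) + 1 = 2 * r / α + 1 := by
    rw [← sub_div]; ring
  rw [h3] at hcard
  exact le_trans (by exact_mod_cast h2) hcard

open Classical in
theorem j8859_total (α c r : ℝ) (hα : 0 < α) (hr : 0 < r) (T : ℕ) :
    ∑ k ∈ Finset.range T, cnt (α * k + c) r ≤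
      (2 * r + α) * T + (2 * r + 1) * (2 * r / α + 1) := by
  have hT0 : (0 : ℝ) ≤ T := Nat.cast_nonneg T
  obtain ⟨hfin, hcard⟩ := j8859_Ioo (-c - r - α * T) (-c + r) (by nlinarith)
  set F : Finset ℤ := hfin.toFinset with hF
  have h1 : ∀ k ∈ Finset.range T, cnt (α * k + c) r =
      ∑ n ∈ F, if |α * k + c + n| < r then (1 : ℝ) else 0 := by
    intro k hk
    apply j8859_cnt_sum
    intro n hn
    rw [hF, Set.Finite.mem_toFinset, Set.mem_setOf_eq]
    rw [abs_lt] at hn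
    have hk' : (k : ℝ) ≤ T := by exact_mod_cast (Finset.mem_range.1 hk).le
    have hk0 : (0 : ℝ) ≤ k := Nat.cast_nonneg k
    have h2 : α * k ≤ α * T := mul_le_mul_of_nonneg_left hk' hα.le
    have h3 : 0 ≤ α * k := by positivity
    constructor <;> linarith [hn.1, hn.2]
  rw [Finset.sum_congr rfl h1, Finset.sum_comm]
  have h4 : ∑ n ∈ F, ∑ k ∈ Finset.range T, (if |α * k + c + n| < r then (1 : ℝ) else 0) ≤
      ∑ n ∈ F, (2 * r / α + 1) :=
    Finset.sum_le_sum fun n _ => j8859_k α c r hα hr n T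
  refine h4.trans ?_
  rw [Finset.sum_const, nsmul_eq_mul]
  have h5 : (F.card : ℝ) ≤ α * T + 2 * r + 1 := by
    rw [hF, ← Set.ncard_eq_toFinset_card _ hfin]
    linarith
  have h6 : 0 ≤ 2 * r / α + 1 := by positivity
  calc (F.card : ℝ) * (2 * r / α + 1) ≤ (α * T + 2 * r + 1) * (2 * r / α + 1) :=
        mul_le_mul_of_nonneg_right h5 h6
    _ = _ := by
        field_simp
        ring

theorem j8859_pos (BL : (ℕ → ℝ) → ℝ) (h : IsBL BL) (v : ℤ) (hv : 0 < v) (M : ℕ) (hM : 0 < M)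
    (c r : ℝ) (hr : 0 < r) :
    BL (fun k : ℕ => cnt ((v : ℝ) * k / M + c) r) ≤ 2 * r + |(v : ℝ)| / M := by
  have hvR : (0 : ℝ) < v := by exact_mod_cast hv
  have hMR : (0 : ℝ) < M := by exact_mod_cast hM
  have hα : (0 : ℝ) < (v : ℝ) / M := div_pos hvR hMR
  rw [abs_of_pos hvR]
  have hfun : (fun k : ℕ => cnt ((v : ℝ) * k / M + c) r) =
      fun k : ℕ => cnt ((v : ℝ) / M * k + c) r := by
    funext k
    congr 1
    ring
  rw [hfun]
  apply h.ces
  · refine ⟨2 * r + 1, fun n => ?_⟩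
    obtain ⟨h1, h2⟩ := cnt_le ((v : ℝ) / M * n + c) r hr
    rw [abs_of_nonneg h1]; exact h2
  · intro e he
    set C : ℝ := (2 * r + 1) * (2 * r / ((v : ℝ) / M) + 1) with hC
    filter_upwards [Filter.eventually_ge_atTop (⌈C / e⌉₊)] with T hT
    have h1 := j8859_total ((v : ℝ) / M) c r hα hr T
    have h2 : C / e ≤ T := le_trans (Nat.le_ceil _) (by exact_mod_cast hT)
    rw [div_le_iff₀ he] at h2
    linarith

/-- TARGET 2: the average number of solutions -/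
theorem BL_cnt (BL : (ℕ → ℝ) → ℝ) (h : IsBL BL) (v : ℤ) (hv : v ≠ 0) (M : ℕ) (hM : 0 < M)
    (c r : ℝ) (hr : 0 < r) :
    BL (fun k : ℕ => cnt ((v : ℝ) * k / M + c) r) ≤ 2 * r + |(v : ℝ)| / M := by
  rcases lt_or_gt_of_ne hv with h1 | h1
  · have h2 := j8859_pos BL h (-v) (by omega) M hM (-c) r hr
    have hfun : (fun k : ℕ => cnt ((v : ℝ) * k / M + c) r) =
        fun k : ℕ => cnt (((-v : ℤ) : ℝ) * k / M + -c) r := by
      funext k
      rw [← j8859_cnt_neg]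
      congr 1
      push_cast
      ring
    rw [hfun]
    refine h2.trans (le_of_eq ?_)
    push_cast
    rw [abs_neg]
  · exact j8859_pos BL h v h1 M hM c r hr

/-- TARGET 3: number of nonzero integers in an interval -/
theorem card_ne_zero_le (r : ℝ) (hr : 0 < r) :
    Set.Finite {n : ℤ | n ≠ 0 ∧ |(n : ℝ)| < r} ∧
      (Set.ncard {n : ℤ | n ≠ 0 ∧ |(n : ℝ)| < r} : ℝ) ≤ 2 * r := by
  have hc : 0 < ⌈r⌉ := Int.ceil_pos.2 hr
  have hset : {n : ℤ | n ≠ 0 ∧ |(n : ℝ)| < r} =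
      ↑((Finset.Icc (-(⌈r⌉ - 1)) (⌈r⌉ - 1)).erase 0) := by
    ext n
    simp only [Set.mem_setOf_eq, Finset.coe_erase, Finset.coe_Icc, Set.mem_diff, Set.mem_Icc,
      Set.mem_singleton_iff]
    have h1 : |(n : ℝ)| < r ↔ |n| ≤ ⌈r⌉ - 1 := by
      rw [Int.le_sub_one_iff, Int.lt_ceil, Int.cast_abs]
    rw [h1, abs_le]
    exact and_comm
  rw [hset]
  refine ⟨Finset.finite_toSet _, ?_⟩
  rw [Set.ncard_coe_finset, Finset.card_erase_of_mem, Int.card_Icc]
  · have h2 : (⌈r⌉ - 1 + 1 - -(⌈r⌉ - 1)).toNat - 1 = 2 * (⌈r⌉ - 1).toNat := by omega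
    rw [h2]
    push_cast
    have h3 : (((⌈r⌉ - 1).toNat : ℤ) : ℝ) = ((⌈r⌉ - 1 : ℤ) : ℝ) := by
      rw [Int.toNat_of_nonneg (by omega)]
    rw [Int.cast_natCast] at h3
    rw [h3]
    push_cast
    have := Int.ceil_lt_add_one r
    linarith
  · rw [Finset.mem_Icc]; constructor <;> omega

end Pool.Agent.SL3L1
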