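import Mathlib
import Pool.Agent.SL3L1.AlgSmp
import Pool.Agent.SL3L1.CountBL

set_option autoImplicit false

namespace Pool.Agent.SL3L1

open Matrix

private theorem scale_lt (a : ℚ) (K : ℤ) (l : ℕ) :
    |a * (2:ℚ) ^ K| < 1 / 2 ^ l ↔ |(a : ℝ)| < 2 ^ (-(l : ℤ) - K) := by
  have h2 : (2:ℚ) ≠ 0 := by norm_num
  have hK : (0:ℚ) < 2 ^ K := by positivity
  have e1 : (1:ℚ) / 2 ^ l = 2 ^ (-(l : ℤ) - K) * 2 ^ K := by
    rw [← zpow_add₀ h2, sub_add_cancel, _root_.zpow_neg, _root_.zpow_natCast, one_div]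
  rw [e1, abs_mul, abs_of_pos hK, mul_lt_mul_iff_left₀ hK]
  rw [← Rat.cast_lt (K := ℝ)]
  push_cast
  rfl

private theorem smp_entries (L : ℕ) (k1 k2 k3 i j : ℤ) :
    (smp L k1 k2 k3 i j).1 = !![(2:ℚ) ^ (-2 * i - j), ((k2 : ℚ) / 2 ^ L) * 2 ^ (i - j),
      (((k1 : ℚ) + k2 * k3) / 4 ^ L) * 2 ^ (i + 2 * j);
      0, (2:ℚ) ^ (i - j), ((k3 : ℚ) / 2 ^ L) * 2 ^ (i + 2 * j); 0, 0, 2 ^ (i + 2 * j)] := by
  have e1 : 2 * (-i) + (-j) = -2 * i - j := by ring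
  have e2 : (-j) - (-i) = i - j := by ring
  have e3 : -(-i) - 2 * (-j) = i + 2 * j := by ring
  unfold smp uni dia
  rw [Matrix.SpecialLinearGroup.coe_mul]
  simp only [e1, e2, e3]
  ext a b
  fin_cases a <;> fin_cases b <;> simp [Matrix.mul_apply, Fin.sum_univ_three]

/-- TARGET 1: `hp` on samples -/
theorem hp_smp (l L : ℕ) (k1 k2 k3 i j : ℤ) :
    hp l (smp L k1 k2 k3 i j) ↔ ∃ v0 v1 v2 : ℤ, ¬ (v0 = 0 ∧ v1 = 0 ∧ v2 = 0) ∧
      |(v0 : ℝ)| < 2 ^ (-(l : ℤ) - (-2 * i - j)) ∧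
      |(v0 : ℝ) * k2 / 2 ^ L + v1| < 2 ^ (-(l : ℤ) - (i - j)) ∧
      |(v0 : ℝ) * k1 / 4 ^ L + ((v0 : ℝ) * k2 * k3 / 4 ^ L + v1 * k3 / 2 ^ L) + v2| <
        2 ^ (-(l : ℤ) - (i + 2 * j)) := by
  have key : ∀ v : Fin 3 → ℤ, (∀ b, |∑ a, (v a : ℚ) * (smp L k1 k2 k3 i j).1 a b| < 1 / 2 ^ l) ↔
      (|(v 0 : ℝ)| < 2 ^ (-(l : ℤ) - (-2 * i - j)) ∧
      |(v 0 : ℝ) * k2 / 2 ^ L + v 1| < 2 ^ (-(l : ℤ) - (i - j)) ∧
      |(v 0 : ℝ) * k1 / 4 ^ L + ((v 0 : ℝ) * k2 * k3 / 4 ^ L + v 1 * k3 / 2 ^ L) + v 2| <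
        2 ^ (-(l : ℤ) - (i + 2 * j))) := by
    intro v
    rw [Fin.forall_fin_succ, Fin.forall_fin_succ, Fin.forall_fin_succ]
    have s0 : ∑ a, (v a : ℚ) * (smp L k1 k2 k3 i j).1 a 0 = (v 0 : ℚ) * 2 ^ (-2 * i - j) := by
      rw [smp_entries, Fin.sum_univ_three]
      simp
    have s1 : ∑ a, (v a : ℚ) * (smp L k1 k2 k3 i j).1 a 1 =
        ((v 0 : ℚ) * k2 / 2 ^ L + v 1) * 2 ^ (i - j) := by
      rw [smp_entries, Fin.sum_univ_three]
      simp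
      ring
    have s2 : ∑ a, (v a : ℚ) * (smp L k1 k2 k3 i j).1 a 2 =
        ((v 0 : ℚ) * k1 / 4 ^ L + ((v 0 : ℚ) * k2 * k3 / 4 ^ L + v 1 * k3 / 2 ^ L) + v 2) *
          2 ^ (i + 2 * j) := by
      rw [smp_entries, Fin.sum_univ_three]
      simp
      ring
    have t1 : (Fin.succ (0 : Fin 2) : Fin 3) = 1 := rfl
    have t2 : (Fin.succ (Fin.succ (0 : Fin 1)) : Fin 3) = 2 := rfl
    rw [t1, t2, s0, s1, s2, scale_lt, scale_lt, scale_lt]
    push_cast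
    constructor
    · rintro ⟨h1, h2, h3, -⟩
      exact ⟨h1, h2, h3⟩
    · rintro ⟨h1, h2, h3⟩
      exact ⟨h1, h2, h3, fun i => i.elim0⟩
  unfold hp
  constructor
  · rintro ⟨v, hv, h⟩
    refine ⟨v 0, v 1, v 2, ?_, (key v).mp h⟩
    rintro ⟨h0, h1, h2⟩
    apply hv
    ext a
    fin_cases a
    · exact h0
    · exact h1
    · exact h2
  · rintro ⟨v0, v1, v2, hv, h⟩
    refine ⟨![v0, v1, v2], ?_, (key _).mpr h⟩
    intro h0
    apply hv
    refine ⟨?_, ?_, ?_⟩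
    · have := congrFun h0 0
      simpa using this
    · have := congrFun h0 1
      simpa using this
    · have := congrFun h0 2
      simpa using this

private theorem not_hp_of_int (Y : GQ) (D B : ℕ) (hD : 0 < D) (hDB : D ≤ 2 ^ B)
    (h : ∀ i j, ∃ m : ℤ, Y.1 i j * (D : ℚ) = m) : ¬ hp B Y := by
  rintro ⟨v, hv, hlt⟩
  choose m hm using h
  have hDq : (0 : ℚ) < D := by exact_mod_cast hD
  have hDB' : (D : ℚ) ≤ 2 ^ B := by exact_mod_cast hDB
  apply hv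
  have hz : ∀ j, ∑ i, (v i : ℚ) * Y.1 i j = 0 := by
    intro j
    have e : (∑ i, (v i : ℚ) * Y.1 i j) * D = ((∑ i, v i * m i j : ℤ) : ℚ) := by
      rw [Finset.sum_mul]
      push_cast
      apply Finset.sum_congr rfl
      intro i _
      rw [mul_assoc, hm]
    have h1 : |((∑ i, v i * m i j : ℤ) : ℚ)| < 1 := by
      rw [← e, abs_mul, abs_of_pos hDq]
      have h2 := hlt j
      have h3 : (0:ℚ) < 2 ^ B := by positivity
      rw [lt_div_iff₀ h3] at h2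
      calc |∑ i, (v i : ℚ) * Y.1 i j| * D ≤ |∑ i, (v i : ℚ) * Y.1 i j| * 2 ^ B :=
            mul_le_mul_of_nonneg_left hDB' (abs_nonneg _)
        _ < 1 := h2
    have h2 : (∑ i, v i * m i j : ℤ) = 0 := by
      have : |(∑ i, v i * m i j : ℤ)| < 1 := by exact_mod_cast h1
      exact Int.abs_lt_one_iff.mp this
    rw [h2, Int.cast_zero] at e
    rcases mul_eq_zero.mp e with h3 | h3
    · exact h3
    · exact absurd h3 hDq.ne'
  have hvec : Matrix.vecMul (fun i => (v i : ℚ)) Y.1 = 0 := by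
    ext j
    simp only [Matrix.vecMul, dotProduct, Pi.zero_apply]
    exact hz j
  have hdet : Y.1.det ≠ 0 := by
    rw [Y.2]
    exact one_ne_zero
  have := Matrix.eq_zero_of_vecMul_eq_zero hdet hvec
  ext i
  have hi := congrFun this i
  simpa using hi

private theorem zpow_int (K : ℤ) (M : ℕ) (h : 0 ≤ K + M) : ∃ m : ℤ, (2:ℚ) ^ K * 2 ^ M = m := by
  refine ⟨2 ^ (K + M).toNat, ?_⟩
  have h2 : (2:ℚ) ≠ 0 := by norm_num
  rw [← zpow_natCast (2:ℚ) M, ← zpow_add₀ h2]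
  push_cast
  rw [← zpow_natCast (2:ℚ) (K + M).toNat, Int.toNat_of_nonneg h]

/-- TARGET 2: samples of fixed `L i j` have uniformly bounded height -/
theorem hp_bound (L : ℕ) (i j : ℤ) : ∃ B : ℕ, ∀ k1 k2 k3 : ℤ, ¬ hp B (smp L k1 k2 k3 i j) := by
  obtain ⟨M, hM⟩ : ∃ M : ℕ, M = (-2 * i - j).natAbs + (i - j).natAbs + (i + 2 * j).natAbs := ⟨_, rfl⟩
  obtain ⟨m1, hm1⟩ := zpow_int (-2 * i - j) M (by omega)
  obtain ⟨m2, hm2⟩ := zpow_int (i - j) M (by omega)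
  obtain ⟨m3, hm3⟩ := zpow_int (i + 2 * j) M (by omega)
  refine ⟨2 * L + M, fun k1 k2 k3 => ?_⟩
  refine not_hp_of_int _ (2 ^ (2 * L + M)) (2 * L + M) (by positivity) le_rfl ?_
  have h4 : (4:ℚ) ^ L = 2 ^ L * 2 ^ L := by
    rw [← mul_pow]
    norm_num
  have h2L : (2:ℚ) ^ L ≠ 0 := by positivity
  have hD : ((2 ^ (2 * L + M) : ℕ) : ℚ) = 2 ^ L * 2 ^ L * 2 ^ M := by
    push_cast
    rw [pow_add, two_mul, pow_add]
  intro a b
  rw [smp_entries, hD, h4]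
  fin_cases a <;> fin_cases b
  · refine ⟨2 ^ L * 2 ^ L * m1, ?_⟩
    simp only [Fin.zero_eta, Fin.isValue, Fin.mk_one, Fin.reduceFinMk, Matrix.of_apply,
      Matrix.cons_val', Matrix.cons_val_zero, Matrix.cons_val_one, Matrix.cons_val]
    push_cast
    rw [← hm1]
    ring
  · refine ⟨k2 * 2 ^ L * m2, ?_⟩
    simp only [Fin.zero_eta, Fin.isValue, Fin.mk_one, Fin.reduceFinMk, Matrix.of_apply,
      Matrix.cons_val', Matrix.cons_val_zero, Matrix.cons_val_one, Matrix.cons_val]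
    push_cast
    rw [← hm2]
    field_simp
  · refine ⟨(k1 + k2 * k3) * m3, ?_⟩
    simp only [Fin.zero_eta, Fin.isValue, Fin.mk_one, Fin.reduceFinMk, Matrix.of_apply,
      Matrix.cons_val', Matrix.cons_val_zero, Matrix.cons_val_one, Matrix.cons_val]
    push_cast
    rw [← hm3]
    field_simp
  · refine ⟨0, ?_⟩
    simp
  · refine ⟨2 ^ L * 2 ^ L * m2, ?_⟩
    simp only [Fin.zero_eta, Fin.isValue, Fin.mk_one, Fin.reduceFinMk, Matrix.of_apply,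
      Matrix.cons_val', Matrix.cons_val_zero, Matrix.cons_val_one, Matrix.cons_val]
    push_cast
    rw [← hm2]
    ring
  · refine ⟨k3 * 2 ^ L * m3, ?_⟩
    simp only [Fin.zero_eta, Fin.isValue, Fin.mk_one, Fin.reduceFinMk, Matrix.of_apply,
      Matrix.cons_val', Matrix.cons_val_zero, Matrix.cons_val_one, Matrix.cons_val]
    push_cast
    rw [← hm3]
    field_simp
  · refine ⟨0, ?_⟩
    simp
  · refine ⟨0, ?_⟩
    simp
  · refine ⟨2 ^ L * 2 ^ L * m3, ?_⟩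
    simp only [Fin.zero_eta, Fin.isValue, Fin.mk_one, Fin.reduceFinMk, Matrix.of_apply,
      Matrix.cons_val', Matrix.cons_val_zero, Matrix.cons_val_one, Matrix.cons_val]
    push_cast
    rw [← hm3]
    ring

/-- TARGET 3: monotonicity -/
theorem hp_mono (Y : GQ) (l l' : ℕ) (h : l ≤ l') (hl : hp l' Y) : hp l Y := by
  obtain ⟨v, hv, hlt⟩ := hl
  refine ⟨v, hv, fun j => (hlt j).trans_le ?_⟩
  exact one_div_le_one_div_of_le (by positivity) (pow_le_pow_right₀ (by norm_num) h)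

/-- TARGET 4: every rational matrix has finite height -/
theorem hp_fin (Y : GQ) : ∃ l, ¬ hp l Y := by
  let D : ℕ := ∏ p : Fin 3 × Fin 3, (Y.1 p.1 p.2).den
  refine ⟨D, not_hp_of_int Y D D ?_ Nat.lt_two_pow_self.le ?_⟩
  · exact Finset.prod_pos (fun p _ => (Y.1 p.1 p.2).den_pos)
  · intro i j
    have hdvd : (Y.1 i j).den ∣ D :=
      Finset.dvd_prod_of_mem (fun p : Fin 3 × Fin 3 => (Y.1 p.1 p.2).den) (Finset.mem_univ (i, j))
    obtain ⟨c, hc⟩ := hdvd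
    refine ⟨(Y.1 i j).num * c, ?_⟩
    rw [hc]
    push_cast
    rw [← mul_assoc, Rat.mul_den_eq_num]

/-- TARGET 5 -/
theorem ht_spec (Y : GQ) : ¬ hp (ht Y) Y ∧ ∀ l < ht Y, hp l Y := by
  constructor
  · exact Nat.sInf_mem (s := {l : ℕ | ¬ hp l Y}) (hp_fin Y)
  · intro l hl
    have := Nat.notMem_of_lt_sInf hl
    simpa using this

open Classical in
/-- TARGET 6: layer formula for the height -/
theorem ht_sum (Y : GQ) (B : ℕ) (hB : ¬ hp B Y) :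
    (ht Y : ℝ) = ∑ l ∈ Finset.range B, (if hp l Y then (1 : ℝ) else 0) := by
  obtain ⟨h1, h2⟩ := ht_spec Y
  have hle : ht Y ≤ B := Nat.sInf_le hB
  rw [Finset.sum_boole]
  have : (Finset.range B).filter (fun l => hp l Y) = Finset.range (ht Y) := by
    ext l
    simp only [Finset.mem_filter, Finset.mem_range]
    constructor
    · rintro ⟨-, h⟩
      by_contra hcon
      push Not at hcon
      exact h1 (hp_mono Y _ _ hcon h)
    · intro h
      exact ⟨lt_of_lt_of_le h hle, h2 l h⟩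
  rw [this, Finset.card_range]

end Pool.Agent.SL3L1
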