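import Mathlib
import Pool.Agent.SL3L1.ShortVec
import Pool.Agent.SL3L1.IterBL

set_option autoImplicit false

namespace Pool.Agent.SL3L1

open Matrix

theorem fin_cnt8941 (t r : ℝ) : Set.Finite {n : ℤ | |t + n| < r} := by
  apply (Set.finite_Icc ⌊-t - r⌋ ⌈r - t⌉).subset
  intro n hn
  rw [Set.mem_setOf_eq, abs_lt] at hn
  constructor
  · have : (⌊-t - r⌋ : ℝ) ≤ n := (Int.floor_le _).trans (by linarith)
    exact_mod_cast this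
  · have : (n : ℝ) ≤ ⌈r - t⌉ := le_trans (by linarith) (Int.le_ceil _)
    exact_mod_cast this

theorem one_le_cnt8941 (t r : ℝ) (n : ℤ) (h : |t + n| < r) : 1 ≤ cnt t r := by
  unfold cnt
  have := (Set.ncard_pos (fin_cnt8941 t r)).mpr ⟨n, h⟩
  exact_mod_cast this

theorem bl_lin8941 (BL : (ℕ → ℝ) → ℝ) (h : IsBL BL) {ι : Type} (S : Finset ι)
    (u : ι → ℕ → ℝ) (hu : ∀ s ∈ S, Bd (u s)) (c K : ι → ℝ) (hc : ∀ s ∈ S, 0 ≤ c s)
    (hK : ∀ s ∈ S, BL (u s) ≤ K s) (d : ℝ) :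
    Bd (fun n => ∑ s ∈ S, c s * u s n + d) ∧
      BL (fun n => ∑ s ∈ S, c s * u s n + d) ≤ ∑ s ∈ S, c s * K s + d := by
  classical
  induction S using Finset.induction_on with
  | empty =>
    constructor
    · exact ⟨|d|, fun n => by simp⟩
    · simp only [Finset.sum_empty, zero_add]
      exact (h.const d).le
  | insert a S ha ih =>
    obtain ⟨ih1, ih2⟩ := ih (fun s hs => hu s (Finset.mem_insert_of_mem hs))
      (fun s hs => hc s (Finset.mem_insert_of_mem hs))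
      (fun s hs => hK s (Finset.mem_insert_of_mem hs))
    have hua := hu a (Finset.mem_insert_self _ _)
    have hca := hc a (Finset.mem_insert_self _ _)
    have hKa := hK a (Finset.mem_insert_self _ _)
    have hb : Bd (fun n => c a * u a n) := by
      obtain ⟨B, hB⟩ := hua
      refine ⟨|c a| * B, fun n => ?_⟩
      rw [abs_mul]
      exact mul_le_mul_of_nonneg_left (hB n) (abs_nonneg _)
    have e : (fun n => ∑ s ∈ insert a S, c s * u s n + d) =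
        fun n => c a * u a n + (∑ s ∈ S, c s * u s n + d) := by
      funext n
      rw [Finset.sum_insert ha]
      ring
    rw [e]
    constructor
    · obtain ⟨B1, hB1⟩ := hb
      obtain ⟨B2, hB2⟩ := ih1
      exact ⟨B1 + B2, fun n => (abs_add_le _ _).trans (add_le_add (hB1 n) (hB2 n))⟩
    · rw [h.add (fun n => c a * u a n) (fun n => ∑ s ∈ S, c s * u s n + d) hb ih1,
        h.smul _ _ hua, Finset.sum_insert ha]
      have := mul_le_mul_of_nonneg_left hKa hca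
      linarith

theorem bd_cnt8941 (f : ℕ → ℝ) (r : ℝ) (hr : 0 < r) : Bd (fun n => cnt (f n) r) :=
  ⟨2 * r + 1, fun n => by
    rw [abs_of_nonneg (cnt_le _ _ hr).1]
    exact (cnt_le _ _ hr).2⟩

theorem BL_cnt'8941 (BL : (ℕ → ℝ) → ℝ) (h : IsBL BL) (v : ℤ) (hv : v ≠ 0) (b L : ℕ) (hb : 0 < b)
    (c r : ℝ) (hr : 0 < r) :
    BL (fun k : ℕ => cnt ((v : ℝ) * k / (b : ℝ) ^ L + c) r) ≤ 2 * r + |(v : ℝ)| / (b : ℝ) ^ L := by
  have := BL_cnt BL h v hv (b ^ L) (pow_pos hb L) c r hr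
  push_cast at this
  exact this

open Classical in
theorem ind_le8941 (l L : ℕ) (k1 k2 k3 : ℕ) (i j : ℤ)
    (hl : 0 ≤ (l : ℤ) + (i + 2 * j)) (r0 r1 r2 : ℝ)
    (e0 : r0 = 2 ^ (-(l : ℤ) - (-2 * i - j))) (e1 : r1 = 2 ^ (-(l : ℤ) - (i - j)))
    (e2 : r2 = 2 ^ (-(l : ℤ) - (i + 2 * j))) (S0 S1 : Finset ℤ) (T : ℤ → ℕ → Finset ℤ)
    (hS0 : ∀ v, v ∈ S0 ↔ v ≠ 0 ∧ |(v : ℝ)| < r0) (hS1 : ∀ v, v ∈ S1 ↔ v ≠ 0 ∧ |(v : ℝ)| < r1)
    (hT : ∀ v k n, n ∈ T v k ↔ |(v : ℝ) * k / 2 ^ L + n| < r1) :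
    (if hp l (smp L (k1 : ℤ) (k2 : ℤ) (k3 : ℤ) i j) then (1 : ℝ) else 0) ≤
      ∑ p ∈ S0.sigma (fun v => T v k2), cnt ((p.1 : ℝ) * k1 / 4 ^ L +
        ((p.1 : ℝ) * k2 * k3 / 4 ^ L + p.2 * k3 / 2 ^ L)) r2 +
      ∑ v ∈ S1, cnt ((v : ℝ) * k3 / 2 ^ L + 0) r2 := by
  have hr2 : 0 < r2 := by rw [e2]; positivity
  have hr21 : r2 ≤ 1 := by
    rw [e2]
    apply zpow_le_one_of_nonpos₀ (by norm_num)
    linarith
  have hA : 0 ≤ ∑ p ∈ S0.sigma (fun v => T v k2), cnt ((p.1 : ℝ) * k1 / 4 ^ L +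
        ((p.1 : ℝ) * k2 * k3 / 4 ^ L + p.2 * k3 / 2 ^ L)) r2 :=
    Finset.sum_nonneg fun p _ => (cnt_le _ _ hr2).1
  have hB : 0 ≤ ∑ v ∈ S1, cnt ((v : ℝ) * k3 / 2 ^ L + 0) r2 :=
    Finset.sum_nonneg fun p _ => (cnt_le _ _ hr2).1
  split_ifs with hhp
  · rw [hp_smp] at hhp
    obtain ⟨v0, v1, v2, hne, h0, h1, h2⟩ := hhp
    rw [← e0] at h0
    rw [← e1] at h1
    rw [← e2] at h2
    simp only [Int.cast_natCast] at h1 h2
    by_cases hv0 : v0 = 0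
    · subst hv0
      have hv1 : v1 ≠ 0 := by
        rintro rfl
        have : |(v2 : ℝ)| < 1 := by
          refine lt_of_lt_of_le ?_ hr21
          simpa using h2
        have h3 : |v2| < 1 := by exact_mod_cast this
        exact hne ⟨rfl, rfl, Int.abs_lt_one_iff.mp h3⟩
      have hm : v1 ∈ S1 := (hS1 v1).mpr ⟨hv1, by simpa using h1⟩
      have h3 : 1 ≤ cnt ((v1 : ℝ) * k3 / 2 ^ L + 0) r2 :=
        one_le_cnt8941 _ _ v2 (by simpa using h2)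
      have h4 := Finset.single_le_sum (f := fun v : ℤ => cnt ((v : ℝ) * k3 / 2 ^ L + 0) r2)
        (fun p _ => (cnt_le _ _ hr2).1) hm
      linarith
    · have hm : (⟨v0, v1⟩ : Σ _ : ℤ, ℤ) ∈ S0.sigma (fun v => T v k2) := by
        rw [Finset.mem_sigma]
        exact ⟨(hS0 v0).mpr ⟨hv0, h0⟩, (hT v0 k2 v1).mpr h1⟩
      have h3 : 1 ≤ cnt ((v0 : ℝ) * k1 / 4 ^ L +
        ((v0 : ℝ) * k2 * k3 / 4 ^ L + v1 * k3 / 2 ^ L)) r2 :=
        one_le_cnt8941 _ _ v2 h2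
      have h4 := Finset.single_le_sum (f := fun p : (Σ _ : ℤ, ℤ) => cnt ((p.1 : ℝ) * k1 / 4 ^ L +
        ((p.1 : ℝ) * k2 * k3 / 4 ^ L + p.2 * k3 / 2 ^ L)) r2)
        (fun p _ => (cnt_le _ _ hr2).1) hm
      linarith
  · exact add_nonneg hA hB

open Classical in
/-- TARGET 1: the average of the indicator of `hp l` -/
theorem BL3_hp_le (BL : (ℕ → ℝ) → ℝ) (h : IsBL BL) (L l : ℕ) (i j : ℤ)
    (hl : 0 ≤ (l : ℤ) + (i + 2 * j)) (r0 r1 r2 : ℝ)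
    (e0 : r0 = 2 ^ (-(l : ℤ) - (-2 * i - j))) (e1 : r1 = 2 ^ (-(l : ℤ) - (i - j)))
    (e2 : r2 = 2 ^ (-(l : ℤ) - (i + 2 * j))) :
    BL3 BL (fun X => if hp l X then (1 : ℝ) else 0) L i j ≤
      2 * r0 * ((2 * r1 + r0 / 2 ^ L) * (2 * r2 + r0 / 4 ^ L)) + 2 * r1 * (2 * r2 + r1 / 2 ^ L) := by
  have hr0 : 0 < r0 := by rw [e0]; positivity
  have hr1 : 0 < r1 := by rw [e1]; positivity
  have hr2 : 0 < r2 := by rw [e2]; positivity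
  obtain ⟨S0, hS0, hS0c⟩ : ∃ S0 : Finset ℤ, (∀ v, v ∈ S0 ↔ v ≠ 0 ∧ |(v : ℝ)| < r0) ∧
      (S0.card : ℝ) ≤ 2 * r0 := by
    obtain ⟨hf, hc⟩ := card_ne_zero_le r0 hr0
    refine ⟨hf.toFinset, fun v => by simp, ?_⟩
    rwa [Set.ncard_eq_toFinset_card _ hf] at hc
  obtain ⟨S1, hS1, hS1c⟩ : ∃ S1 : Finset ℤ, (∀ v, v ∈ S1 ↔ v ≠ 0 ∧ |(v : ℝ)| < r1) ∧
      (S1.card : ℝ) ≤ 2 * r1 := by
    obtain ⟨hf, hc⟩ := card_ne_zero_le r1 hr1
    refine ⟨hf.toFinset, fun v => by simp, ?_⟩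
    rwa [Set.ncard_eq_toFinset_card _ hf] at hc
  obtain ⟨T, hT, hTc⟩ : ∃ T : ℤ → ℕ → Finset ℤ,
      (∀ v k n, n ∈ T v k ↔ |(v : ℝ) * k / 2 ^ L + n| < r1) ∧
      (∀ v k, ((T v k).card : ℝ) = cnt ((v : ℝ) * k / 2 ^ L + 0) r1) := by
    refine ⟨fun v k => (fin_cnt8941 ((v : ℝ) * k / 2 ^ L) r1).toFinset, fun v k n => by simp,
      fun v k => ?_⟩
    rw [add_zero, cnt, Set.ncard_eq_toFinset_card _ (fin_cnt8941 ((v : ℝ) * k / 2 ^ L) r1)]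
  -- the indicator
  set f : ℕ → ℕ → ℕ → ℝ := fun k3 k2 k1 =>
    if hp l (smp L (k1 : ℤ) (k2 : ℤ) (k3 : ℤ) i j) then (1 : ℝ) else 0 with hf
  have hfb : ∀ k3 k2 k1, |f k3 k2 k1| ≤ 1 := by
    intro k3 k2 k1
    simp only [hf]
    split_ifs <;> simp
  have hfb2 : ∀ k3 k2, |BL (f k3 k2)| ≤ 1 := fun k3 k2 => bl_abs BL h _ 1 (hfb k3 k2)
  have hfb3 : ∀ k3, |BL (fun k2 => BL (f k3 k2))| ≤ 1 := fun k3 => bl_abs BL h _ 1 (hfb2 k3)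
  set Q : ℕ → ℝ := fun k3 => ∑ v ∈ S1, cnt ((v : ℝ) * k3 / 2 ^ L + 0) r2 with hQ
  -- step 1
  have st1 : ∀ k3 k2, BL (f k3 k2) ≤
      ∑ v ∈ S0, (2 * r2 + |(v : ℝ)| / 4 ^ L) * cnt ((v : ℝ) * k2 / 2 ^ L + 0) r1 + Q k3 := by
    intro k3 k2
    obtain ⟨hb, hle⟩ := bl_lin8941 BL h (S0.sigma (fun v => T v k2))
      (fun p k1 => cnt ((p.1 : ℝ) * k1 / 4 ^ L +
        ((p.1 : ℝ) * k2 * k3 / 4 ^ L + p.2 * k3 / 2 ^ L)) r2)
      (fun p _ => bd_cnt8941 _ r2 hr2) (fun _ => 1) (fun p => 2 * r2 + |(p.1 : ℝ)| / 4 ^ L)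
      (fun _ _ => zero_le_one)
      (fun p hp => by
        have hp1 := ((hS0 p.1).mp (Finset.mem_sigma.mp hp).1).1
        exact_mod_cast BL_cnt'8941 BL h p.1 hp1 4 L (by norm_num)
          ((p.1 : ℝ) * k2 * k3 / 4 ^ L + p.2 * k3 / 2 ^ L) r2 hr2)
      (Q k3)
    refine (h.mono _ _ ⟨1, hfb k3 k2⟩ hb ?_).trans (hle.trans ?_)
    · intro k1
      have := ind_le8941 l L k1 k2 k3 i j hl r0 r1 r2 e0 e1 e2 S0 S1 T hS0 hS1 hT
      simpa only [one_mul] using this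
    · rw [Finset.sum_sigma]
      apply add_le_add_left (le_of_eq _) _
      apply Finset.sum_congr rfl
      intro v _
      rw [← hTc]
      show ∑ _ ∈ T v k2, 1 * (2 * r2 + |(v : ℝ)| / 4 ^ L) = _
      rw [Finset.sum_const, nsmul_eq_mul, one_mul, mul_comm]
  -- step 2
  have st2 : ∀ k3, BL (fun k2 => BL (f k3 k2)) ≤
      2 * r0 * ((2 * r1 + r0 / 2 ^ L) * (2 * r2 + r0 / 4 ^ L)) + Q k3 := by
    intro k3
    obtain ⟨hb, hle⟩ := bl_lin8941 BL h S0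
      (fun v k2 => cnt ((v : ℝ) * k2 / 2 ^ L + 0) r1)
      (fun p _ => bd_cnt8941 _ r1 hr1) (fun v => 2 * r2 + |(v : ℝ)| / 4 ^ L)
      (fun v => 2 * r1 + |(v : ℝ)| / 2 ^ L)
      (fun _ _ => by positivity)
      (fun v hv => by
        have hp1 := ((hS0 v).mp hv).1
        exact_mod_cast BL_cnt'8941 BL h v hp1 2 L (by norm_num) 0 r1 hr1)
      (Q k3)
    refine (h.mono _ _ ⟨1, hfb2 k3⟩ hb (fun k2 => st1 k3 k2)).trans (hle.trans ?_)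
    apply add_le_add_left _ _
    calc ∑ v ∈ S0, (2 * r2 + |(v : ℝ)| / 4 ^ L) * (2 * r1 + |(v : ℝ)| / 2 ^ L)
        ≤ ∑ v ∈ S0, (2 * r2 + r0 / 4 ^ L) * (2 * r1 + r0 / 2 ^ L) := by
          apply Finset.sum_le_sum
          intro v hv
          have := ((hS0 v).mp hv).2.le
          gcongr
      _ = S0.card * ((2 * r2 + r0 / 4 ^ L) * (2 * r1 + r0 / 2 ^ L)) := by
          rw [Finset.sum_const, nsmul_eq_mul]
      _ ≤ 2 * r0 * ((2 * r2 + r0 / 4 ^ L) * (2 * r1 + r0 / 2 ^ L)) := by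
          gcongr
      _ = _ := by ring
  -- step 3
  show BL (fun k3 => BL (fun k2 => BL (f k3 k2))) ≤ _
  obtain ⟨hb, hle⟩ := bl_lin8941 BL h S1
    (fun v k3 => cnt ((v : ℝ) * k3 / 2 ^ L + 0) r2)
    (fun p _ => bd_cnt8941 _ r2 hr2) (fun _ => 1)
    (fun v => 2 * r2 + |(v : ℝ)| / 2 ^ L)
    (fun _ _ => zero_le_one)
    (fun v hv => by
      have hp1 := ((hS1 v).mp hv).1
      exact_mod_cast BL_cnt'8941 BL h v hp1 2 L (by norm_num) 0 r2 hr2)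
    (2 * r0 * ((2 * r1 + r0 / 2 ^ L) * (2 * r2 + r0 / 4 ^ L)))
  refine (h.mono _ _ ⟨1, hfb3⟩ hb (fun k3 => ?_)).trans (hle.trans ?_)
  · have := st2 k3
    simp only [one_mul]
    linarith
  · have : ∑ v ∈ S1, (1 : ℝ) * (2 * r2 + |(v : ℝ)| / 2 ^ L) ≤ 2 * r1 * (2 * r2 + r1 / 2 ^ L) := by
      calc ∑ v ∈ S1, (1 : ℝ) * (2 * r2 + |(v : ℝ)| / 2 ^ L)
          ≤ ∑ v ∈ S1, (2 * r2 + r1 / 2 ^ L) := by
            apply Finset.sum_le_sum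
            intro v hv
            have := ((hS1 v).mp hv).2.le
            rw [one_mul]
            gcongr
        _ = S1.card * (2 * r2 + r1 / 2 ^ L) := by
            rw [Finset.sum_const, nsmul_eq_mul]
        _ ≤ _ := by gcongr
    linarith

open Classical in
/-- TARGET 2 -/
theorem BL3_hp (BL : (ℕ → ℝ) → ℝ) (h : IsBL BL) (i j : ℤ) : ∃ L0 : ℕ, ∀ L ≥ L0, ∀ l : ℕ,
    0 ≤ (l : ℤ) + (i + 2 * j) →
    BL3 BL (fun X => if hp l X then (1 : ℝ) else 0) L i j ≤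
      18 * (1 / 8) ^ l + 6 * 2 ^ (-2 * i - j) * (1 / 4) ^ l := by
  refine ⟨(3 * |i| + 3 * |j|).toNat, fun L hL l hl => ?_⟩
  have hL' : 3 * |i| + 3 * |j| ≤ (L : ℤ) := by
    have := Int.self_le_toNat (3 * |i| + 3 * |j|)
    omega
  have hi := le_abs_self i
  have hj := le_abs_self j
  have hi0 := abs_nonneg i
  have hj0 := abs_nonneg j
  have h2 : (2 : ℝ) ≠ 0 := by norm_num
  have h4 : (4 : ℝ) ^ L = 2 ^ (2 * (L : ℤ)) := by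
    rw [_root_.zpow_mul, zpow_natCast]
    norm_num
  have h2L : (2 : ℝ) ^ L = 2 ^ (L : ℤ) := (zpow_natCast _ _).symm
  refine (BL3_hp_le BL h L l i j hl _ _ _ rfl rfl rfl).trans ?_
  have a1 : (2 : ℝ) ^ (-(l : ℤ) - (-2 * i - j)) / 2 ^ L ≤ 2 ^ (-(l : ℤ) - (i - j)) := by
    rw [h2L, ← zpow_sub₀ h2]
    apply zpow_le_zpow_right₀ (by norm_num)
    linarith
  have a2 : (2 : ℝ) ^ (-(l : ℤ) - (-2 * i - j)) / 4 ^ L ≤ 2 ^ (-(l : ℤ) - (i + 2 * j)) := by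
    rw [h4, ← zpow_sub₀ h2]
    apply zpow_le_zpow_right₀ (by norm_num)
    linarith
  have a3 : (2 : ℝ) ^ (-(l : ℤ) - (i - j)) / 2 ^ L ≤ 2 ^ (-(l : ℤ) - (i + 2 * j)) := by
    rw [h2L, ← zpow_sub₀ h2]
    apply zpow_le_zpow_right₀ (by norm_num)
    linarith
  have b1 : (1 / 8 : ℝ) ^ l = 2 ^ (-(l : ℤ) - (-2 * i - j)) * 2 ^ (-(l : ℤ) - (i - j)) *
      2 ^ (-(l : ℤ) - (i + 2 * j)) := by
    rw [← zpow_add₀ h2, ← zpow_add₀ h2]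
    have : (-(l : ℤ) - (-2 * i - j)) + (-(l : ℤ) - (i - j)) + (-(l : ℤ) - (i + 2 * j)) =
      -3 * (l : ℤ) := by ring
    rw [this, _root_.zpow_mul, zpow_natCast]
    norm_num
  have b2 : 2 ^ (-2 * i - j) * (1 / 4 : ℝ) ^ l = 2 ^ (-(l : ℤ) - (i - j)) *
      2 ^ (-(l : ℤ) - (i + 2 * j)) := by
    rw [← zpow_add₀ h2]
    have : (-(l : ℤ) - (i - j)) + (-(l : ℤ) - (i + 2 * j)) =
      (-2 * i - j) + -2 * (l : ℤ) := by ring
    rw [this, zpow_add₀ h2, _root_.zpow_mul, zpow_natCast]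
    norm_num
  rw [mul_assoc 6, b2, b1]
  have p0 : (0 : ℝ) < 2 ^ (-(l : ℤ) - (-2 * i - j)) := by positivity
  have p1 : (0 : ℝ) < 2 ^ (-(l : ℤ) - (i - j)) := by positivity
  have p2 : (0 : ℝ) < 2 ^ (-(l : ℤ) - (i + 2 * j)) := by positivity
  generalize (2 : ℝ) ^ (-(l : ℤ) - (-2 * i - j)) = r0 at *
  generalize (2 : ℝ) ^ (-(l : ℤ) - (i - j)) = r1 at *
  generalize (2 : ℝ) ^ (-(l : ℤ) - (i + 2 * j)) = r2 at *
  have c1 : 0 ≤ r0 / 2 ^ L := by positivity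
  have c2 : 0 ≤ r0 / 4 ^ L := by positivity
  calc 2 * r0 * ((2 * r1 + r0 / 2 ^ L) * (2 * r2 + r0 / 4 ^ L)) + 2 * r1 * (2 * r2 + r1 / 2 ^ L)
      ≤ 2 * r0 * ((2 * r1 + r1) * (2 * r2 + r2)) + 2 * r1 * (2 * r2 + r2) := by gcongr
    _ = _ := by ring

end Pool.Agent.SL3L1
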