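import Mathlib
import Pool.Agent.SL3L1.AvgHp
import Pool.Agent.SL3L1.ClsMean

set_option autoImplicit false

namespace Pool.Agent.SL3L1

open Matrix

theorem ht_sb9051 (L : ℕ) (i j : ℤ) : SB (fun X => (ht X : ℝ)) L i j := by
  obtain ⟨B, hB⟩ := hp_bound L i j
  refine ⟨B, fun k1 k2 k3 => ?_⟩
  rw [Nat.abs_cast]
  have : ht (smp L k1 k2 k3 i j) ≤ B := Nat.sInf_le (hB k1 k2 k3)
  exact_mod_cast this

theorem BL3_sum9051 (BL : (ℕ → ℝ) → ℝ) (h : IsBL BL) (L : ℕ) (i j : ℤ) (φ : ℕ → GQ → ℝ)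
    (hφ : ∀ l, SB (φ l) L i j) (B : ℕ) :
    SB (fun X => ∑ l ∈ Finset.range B, φ l X) L i j ∧
    BL3 BL (fun X => ∑ l ∈ Finset.range B, φ l X) L i j =
      ∑ l ∈ Finset.range B, BL3 BL (φ l) L i j := by
  induction B with
  | zero =>
    constructor
    · exact ⟨0, fun _ _ _ => by simp⟩
    · simp only [Finset.range_zero, Finset.sum_empty]
      exact BL3_const BL h 0 L i j
  | succ B ih =>
    obtain ⟨ih1, ih2⟩ := ih
    simp only [Finset.sum_range_succ]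
    constructor
    · obtain ⟨b1, hb1⟩ := ih1
      obtain ⟨b2, hb2⟩ := hφ B
      exact ⟨b1 + b2, fun k1 k2 k3 => (abs_add_le _ _).trans
        (add_le_add (hb1 k1 k2 k3) (hb2 k1 k2 k3))⟩
    · rw [BL3_add BL h _ _ L i j ih1 (hφ B), ih2]

theorem geo9051 (B : ℕ) (r : ℝ) (hr0 : 0 ≤ r) (hr : r < 1) :
    ∑ l ∈ Finset.range B, r ^ l ≤ 1 / (1 - r) := by
  rw [geom_sum_eq hr.ne, ← neg_div_neg_eq, neg_sub, neg_sub]
  have h1 : 0 < 1 - r := by linarith
  apply div_le_div_of_nonneg_right _ h1.le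
  have := pow_nonneg hr0 B
  linarith

theorem BL3_ht' (BL : (ℕ → ℝ) → ℝ) (h : IsBL BL) (i j : ℤ) : ∃ L0 : ℕ, ∀ L ≥ L0,
    BL3 BL (fun X => (ht X : ℝ)) L i j ≤ max 0 (-((i : ℝ) + 2 * j)) + 24 + 8 * 2 ^ (-2 * i - j) := by
  classical
  obtain ⟨L0, hL0⟩ := BL3_hp BL h i j
  refine ⟨L0, fun L hL => ?_⟩
  obtain ⟨B, hB⟩ := hp_bound L i j
  have hsb : ∀ l, SB (fun X => if hp l X then (1 : ℝ) else 0) L i j := by
    intro l
    refine ⟨1, fun k1 k2 k3 => ?_⟩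
    dsimp only
    split_ifs <;> simp
  have hsum := BL3_sum9051 BL h L i j (fun l X => if hp l X then (1 : ℝ) else 0) hsb B
  have h1 : BL3 BL (fun X => (ht X : ℝ)) L i j ≤
      ∑ l ∈ Finset.range B, BL3 BL (fun X => if hp l X then (1 : ℝ) else 0) L i j := by
    rw [← hsum.2]
    apply BL3_mono BL h _ _ L i j (ht_sb9051 L i j) hsum.1
    intro k1 k2 k3
    rw [ht_sum _ B (hB k1 k2 k3)]
  refine h1.trans ?_
  have hp2 : (0 : ℝ) < 2 ^ (-2 * i - j) := by positivity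
  have h2 : ∀ l : ℕ, BL3 BL (fun X => if hp l X then (1 : ℝ) else 0) L i j ≤
      (if (l : ℤ) < -(i + 2 * j) then (1 : ℝ) else 0) +
        (18 * (1 / 8) ^ l + 6 * 2 ^ (-2 * i - j) * (1 / 4) ^ l) := by
    intro l
    have hpos : (0 : ℝ) ≤ 18 * (1 / 8) ^ l + 6 * 2 ^ (-2 * i - j) * (1 / 4) ^ l := by positivity
    by_cases hl : (l : ℤ) < -(i + 2 * j)
    · rw [if_pos hl]
      have : BL3 BL (fun X => if hp l X then (1 : ℝ) else 0) L i j ≤ 1 := by
        refine (BL3_mono BL h _ (fun _ => (1 : ℝ)) L i j (hsb l) ⟨1, fun _ _ _ => by simp⟩ ?_).trans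
          (BL3_const BL h 1 L i j).le
        intro k1 k2 k3
        split_ifs <;> simp
      linarith
    · rw [if_neg hl, zero_add]
      have := hL0 L hL l (by linarith)
      convert this
  refine (Finset.sum_le_sum fun l _ => h2 l).trans ?_
  rw [Finset.sum_add_distrib, Finset.sum_add_distrib, ← Finset.mul_sum, ← Finset.mul_sum]
  have g1 := geo9051 B (1 / 8) (by norm_num) (by norm_num)
  have g2 := geo9051 B (1 / 4) (by norm_num) (by norm_num)
  norm_num at g1 g2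
  have g3 : ∑ l ∈ Finset.range B, (if (l : ℤ) < -(i + 2 * j) then (1 : ℝ) else 0) ≤
      max 0 (-((i : ℝ) + 2 * j)) := by
    rw [← Finset.sum_filter, Finset.sum_const, nsmul_eq_mul, mul_one]
    have hsub : (Finset.range B).filter (fun l : ℕ => (l : ℤ) < -(i + 2 * j)) ⊆
        Finset.range (-(i + 2 * j)).toNat := by
      intro l hl
      rw [Finset.mem_filter] at hl
      rw [Finset.mem_range]
      omega
    have hc := Finset.card_le_card hsub
    rw [Finset.card_range] at hc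
    have hc2 : (((Finset.range B).filter (fun l : ℕ => (l : ℤ) < -(i + 2 * j))).card : ℝ) ≤
        (((-(i + 2 * j)).toNat : ℤ) : ℝ) := by exact_mod_cast hc
    refine hc2.trans ?_
    rw [Int.toNat_eq_max]
    push_cast
    rw [max_comm]
  have g4 : 6 * (2 : ℝ) ^ (-2 * i - j) * ∑ l ∈ Finset.range B, (1 / 4 : ℝ) ^ l ≤
      8 * 2 ^ (-2 * i - j) := by
    calc 6 * (2 : ℝ) ^ (-2 * i - j) * ∑ l ∈ Finset.range B, (1 / 4 : ℝ) ^ l
        ≤ 6 * (2 : ℝ) ^ (-2 * i - j) * (4 / 3) := by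
          apply mul_le_mul_of_nonneg_left _ (by positivity)
          simpa using g2
      _ = _ := by ring
  have g5 : (18 : ℝ) * ∑ l ∈ Finset.range B, (1 / 8 : ℝ) ^ l ≤ 24 := by
    have : ∑ l ∈ Finset.range B, (1 / 8 : ℝ) ^ l ≤ 8 / 7 := by simpa using g1
    linarith
  linarith

theorem ht_cls (BL : (ℕ → ℝ) → ℝ) (h : IsBL BL) : (fun X : GQ => (ht X : ℝ)) ∈ Cls BL := by
  have habs : (fun X : GQ => |(ht X : ℝ)|) = fun X => (ht X : ℝ) := by
    funext X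
    exact Nat.abs_cast _
  have h2 : ∀ i j : ℤ, ∃ B : ℝ, ∀ L : ℕ, BL3 BL (fun X => (ht X : ℝ)) L i j ≤ B := by
    intro i j
    obtain ⟨L0, hL0⟩ := BL3_ht' BL h i j
    refine ⟨max 0 (-((i : ℝ) + 2 * j)) + 24 + 8 * 2 ^ (-2 * i - j) +
      ∑ L ∈ Finset.range L0, |BL3 BL (fun X => (ht X : ℝ)) L i j|, fun L => ?_⟩
    have hs : 0 ≤ ∑ L ∈ Finset.range L0, |BL3 BL (fun X => (ht X : ℝ)) L i j| :=
      Finset.sum_nonneg fun _ _ => abs_nonneg _
    by_cases hL : L0 ≤ L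
    · have := hL0 L hL
      linarith
    · push Not at hL
      have h3 := Finset.single_le_sum
        (f := fun L => |BL3 BL (fun X => (ht X : ℝ)) L i j|) (fun _ _ => abs_nonneg _)
        (Finset.mem_range.mpr hL)
      have h4 : (0 : ℝ) < 2 ^ (-2 * i - j) := by positivity
      have h5 := le_abs_self (BL3 BL (fun X => (ht X : ℝ)) L i j)
      have h6 := le_max_left 0 (-((i : ℝ) + 2 * j))
      linarith
  refine ⟨fun L i j => ht_sb9051 L i j, fun i j => ?_, fun i0 j0 => ?_⟩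
  · simp only [Nat.abs_cast]
    exact h2 i j
  · simp only [Nat.abs_cast]
    refine ⟨max 0 (-((i0 : ℝ) + 2 * j0)) + 24 + 8 * 2 ^ (-2 * i0 - j0), fun i j hi hj => ?_⟩
    obtain ⟨L0, hL0⟩ := BL3_ht' BL h i j
    obtain ⟨B, hB⟩ := h2 i j
    have hbd : Bd (fun L => BL3 BL (fun X => (ht X : ℝ)) L i j) := by
      refine ⟨B, fun L => ?_⟩
      rw [abs_of_nonneg]
      · exact hB L
      · rw [← BL3_const BL h 0 L i j]
        exact BL3_mono BL h _ _ L i j ⟨0, fun _ _ _ => by simp⟩ (ht_sb9051 L i j)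
          (fun _ _ _ => Nat.cast_nonneg _)
    refine (bl_mono_ev BL h _ (fun _ => max 0 (-((i0 : ℝ) + 2 * j0)) + 24 + 8 * 2 ^ (-2 * i0 - j0))
      hbd ⟨_, fun _ => le_rfl⟩ L0 (fun L hL => ?_)).trans (h.const _).le
    refine (hL0 L hL).trans ?_
    have hi' : (i0 : ℝ) ≤ i := by exact_mod_cast hi
    have hj' : (j0 : ℝ) ≤ j := by exact_mod_cast hj
    have e1 : max 0 (-((i : ℝ) + 2 * j)) ≤ max 0 (-((i0 : ℝ) + 2 * j0)) :=
      max_le_max le_rfl (by linarith)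
    have e2 : (2 : ℝ) ^ (-2 * i - j) ≤ 2 ^ (-2 * i0 - j0) :=
      zpow_le_zpow_right₀ (by norm_num) (by linarith)
    linarith

end Pool.Agent.SL3L1
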