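import Mathlib
import Pool.Agent.SL3L1.Defs

set_option autoImplicit false

namespace Pool.Agent.SL3L1

open Matrix

/-- Gram entries of the rows of `Z` -/
def gr (Z : GQ) (i j : Fin 3) : ℚ := ∑ k, Z.1 i k * Z.1 j k

/-- squared covolume of the first two rows -/
def D2 (Z : GQ) : ℚ := gr Z 0 0 * gr Z 1 1 - gr Z 0 1 ^ 2

/-- the LLL potential -/
def pot (Z : GQ) : ℚ := gr Z 0 0 * D2 Z

/-- reduced bases -/
def Red (Z : GQ) : Prop :=
  |gr Z 0 1| ≤ gr Z 0 0 / 2 ∧ |gr Z 0 2| ≤ gr Z 0 0 / 2 ∧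
  |gr Z 0 0 * gr Z 1 2 - gr Z 0 1 * gr Z 0 2| ≤ D2 Z / 2 ∧
  gr Z 0 0 ≤ gr Z 1 1 ∧ D2 Z ≤ gr Z 0 0 * gr Z 2 2 - gr Z 0 2 ^ 2

/-- TARGET 1 -/
theorem gr_pos (Z : GQ) : 0 < gr Z 0 0 ∧ 0 < D2 Z := by
  have hdet := Z.2
  rw [Matrix.det_fin_three] at hdet
  have hx : gr Z 0 0 = Z.1 0 0 * Z.1 0 0 + Z.1 0 1 * Z.1 0 1 + Z.1 0 2 * Z.1 0 2 := by
    simp only [gr, Fin.sum_univ_three]
  have hD : D2 Z = (Z.1 0 1 * Z.1 1 2 - Z.1 0 2 * Z.1 1 1) ^ 2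
      + (Z.1 0 2 * Z.1 1 0 - Z.1 0 0 * Z.1 1 2) ^ 2
      + (Z.1 0 0 * Z.1 1 1 - Z.1 0 1 * Z.1 1 0) ^ 2 := by
    simp only [D2, gr, Fin.sum_univ_three]
    ring
  constructor
  · rw [hx]
    by_contra hcon
    have h0 : Z.1 0 0 = 0 := by nlinarith [mul_self_nonneg (Z.1 0 0), mul_self_nonneg (Z.1 0 1), mul_self_nonneg (Z.1 0 2)]
    have h1 : Z.1 0 1 = 0 := by nlinarith [mul_self_nonneg (Z.1 0 0), mul_self_nonneg (Z.1 0 1), mul_self_nonneg (Z.1 0 2)]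
    have h2 : Z.1 0 2 = 0 := by nlinarith [mul_self_nonneg (Z.1 0 0), mul_self_nonneg (Z.1 0 1), mul_self_nonneg (Z.1 0 2)]
    rw [h0, h1, h2] at hdet
    norm_num at hdet
  · rw [hD]
    by_contra hcon
    generalize ha : Z.1 0 1 * Z.1 1 2 - Z.1 0 2 * Z.1 1 1 = a at hcon
    generalize hb : Z.1 0 2 * Z.1 1 0 - Z.1 0 0 * Z.1 1 2 = b at hcon
    generalize hc : Z.1 0 0 * Z.1 1 1 - Z.1 0 1 * Z.1 1 0 = c at hcon
    have hdd : a * Z.1 2 0 + b * Z.1 2 1 + c * Z.1 2 2 = 1 := by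
      rw [← ha, ← hb, ← hc]; linear_combination hdet
    have h0 : a = 0 := by nlinarith [sq_nonneg a, sq_nonneg b, sq_nonneg c]
    have h1 : b = 0 := by nlinarith [sq_nonneg a, sq_nonneg b, sq_nonneg c]
    have h2 : c = 0 := by nlinarith [sq_nonneg a, sq_nonneg b, sq_nonneg c]
    rw [h0, h1, h2] at hdd
    norm_num at hdd

/-- TARGET 2: the Gram determinant is `det² = 1` -/
theorem gram_det (Z : GQ) :
    gr Z 0 0 * gr Z 1 1 * gr Z 2 2 + 2 * gr Z 0 1 * gr Z 0 2 * gr Z 1 2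
      - gr Z 0 0 * gr Z 1 2 ^ 2 - gr Z 1 1 * gr Z 0 2 ^ 2 - gr Z 2 2 * gr Z 0 1 ^ 2 = 1 := by
  have hdet := Z.2
  rw [Matrix.det_fin_three] at hdet
  have key : ∀ d : ℚ, d = 1 → d ^ 2 = 1 := fun d hd => by rw [hd]; norm_num
  have h2 := key _ hdet
  simp only [gr, Fin.sum_univ_three]
  linear_combination h2

/-- TARGET 3: the potential attains its minimum on the orbit (all values lie in `(1/M) ℕ` for a
common denominator `M`) -/
theorem exists_min (Y : GQ) :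
    ∃ δ : GZ, ∀ δ' : GZ, pot (castQ δ * Y) ≤ pot (castQ δ' * Y) := by
  -- common denominator
  obtain ⟨N, hN, hY⟩ : ∃ N : ℕ, 0 < N ∧ ∀ i j, ∃ m : ℤ, (N : ℚ) * Y.1 i j = m := by
    refine ⟨∏ i, ∏ j, (Y.1 i j).den, Finset.prod_pos fun i _ => Finset.prod_pos fun j _ =>
      (Y.1 i j).den_pos, fun i j => ?_⟩
    have hd : (Y.1 i j).den ∣ ∏ i, ∏ j, (Y.1 i j).den :=
      (Finset.dvd_prod_of_mem (fun j => (Y.1 i j).den) (Finset.mem_univ j)).trans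
        (Finset.dvd_prod_of_mem (fun i => ∏ j, (Y.1 i j).den) (Finset.mem_univ i))
    obtain ⟨c, hc⟩ := hd
    refine ⟨c * (Y.1 i j).num, ?_⟩
    rw [hc]
    push_cast
    have h := Rat.mul_den_eq_num (Y.1 i j)
    rw [← h]; ring
  have hent : ∀ (δ : GZ) i j, ∃ m : ℤ, (N : ℚ) * (castQ δ * Y).1 i j = m := by
    intro δ i j
    choose f hf using hY
    refine ⟨∑ k, δ.1 i k * f k j, ?_⟩
    have h1 : (castQ δ * Y).1 i j = ∑ k, (δ.1 i k : ℚ) * Y.1 k j := by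
      show ((castQ δ).1 * Y.1) i j = _
      rw [Matrix.mul_apply]
      rfl
    rw [h1, Finset.mul_sum]
    push_cast
    refine Finset.sum_congr rfl fun k _ => ?_
    rw [← hf k j]; ring
  have hgr : ∀ (δ : GZ) i j, ∃ m : ℤ, (N : ℚ) ^ 2 * gr (castQ δ * Y) i j = m := by
    intro δ i j
    choose f hf using hent δ
    refine ⟨∑ k, f i k * f j k, ?_⟩
    rw [gr, Finset.mul_sum]
    push_cast
    refine Finset.sum_congr rfl fun k _ => ?_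
    rw [← hf i k, ← hf j k]; ring
  have hpot : ∀ δ : GZ, ∃ m : ℕ, (N : ℚ) ^ 6 * pot (castQ δ * Y) = m := by
    intro δ
    obtain ⟨a, ha⟩ := hgr δ 0 0
    obtain ⟨b, hb⟩ := hgr δ 1 1
    obtain ⟨c, hc⟩ := hgr δ 0 1
    have hz : (N : ℚ) ^ 6 * pot (castQ δ * Y) = ((a * (a * b - c ^ 2) : ℤ) : ℚ) := by
      push_cast
      rw [← ha, ← hb, ← hc, pot, D2]; ring
    have hpos : 0 < pot (castQ δ * Y) := mul_pos (gr_pos _).1 (gr_pos _).2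
    have hNq : (0 : ℚ) < N := by exact_mod_cast hN
    have hz0 : (0 : ℚ) < ((a * (a * b - c ^ 2) : ℤ) : ℚ) := by
      rw [← hz]; positivity
    have hz1 : 0 ≤ a * (a * b - c ^ 2) := by
      have : 0 < a * (a * b - c ^ 2) := by exact_mod_cast hz0
      exact this.le
    refine ⟨(a * (a * b - c ^ 2)).toNat, ?_⟩
    rw [hz]
    have := Int.toNat_of_nonneg hz1
    exact_mod_cast congrArg (fun z : ℤ => (z : ℚ)) this.symm
  choose F hF using hpot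
  obtain ⟨n, ⟨δ, rfl⟩, hmin⟩ := WellFounded.has_min (wellFounded_lt (α := ℕ)) (Set.range F) ⟨F 1, 1, rfl⟩
  refine ⟨δ, fun δ' => ?_⟩
  have h1 : F δ ≤ F δ' := not_lt.1 (hmin (F δ') ⟨δ', rfl⟩)
  have h2 : ((F δ : ℕ) : ℚ) ≤ F δ' := by exact_mod_cast h1
  rw [← hF δ, ← hF δ'] at h2
  have hNq : (0 : ℚ) < (N : ℚ) ^ 6 := by
    have : (0 : ℚ) < N := by exact_mod_cast hN
    positivity
  exact le_of_mul_le_mul_left h2 hNq

end Pool.Agent.SL3L1
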