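import Mathlib
import Pool.Agent.SL3L1.MinPot

set_option autoImplicit false

namespace Pool.Agent.SL3L1

open Matrix

theorem e2_entry (e : GZ) (Z : GQ) (i k : Fin 3) :
    (castQ e * Z).1 i k = ∑ a, (e.1 i a : ℚ) * Z.1 a k := by
  show ((castQ e).1 * Z.1) i k = _
  rw [Matrix.mul_apply]
  rfl

theorem e2_gr (e : GZ) (Z : GQ) (i j : Fin 3) :
    gr (castQ e * Z) i j = ∑ a, ∑ b, (e.1 i a : ℚ) * (e.1 j b : ℚ) * gr Z a b := by
  unfold gr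
  simp only [e2_entry, Fin.sum_univ_three]
  ring

theorem e2_comm (Z : GQ) (i j : Fin 3) : gr Z i j = gr Z j i := by
  unfold gr
  refine Finset.sum_congr rfl fun k _ => ?_
  ring

theorem e2_rnd (a b : ℚ) (hb : 0 < b) : ∃ k : ℤ, |a + k * b| ≤ b / 2 := by
  refine ⟨-round (a / b), ?_⟩
  have h1 := abs_sub_round (a / b)
  have h2 : a + ((-round (a / b) : ℤ) : ℚ) * b = b * (a / b - (round (a / b) : ℚ)) := by
    push_cast
    field_simp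
    ring
  rw [h2, abs_mul, abs_of_pos hb]
  calc b * |a / b - (round (a / b) : ℚ)| ≤ b * (1 / 2) := mul_le_mul_of_nonneg_left h1 hb.le
    _ = b / 2 := by ring

/-- lower unitriangular -/
def e2_low (k l m : ℤ) : GZ := ⟨!![1, 0, 0; k, 1, 0; m, l, 1], by simp [Matrix.det_fin_three]⟩

def e2_s4 : GZ := ⟨!![0, 1, 0; -1, 0, 0; 0, 0, 1], by simp [Matrix.det_fin_three]⟩

def e2_s5 : GZ := ⟨!![1, 0, 0; 0, 0, 1; 0, -1, 0], by simp [Matrix.det_fin_three]⟩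

theorem e2_low_gr (k l m : ℤ) (Z : GQ) :
    gr (castQ (e2_low k l m) * Z) 0 0 = gr Z 0 0 ∧
    gr (castQ (e2_low k l m) * Z) 0 1 = gr Z 0 1 + k * gr Z 0 0 ∧
    gr (castQ (e2_low k l m) * Z) 0 2 = gr Z 0 2 + l * gr Z 0 1 + m * gr Z 0 0 ∧
    gr (castQ (e2_low k l m) * Z) 1 1 = gr Z 1 1 + 2 * k * gr Z 0 1 + k ^ 2 * gr Z 0 0 ∧
    gr (castQ (e2_low k l m) * Z) 1 2 = gr Z 1 2 + l * gr Z 1 1 + m * gr Z 0 1 +
      k * (gr Z 0 2 + l * gr Z 0 1 + m * gr Z 0 0) := by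
  have h10 := e2_comm Z 1 0
  have h20 := e2_comm Z 2 0
  have h21 := e2_comm Z 2 1
  refine ⟨?_, ?_, ?_, ?_, ?_⟩ <;>
  · rw [e2_gr]
    simp only [Fin.sum_univ_three, e2_low, Matrix.of_apply, Matrix.cons_val', Matrix.cons_val_zero,
      Matrix.cons_val_one, Matrix.cons_val, Int.cast_one, Int.cast_zero, h10, h20, h21]
    ring

theorem e2_s4_gr (Z : GQ) :
    gr (castQ e2_s4 * Z) 0 0 = gr Z 1 1 ∧ gr (castQ e2_s4 * Z) 0 1 = - gr Z 0 1 ∧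
    gr (castQ e2_s4 * Z) 1 1 = gr Z 0 0 := by
  have h10 := e2_comm Z 1 0
  refine ⟨?_, ?_, ?_⟩ <;>
  · rw [e2_gr]
    simp only [Fin.sum_univ_three, e2_s4, Matrix.of_apply, Matrix.cons_val', Matrix.cons_val_zero,
      Matrix.cons_val_one, Matrix.cons_val, Int.cast_one, Int.cast_zero, Int.cast_neg, h10]
    ring

theorem e2_s5_gr (Z : GQ) :
    gr (castQ e2_s5 * Z) 0 0 = gr Z 0 0 ∧ gr (castQ e2_s5 * Z) 0 1 = gr Z 0 2 ∧
    gr (castQ e2_s5 * Z) 1 1 = gr Z 2 2 := by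
  refine ⟨?_, ?_, ?_⟩ <;>
  · rw [e2_gr]
    simp only [Fin.sum_univ_three, e2_s5, Matrix.of_apply, Matrix.cons_val', Matrix.cons_val_zero,
      Matrix.cons_val_one, Matrix.cons_val, Int.cast_one, Int.cast_zero, Int.cast_neg]
    ring

/-- TARGET: every orbit contains a reduced matrix -/
theorem exists_red (Y : GQ) : ∃ δ : GZ, Red (castQ δ * Y) := by
  obtain ⟨δ, hδ⟩ := exists_min Y
  set Z := castQ δ * Y with hZ
  obtain ⟨hp0, hp1⟩ := gr_pos Z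
  obtain ⟨k, hk⟩ := e2_rnd (gr Z 0 1) (gr Z 0 0) hp0
  obtain ⟨l, hl⟩ := e2_rnd (gr Z 0 0 * gr Z 1 2 - gr Z 0 1 * gr Z 0 2) (D2 Z) hp1
  obtain ⟨m, hm⟩ := e2_rnd (gr Z 0 2 + l * gr Z 0 1) (gr Z 0 0) hp0
  obtain ⟨g00, g01, g02, g11, g12⟩ := e2_low_gr k l m Z
  refine ⟨e2_low k l m * δ, ?_⟩
  have hmul : castQ (e2_low k l m * δ) * Y = castQ (e2_low k l m) * Z := by
    rw [map_mul, mul_assoc]
  rw [hmul]
  set W := castQ (e2_low k l m) * Z with hW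
  have hD : D2 W = D2 Z := by
    unfold D2
    rw [g00, g01, g11]
    ring
  have hpot : pot W = pot Z := by
    unfold pot
    rw [hD, g00]
  obtain ⟨hq0, hq1⟩ := gr_pos W
  have h4 := hδ (e2_s4 * (e2_low k l m * δ))
  have h5 := hδ (e2_s5 * (e2_low k l m * δ))
  rw [map_mul, mul_assoc, hmul, ← hpot] at h4 h5
  obtain ⟨a1, a2, a3⟩ := e2_s4_gr W
  obtain ⟨b1, b2, b3⟩ := e2_s5_gr W
  have hD4 : D2 (castQ e2_s4 * W) = D2 W := by
    unfold D2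
    rw [a1, a2, a3]
    ring
  have hD5 : D2 (castQ e2_s5 * W) = gr W 0 0 * gr W 2 2 - gr W 0 2 ^ 2 := by
    unfold D2
    rw [b1, b2, b3]
  refine ⟨?_, ?_, ?_, ?_, ?_⟩
  · rw [g00, g01]
    exact hk
  · rw [g00, g02]
    exact hm
  · rw [hD]
    have h6 : gr W 0 0 * gr W 1 2 - gr W 0 1 * gr W 0 2 =
        gr Z 0 0 * gr Z 1 2 - gr Z 0 1 * gr Z 0 2 + l * D2 Z := by
      rw [g00, g01, g02, g12]
      unfold D2
      ring
    rw [h6]
    exact hl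
  · unfold pot at h4
    rw [hD4, a1] at h4
    exact le_of_mul_le_mul_right h4 hq1
  · unfold pot at h5
    rw [hD5, b1] at h5
    exact le_of_mul_le_mul_left h5 hq0

end Pool.Agent.SL3L1
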