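import Mathlib
import Pool.Agent.SL3L1.ExRed
import Pool.Agent.SL3L1.ShortVec

set_option autoImplicit false

namespace Pool.Agent.SL3L1

open Matrix

/-- pure inequality behind `red_bound` -/
theorem red_bound_aux (a p q r s u : ℚ) (ha0 : 0 < a) (hD0 : 0 < a * q - p ^ 2)
    (hdet : a * q * u + 2 * p * r * s - a * s ^ 2 - q * r ^ 2 - u * p ^ 2 = 1)
    (hp : |p| ≤ a / 2) (hr : |r| ≤ a / 2) (hs : |a * s - p * r| ≤ (a * q - p ^ 2) / 2)
    (hq : a ≤ q) (hu : a * q - p ^ 2 ≤ a * u - r ^ 2) (ε : ℚ) (h0 : 0 < ε) (h1 : ε ≤ 1)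
    (ha : ε ^ 2 ≤ a) : a * ε ^ 4 ≤ 3 ∧ q * ε ^ 4 ≤ 3 ∧ u * ε ^ 4 ≤ 3 := by
  obtain ⟨D, hD⟩ : ∃ D, D = a * q - p ^ 2 := ⟨_, rfl⟩
  rw [← hD] at hD0 hs hu
  have hp2 : p ^ 2 ≤ a ^ 2 / 4 := by
    have := sq_le_sq' (by linarith [(abs_le.1 hp).1]) (abs_le.1 hp).2
    calc p ^ 2 ≤ (a / 2) ^ 2 := this
      _ = a ^ 2 / 4 := by ring
  have hr2 : r ^ 2 ≤ a ^ 2 / 4 := by
    have := sq_le_sq' (by linarith [(abs_le.1 hr).1]) (abs_le.1 hr).2
    calc r ^ 2 ≤ (a / 2) ^ 2 := this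
      _ = a ^ 2 / 4 := by ring
  have hs2 : (a * s - p * r) ^ 2 ≤ D ^ 2 / 4 := by
    have := sq_le_sq' (by linarith [(abs_le.1 hs).1]) (abs_le.1 hs).2
    calc (a * s - p * r) ^ 2 ≤ (D / 2) ^ 2 := this
      _ = D ^ 2 / 4 := by ring
  have hsyl : (a * u - r ^ 2) * D - (a * s - p * r) ^ 2 = a := by
    rw [hD]
    have : (a * u - r ^ 2) * (a * q - p ^ 2) - (a * s - p * r) ^ 2
        = a * (a * q * u + 2 * p * r * s - a * s ^ 2 - q * r ^ 2 - u * p ^ 2) := by ring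
    rw [this, hdet, mul_one]
  have hDa : 3 / 4 * a ^ 2 ≤ D := by
    have : a * a ≤ a * q := mul_le_mul_of_nonneg_left hq ha0.le
    rw [hD]
    nlinarith
  have hD2 : D ^ 2 ≤ 4 / 3 * a := by
    have h2 : D * D ≤ (a * u - r ^ 2) * D := mul_le_mul_of_nonneg_right hu hD0.le
    nlinarith
  have ha43 : a ≤ 4 / 3 := by
    by_contra hcon
    push Not at hcon
    have h2 : (3 / 4 * a ^ 2) ^ 2 ≤ D ^ 2 := pow_le_pow_left₀ (by positivity) hDa 2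
    have h3 : 9 / 16 * a ^ 4 ≤ 4 / 3 * a := by
      calc 9 / 16 * a ^ 4 = (3 / 4 * a ^ 2) ^ 2 := by ring
        _ ≤ _ := h2.trans hD2
    have h4 : (4 / 3 : ℚ) ^ 3 < a ^ 3 := pow_lt_pow_left₀ hcon (by norm_num) (by norm_num)
    have h5 : a * (4 / 3 : ℚ) ^ 3 < a * a ^ 3 := mul_lt_mul_of_pos_left h4 ha0
    norm_num at h5
    nlinarith
  have hD43 : D ≤ 4 / 3 := by
    by_contra hcon
    push Not at hcon
    nlinarith
  have hε2 : ε ^ 2 ≤ 1 := pow_le_one₀ h0.le h1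
  have hε4 : ε ^ 4 ≤ 1 := pow_le_one₀ h0.le h1
  have hε40 : 0 ≤ ε ^ 4 := by positivity
  have hε20 : 0 ≤ ε ^ 2 := by positivity
  have hq0 : 0 < q := lt_of_lt_of_le ha0 hq
  have hu0 : 0 < u := by
    have h2 : 0 < a * u := by nlinarith [sq_nonneg r]
    exact pos_of_mul_pos_right h2 ha0.le
  refine ⟨?_, ?_, ?_⟩
  · calc a * ε ^ 4 ≤ a * 1 := mul_le_mul_of_nonneg_left hε4 ha0.le
      _ ≤ 3 := by linarith
  · have h2 : q * a ≤ 16 / 9 := by nlinarith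
    have h3 : q * ε ^ 4 ≤ q * a * ε ^ 2 := by
      calc q * ε ^ 4 = q * ε ^ 2 * ε ^ 2 := by ring
        _ ≤ q * a * ε ^ 2 := by
          apply mul_le_mul_of_nonneg_right _ hε20
          exact mul_le_mul_of_nonneg_left ha hq0.le
    have h4 : q * a * ε ^ 2 ≤ q * a * 1 := mul_le_mul_of_nonneg_left hε2 (by positivity)
    linarith
  · have h2 : u * D ≤ 16 / 9 := by
      have h3 : a * (u * D) ≤ a * (16 / 9) := by
        have h4 : a * (u * D) = a + (a * s - p * r) ^ 2 + r ^ 2 * D := by linarith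
        have h5 : r ^ 2 * D ≤ a ^ 2 / 4 * D := mul_le_mul_of_nonneg_right hr2 hD0.le
        have h6 : a ^ 2 / 4 * D ≤ a * (4 / 9) := by
          have h7 : a * D ≤ 4 / 3 * (4 / 3) := mul_le_mul ha43 hD43 hD0.le (by norm_num)
          have h8 := mul_le_mul_of_nonneg_left h7 ha0.le
          nlinarith
        rw [h4]
        linarith
      exact le_of_mul_le_mul_left h3 ha0
    have h3 : ε ^ 4 ≤ 4 / 3 * D := by
      have h4 : (ε ^ 2) ^ 2 ≤ a ^ 2 := pow_le_pow_left₀ hε20 ha 2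
      have h5 : ε ^ 4 = (ε ^ 2) ^ 2 := by ring
      rw [h5]
      linarith
    have h4 := mul_le_mul_of_nonneg_left h3 hu0.le
    linarith

/-- TARGET 1 -/
theorem red_bound (Z : GQ) (hZ : Red Z) (ε : ℚ) (h0 : 0 < ε) (h1 : ε ≤ 1)
    (ha : ε ^ 2 ≤ gr Z 0 0) (i : Fin 3) : gr Z i i ≤ 3 / ε ^ 4 := by
  obtain ⟨hp, hr, hs, hq, hu⟩ := hZ
  obtain ⟨h2, h3, h4⟩ := red_bound_aux (gr Z 0 0) (gr Z 0 1) (gr Z 1 1) (gr Z 0 2) (gr Z 1 2)
    (gr Z 2 2) (gr_pos Z).1 (gr_pos Z).2 (gram_det Z) hp hr hs hq hu ε h0 h1 ha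
  rw [le_div_iff₀ (by positivity)]
  fin_cases i
  · exact h2
  · exact h3
  · exact h4

/-- TARGET 2 -/
theorem reduction : ∃ C : ℝ, 0 < C ∧ ∀ Y : GQ, ∃ γ : GZ,
    nrm ((castQ γ)⁻¹ * Y) ≤ C * 4 ^ (ht Y) := by
  refine ⟨18, by norm_num, fun Y => ?_⟩
  obtain ⟨δ, hδ⟩ := exists_red Y
  refine ⟨δ⁻¹, ?_⟩
  have h1 : (castQ δ⁻¹)⁻¹ = castQ δ := by rw [map_inv, inv_inv]
  rw [h1]
  set Z : GQ := castQ δ * Y with hZ
  set N := ht Y with hN
  have hsp := (ht_spec Y).1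
  -- the first row
  have hv : (fun i => δ.1 0 i) ≠ (0 : Fin 3 → ℤ) := by
    intro h
    have h2 : δ.1.det = 0 := Matrix.det_eq_zero_of_row_eq_zero 0 (fun j => congrFun h j)
    rw [δ.2] at h2
    exact one_ne_zero h2
  have hrow : ∃ j, 1 / 2 ^ N ≤ |Z.1 0 j| := by
    by_contra hcon
    push Not at hcon
    apply hsp
    refine ⟨fun i => δ.1 0 i, hv, fun j => ?_⟩
    have h2 : Z.1 0 j = ∑ i, ((δ.1 0 i : ℤ) : ℚ) * Y.1 i j := by
      rw [hZ, Matrix.SpecialLinearGroup.coe_mul, Matrix.mul_apply]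
      rfl
    rw [← h2]
    exact hcon j
  have hsq : ∀ i j, Z.1 i j ^ 2 ≤ gr Z i i := by
    intro i j
    unfold gr
    have h2 : Z.1 i j ^ 2 = Z.1 i j * Z.1 i j := sq _
    rw [h2]
    exact Finset.single_le_sum (f := fun k => Z.1 i k * Z.1 i k)
      (fun k _ => mul_self_nonneg _) (Finset.mem_univ j)
  have hpow0 : (0 : ℚ) < 2 ^ N := by positivity
  have ha : ((1 : ℚ) / 2 ^ N) ^ 2 ≤ gr Z 0 0 := by
    obtain ⟨j, hj⟩ := hrow
    refine le_trans ?_ (hsq 0 j)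
    rw [← sq_abs (Z.1 0 j)]
    exact pow_le_pow_left₀ (by positivity) hj 2
  have hε1 : (1 : ℚ) / 2 ^ N ≤ 1 := by
    rw [div_le_one hpow0]
    exact one_le_pow₀ (by norm_num)
  have hent : ∀ i j, |Z.1 i j| ≤ 2 * 4 ^ N := by
    intro i j
    have h2 := red_bound Z hδ (1 / 2 ^ N) (by positivity) hε1 ha i
    have h3 : (3 : ℚ) / (1 / 2 ^ N) ^ 4 = 3 * (4 ^ N) ^ 2 := by
      have h4 : (4 : ℚ) ^ N = 2 ^ N * 2 ^ N := by
        rw [← mul_pow]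
        norm_num
      rw [h4]
      field_simp
    rw [h3] at h2
    have h5 := (hsq i j).trans h2
    apply abs_le_of_sq_le_sq _ (by positivity)
    calc Z.1 i j ^ 2 ≤ 3 * (4 ^ N) ^ 2 := h5
      _ ≤ (2 * 4 ^ N) ^ 2 := by
        rw [mul_pow]
        have : (0 : ℚ) ≤ (4 ^ N) ^ 2 := by positivity
        linarith
  have hentR : ∀ i j, |((Z.1 i j : ℚ) : ℝ)| ≤ 2 * 4 ^ N := by
    intro i j
    have := hent i j
    exact_mod_cast this
  unfold nrm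
  calc ∑ i, ∑ j, |((Z.1 i j : ℚ) : ℝ)| ≤ ∑ i : Fin 3, ∑ j : Fin 3, (2 * 4 ^ N : ℝ) :=
        Finset.sum_le_sum fun i _ => Finset.sum_le_sum fun j _ => hentR i j
    _ = 18 * 4 ^ N := by
        simp only [Finset.sum_const, Finset.card_univ, Fintype.card_fin, nsmul_eq_mul]
        push_cast
        ring

end Pool.Agent.SL3L1
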