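import Mathlib
import Pool.Agent.SL3L1.HtCls
import Pool.Agent.SL3L1.ClsInv
import Pool.Agent.SL3L1.BLex
import Pool.Agent.SL3L1.CutIneq
import Pool.Agent.SL3L1.Reduct
import Pool.Agent.SL3L1.AllLen

set_option autoImplicit false

namespace Pool.Agent.SL3L1

open Matrix

theorem log_nrm_nonneg (A : GQ) : 0 ≤ Real.log (nrm A) := Real.log_nonneg (nrm_one_le A)

theorem log_nrm_mul (A B : GQ) :
    Real.log (nrm (A * B)) ≤ Real.log (nrm A) + Real.log (nrm B) := by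
  have hA : 0 < nrm A := lt_of_lt_of_le one_pos (nrm_one_le A)
  have hB : 0 < nrm B := lt_of_lt_of_le one_pos (nrm_one_le B)
  have hAB : 0 < nrm (A * B) := lt_of_lt_of_le one_pos (nrm_one_le _)
  rw [← Real.log_mul hA.ne' hB.ne']
  exact Real.log_le_log hAB (nrm_mul A B)

theorem log_nrm_inv (A : GQ) :
    Real.log (nrm A⁻¹) ≤ 2 * Real.log (nrm A) := by
  have hA : 0 < nrm A := lt_of_lt_of_le one_pos (nrm_one_le A)
  have hAi : 0 < nrm A⁻¹ := lt_of_lt_of_le one_pos (nrm_one_le _)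
  have h := Real.log_le_log hAi (nrm_inv A)
  rwa [Real.log_pow] at h

/-- two-sided comparison of the pulled back distance -/
theorem dist_comparison (S : Finset GZ) (hS : Subgroup.closure (S : Set GZ) = ⊤)
    {Ω : Type} [MeasurableSpace Ω] (μ : MeasureTheory.Measure Ω)
    (f : GZ → MeasureTheory.Lp ℝ 1 μ) (c C : ℝ) (hc : 0 < c)
    (hf : ∀ g h : GZ, c * (wl S (g⁻¹ * h) : ℝ) ≤ ‖f g - f h‖ ∧
      ‖f g - f h‖ ≤ C * (wl S (g⁻¹ * h) : ℝ)) :
    ∃ (Φ : GQ → GZ) (c1 A : ℝ), 0 < c1 ∧ 0 < A ∧ ∀ X g h : GQ,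
      ‖f (Φ (X * g)) - f (Φ (X * h))‖ ≤
        A * (1 + Real.log (nrm (g⁻¹ * h))) + A * (ht (X * g) : ℝ) + A * (ht (X * h) : ℝ) ∧
      c1 * Real.log (nrm (g⁻¹ * h)) - A - A * (ht (X * g) : ℝ) - A * (ht (X * h) : ℝ) ≤
        ‖f (Φ (X * g)) - f (Φ (X * h))‖ := by
  obtain ⟨C0, hC0, hred⟩ := reduction
  choose Φ hΦ using hred
  obtain ⟨C2, hC2, hlen⟩ := len_all _ (wl_isLen S hS)
  obtain ⟨C3, hC3, hlow⟩ := wl_lower S hS
  set a0 : ℝ := |Real.log C0| with ha0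
  have ha0n : 0 ≤ a0 := abs_nonneg _
  set C' : ℝ := max C 0 with hC'
  have hC'n : 0 ≤ C' := le_max_right _ _
  have hCC' : C ≤ C' := le_max_left _ _
  have hlp : ∀ Y : GQ, Real.log (nrm ((castQ (Φ Y))⁻¹ * Y)) ≤ a0 + 2 * (ht Y : ℝ) := by
    intro Y
    have hpos : 0 < nrm ((castQ (Φ Y))⁻¹ * Y) := lt_of_lt_of_le one_pos (nrm_one_le _)
    have h1 := Real.log_le_log hpos (hΦ Y)
    rw [Real.log_mul hC0.ne' (by positivity), Real.log_pow] at h1
    have h4 : Real.log 4 ≤ 2 := by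
      have h41 : Real.log 4 = 2 * Real.log 2 := by
        rw [show (4:ℝ) = 2 ^ 2 by norm_num, Real.log_pow]; norm_num
      have := Real.log_two_lt_d9
      linarith
    have h5 : Real.log C0 ≤ a0 := le_abs_self _
    have h6 : (ht Y : ℝ) * Real.log 4 ≤ (ht Y : ℝ) * 2 :=
      mul_le_mul_of_nonneg_left h4 (Nat.cast_nonneg _)
    linarith
  have hcL : 0 < c / C3 := div_pos hc hC3
  refine ⟨Φ, c / C3, (4 * (C' * C2) * (1 + 3 * a0) + 1) + (c + 4 * (c / C3) * (1 + 3 * a0)),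
    hcL, by positivity, ?_⟩
  intro X g h
  set Pg : GQ := (castQ (Φ (X * g)))⁻¹ * (X * g) with hPg
  set Ph : GQ := (castQ (Φ (X * h)))⁻¹ * (X * h) with hPh
  have hlg := hlp (X * g)
  have hlh := hlp (X * h)
  rw [← hPg] at hlg
  rw [← hPh] at hlh
  set γ : GZ := (Φ (X * g))⁻¹ * Φ (X * h) with hγ
  have e1 : castQ γ = Pg * (g⁻¹ * h) * Ph⁻¹ := by
    rw [hγ, map_mul, map_inv, hPg, hPh]
    group
  have e2 : g⁻¹ * h = Pg⁻¹ * castQ γ * Ph := by
    rw [e1]; group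
  have hL0 : 0 ≤ Real.log (nrm (g⁻¹ * h)) := log_nrm_nonneg _
  set L := Real.log (nrm (g⁻¹ * h)) with hL
  have hu : Real.log (nrm (castQ γ)) ≤ Real.log (nrm Pg) + L + 2 * Real.log (nrm Ph) := by
    have t1 := log_nrm_mul (Pg * (g⁻¹ * h)) Ph⁻¹
    have t2 := log_nrm_mul Pg (g⁻¹ * h)
    have t3 := log_nrm_inv Ph
    rw [e1]
    linarith
  have hd : L ≤ 2 * Real.log (nrm Pg) + Real.log (nrm (castQ γ)) + Real.log (nrm Ph) := by
    have t1 := log_nrm_mul (Pg⁻¹ * castQ γ) Ph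
    have t2 := log_nrm_mul Pg⁻¹ (castQ γ)
    have t3 := log_nrm_inv Pg
    rw [← e2] at t1
    linarith
  have hwl := hlen γ
  have hwl2 := hlow γ
  have hfb := hf (Φ (X * g)) (Φ (X * h))
  rw [← hγ] at hfb
  have hwn : (0 : ℝ) ≤ (wl S γ : ℝ) := Nat.cast_nonneg _
  have hg0 : (0 : ℝ) ≤ (ht (X * g) : ℝ) := Nat.cast_nonneg _
  have hh0 : (0 : ℝ) ≤ (ht (X * h) : ℝ) := Nat.cast_nonneg _
  set tg : ℝ := (ht (X * g) : ℝ) with htg
  set th : ℝ := (ht (X * h) : ℝ) with hth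
  set D : ℝ := ‖f (Φ (X * g)) - f (Φ (X * h))‖ with hD
  have hK : 0 ≤ C' * C2 := by positivity
  set K := C' * C2 with hKdef
  set c1 := c / C3 with hc1
  constructor
  · have s1 : D ≤ C' * (wl S γ : ℝ) := hfb.2.trans (mul_le_mul_of_nonneg_right hCC' hwn)
    have s2 : C' * (wl S γ : ℝ) ≤ C' * (C2 * (1 + Real.log (nrm (castQ γ)))) :=
      mul_le_mul_of_nonneg_left hwl hC'n
    have s3 : C' * (C2 * (1 + Real.log (nrm (castQ γ)))) = K * (1 + Real.log (nrm (castQ γ))) := by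
      rw [hKdef]; ring
    have s4 : K * (1 + Real.log (nrm (castQ γ))) ≤ K * (1 + (L + 3 * a0 + 2 * tg + 4 * th)) := by
      apply mul_le_mul_of_nonneg_left _ hK
      linarith
    have s5 : D ≤ K * (1 + (L + 3 * a0 + 2 * tg + 4 * th)) := by
      rw [s3] at s2; linarith
    have p1 : 0 ≤ K * a0 := mul_nonneg hK ha0n
    have p2 : 0 ≤ K * a0 * L := mul_nonneg p1 hL0
    have p3 : 0 ≤ K * a0 * tg := mul_nonneg p1 hg0
    have p4 : 0 ≤ K * a0 * th := mul_nonneg p1 hh0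
    have p5 : 0 ≤ K * L := mul_nonneg hK hL0
    have p6 : 0 ≤ K * tg := mul_nonneg hK hg0
    have p7 : 0 ≤ K * th := mul_nonneg hK hh0
    have q1 : 0 ≤ c1 * a0 := mul_nonneg hcL.le ha0n
    have q2 : 0 ≤ c1 * a0 * L := mul_nonneg q1 hL0
    have q3 : 0 ≤ c1 * a0 * tg := mul_nonneg q1 hg0
    have q4 : 0 ≤ c1 * a0 * th := mul_nonneg q1 hh0
    have q5 : 0 ≤ c1 * L := mul_nonneg hcL.le hL0
    have q6 : 0 ≤ c1 * tg := mul_nonneg hcL.le hg0
    have q7 : 0 ≤ c1 * th := mul_nonneg hcL.le hh0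
    have r1 : 0 ≤ c * L := mul_nonneg hc.le hL0
    have r2 : 0 ≤ c * tg := mul_nonneg hc.le hg0
    have r3 : 0 ≤ c * th := mul_nonneg hc.le hh0
    nlinarith
  · have s1 : (Real.log (nrm (castQ γ))) / C3 ≤ 1 + (wl S γ : ℝ) := by
      rw [div_le_iff₀ hC3]; linarith
    have s2 : c * ((Real.log (nrm (castQ γ))) / C3) ≤ c * (1 + (wl S γ : ℝ)) :=
      mul_le_mul_of_nonneg_left s1 hc.le
    have s3 : c * ((Real.log (nrm (castQ γ))) / C3) = c1 * Real.log (nrm (castQ γ)) := by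
      rw [hc1]; ring
    have s4 : c1 * (L - 2 * (a0 + 2 * tg) - (a0 + 2 * th)) ≤ c1 * Real.log (nrm (castQ γ)) := by
      apply mul_le_mul_of_nonneg_left _ hcL.le
      linarith
    have s5 := hfb.1
    have p1 : 0 ≤ K * a0 := mul_nonneg hK ha0n
    have p3 : 0 ≤ K * a0 * tg := mul_nonneg p1 hg0
    have p4 : 0 ≤ K * a0 * th := mul_nonneg p1 hh0
    have p6 : 0 ≤ K * tg := mul_nonneg hK hg0
    have p7 : 0 ≤ K * th := mul_nonneg hK hh0
    have q1 : 0 ≤ c1 * a0 := mul_nonneg hcL.le ha0n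
    have q3 : 0 ≤ c1 * a0 * tg := mul_nonneg q1 hg0
    have q4 : 0 ≤ c1 * a0 * th := mul_nonneg q1 hh0
    have q6 : 0 ≤ c1 * tg := mul_nonneg hcL.le hg0
    have q7 : 0 ≤ c1 * th := mul_nonneg hcL.le hh0
    have r2 : 0 ≤ c * tg := mul_nonneg hc.le hg0
    have r3 : 0 ≤ c * th := mul_nonneg hc.le hh0
    nlinarith

theorem cls_list (BL : (ℕ → ℝ) → ℝ) (h : IsBL BL) {α : Type} (F : α → GQ → ℝ) :
    ∀ l : List α, (∀ a ∈ l, F a ∈ Cls BL) →
      (fun X => (l.map fun a => F a X).sum) ∈ Cls BL ∧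
      Mn BL (fun X => (l.map fun a => F a X).sum) = (l.map fun a => Mn BL (F a)).sum := by
  intro l
  induction l with
  | nil =>
    intro _
    simpa using cls_const BL h 0
  | cons a l ih =>
    intro hl
    have h1 := ih (fun b hb => hl b (List.mem_cons_of_mem _ hb))
    have h2 := hl a List.mem_cons_self
    have h3 := cls_add BL h (F a) _ h2 h1.1
    simp only [List.map_cons, List.sum_cons]
    refine ⟨h3.1, ?_⟩
    rw [h3.2, h1.2]

/-- the averaged kernel -/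
theorem kernel (S : Finset GZ) (hS : Subgroup.closure (S : Set GZ) = ⊤)
    {Ω : Type} [MeasurableSpace Ω] (μ : MeasureTheory.Measure Ω)
    (f : GZ → MeasureTheory.Lp ℝ 1 μ) (c C : ℝ) (hc : 0 < c)
    (hf : ∀ g h : GZ, c * (wl S (g⁻¹ * h) : ℝ) ≤ ‖f g - f h‖ ∧
      ‖f g - f h‖ ≤ C * (wl S (g⁻¹ * h) : ℝ)) :
    ∃ (K : GQ → GQ → ℝ) (c1 C1 : ℝ), 0 < c1 ∧ 0 < C1 ∧
      (∀ a ∈ HH, ∀ g ∈ HH, ∀ h ∈ HH, K (a * g) (a * h) = K g h) ∧
      (∀ g ∈ HH, ∀ h ∈ HH, K g h ≤ C1 * (1 + Real.log (nrm (g⁻¹ * h)))) ∧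
      (∀ g ∈ HH, ∀ h ∈ HH, c1 * Real.log (nrm (g⁻¹ * h)) - C1 ≤ K g h) ∧
      (∀ g ∈ HH, ∀ h ∈ HH, 0 ≤ K g h) ∧
      (∀ g ∈ HH, ∀ h ∈ HH, ∀ k ∈ HH, K g k ≤ K g h + K h k) ∧
      (∀ (V : Type) (s0 s4 : V) (E : List (V × V)) (T : List (V × V × V)), CutImp V s0 s4 E T →
        ∀ π : V → GQ, (∀ v, π v ∈ HH) →
          K (π s0) (π s4) ≤ (E.map fun e => K (π e.1) (π e.2)).sum +
            (1/2) * (T.map fun t =>
              K (π t.1) (π t.2.1) + K (π t.2.1) (π t.2.2) - K (π t.1) (π t.2.2)).sum) := by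
  obtain ⟨Φ, c1, A, hc1, hA, hdc⟩ := dist_comparison S hS μ f c C hc hf
  obtain ⟨BL, hBL⟩ := exists_IsBL
  have hht := ht_cls BL hBL
  set m : ℝ := Mn BL (fun X : GQ => (ht X : ℝ)) with hm
  have hm0 : 0 ≤ m := by
    have h1 := cls_const BL hBL 0
    have h2 := cls_mono BL hBL _ _ h1.1 hht (fun X => Nat.cast_nonneg _)
    rw [h1.2] at h2
    exact h2
  have htr : ∀ g ∈ HH, (fun X : GQ => (ht (X * g) : ℝ)) ∈ Cls BL ∧
      Mn BL (fun X : GQ => (ht (X * g) : ℝ)) = m := fun g hg =>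
    cls_trans BL hBL (fun X : GQ => (ht X : ℝ)) g hht hg
  -- affine combination
  have haff : ∀ (k b : ℝ) (g h : GQ), g ∈ HH → h ∈ HH →
      (fun X : GQ => k + b * (ht (X * g) : ℝ) + b * (ht (X * h) : ℝ)) ∈ Cls BL ∧
      Mn BL (fun X : GQ => k + b * (ht (X * g) : ℝ) + b * (ht (X * h) : ℝ)) =
        k + b * m + b * m := by
    intro k b g h hg hh
    have h1 := cls_const BL hBL k
    have h2 := htr g hg
    have h3 := htr h hh
    have h4 := cls_smul BL hBL b _ h2.1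
    have h5 := cls_smul BL hBL b _ h3.1
    have h6 := cls_add BL hBL _ _ h1.1 h4.1
    have h7 := cls_add BL hBL _ _ h6.1 h5.1
    refine ⟨h7.1, ?_⟩
    rw [h7.2, h6.2, h1.2, h4.2, h5.2, h2.2, h3.2]
  let Dd : GQ → GQ → GQ → ℝ := fun g h X => ‖f (Φ (X * g)) - f (Φ (X * h))‖
  have hD : ∀ g h : GQ, g ∈ HH → h ∈ HH → Dd g h ∈ Cls BL := by
    intro g h hg hh
    have h1 := haff (A * (1 + Real.log (nrm (g⁻¹ * h)))) A g h hg hh
    refine cls_dom BL hBL _ _ h1.1 ?_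
    intro X
    simp only [Dd]
    rw [abs_of_nonneg (norm_nonneg _)]
    exact (hdc X g h).1
  refine ⟨fun g h => Mn BL (Dd g h), c1, A + 2 * A * m, hc1, by positivity, ?_, ?_, ?_, ?_, ?_, ?_⟩
  · intro a ha g hg h hh
    have h1 := (cls_trans BL hBL (Dd g h) a (hD g h hg hh) ha).2
    simp only
    rw [← h1]
    congr 1
    funext X
    simp only [Dd, mul_assoc]
  · intro g hg h hh
    have h1 := haff (A * (1 + Real.log (nrm (g⁻¹ * h)))) A g h hg hh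
    have h2 := cls_mono BL hBL _ _ (hD g h hg hh) h1.1 (fun X => (hdc X g h).1)
    rw [h1.2] at h2
    have h3 := log_nrm_nonneg (g⁻¹ * h)
    have h4 : 0 ≤ A * m := mul_nonneg hA.le hm0
    have h5 : 0 ≤ A * m * Real.log (nrm (g⁻¹ * h)) := mul_nonneg h4 h3
    simp only
    nlinarith
  · intro g hg h hh
    have h1 := haff (c1 * Real.log (nrm (g⁻¹ * h)) - A) (-A) g h hg hh
    have h2 := cls_mono BL hBL _ _ h1.1 (hD g h hg hh) (fun X => by
      have := (hdc X g h).2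
      simp only [Dd]
      linarith)
    rw [h1.2] at h2
    simp only
    linarith
  · intro g hg h hh
    have h1 := cls_const BL hBL 0
    have h2 := cls_mono BL hBL _ _ h1.1 (hD g h hg hh) (fun X => norm_nonneg _)
    rw [h1.2] at h2
    exact h2
  · intro g hg h hh k hk
    have h1 := cls_add BL hBL _ _ (hD g h hg hh) (hD h k hh hk)
    have h2 := cls_mono BL hBL _ _ (hD g k hg hk) h1.1 (fun X => by
      simp only [Dd]
      exact norm_sub_le_norm_sub_add_norm_sub _ _ _)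
    rw [h1.2] at h2
    exact h2
  · intro V s0 s4 E T hcut π hπ
    have hE := cls_list BL hBL (fun e : V × V => Dd (π e.1) (π e.2)) E
      (fun e _ => hD _ _ (hπ _) (hπ _))
    have hT1 : ∀ t : V × V × V,
        (fun X => Dd (π t.1) (π t.2.1) X + Dd (π t.2.1) (π t.2.2) X - Dd (π t.1) (π t.2.2) X)
          ∈ Cls BL ∧
        Mn BL (fun X => Dd (π t.1) (π t.2.1) X + Dd (π t.2.1) (π t.2.2) X -
          Dd (π t.1) (π t.2.2) X) = Mn BL (Dd (π t.1) (π t.2.1)) +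
            Mn BL (Dd (π t.2.1) (π t.2.2)) - Mn BL (Dd (π t.1) (π t.2.2)) := by
      intro t
      have a1 := hD (π t.1) (π t.2.1) (hπ _) (hπ _)
      have a2 := hD (π t.2.1) (π t.2.2) (hπ _) (hπ _)
      have a3 := hD (π t.1) (π t.2.2) (hπ _) (hπ _)
      have b1 := cls_add BL hBL _ _ a1 a2
      have b2 := cls_smul BL hBL (-1) _ a3
      have b3 := cls_add BL hBL _ _ b1.1 b2.1
      have e : (fun X => Dd (π t.1) (π t.2.1) X + Dd (π t.2.1) (π t.2.2) X -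
          Dd (π t.1) (π t.2.2) X) = (fun X => (Dd (π t.1) (π t.2.1) X +
            Dd (π t.2.1) (π t.2.2) X) + (-1) * Dd (π t.1) (π t.2.2) X) := by
        funext X; ring
      rw [e]
      refine ⟨b3.1, ?_⟩
      rw [b3.2, b1.2, b2.2]; ring
    have hT := cls_list BL hBL (fun t : V × V × V => fun X => Dd (π t.1) (π t.2.1) X +
      Dd (π t.2.1) (π t.2.2) X - Dd (π t.1) (π t.2.2) X) T (fun t _ => (hT1 t).1)
    have hT2 := cls_smul BL hBL (1/2) _ hT.1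
    have hsum := cls_add BL hBL _ _ hE.1 hT2.1
    have hle := cls_mono BL hBL _ _ (hD (π s0) (π s4) (hπ _) (hπ _)) hsum.1 (fun X => by
      have := cut_L1 V s0 s4 E T hcut μ (fun v => f (Φ (X * π v)))
      exact this)
    rw [hsum.2, hE.2, hT2.2, hT.2] at hle
    have e3 : (T.map fun t : V × V × V => Mn BL (fun X => Dd (π t.1) (π t.2.1) X +
          Dd (π t.2.1) (π t.2.2) X - Dd (π t.1) (π t.2.2) X)) =
        (T.map fun t : V × V × V => Mn BL (Dd (π t.1) (π t.2.1)) +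
            Mn BL (Dd (π t.2.1) (π t.2.2)) - Mn BL (Dd (π t.1) (π t.2.2))) := by
      apply List.map_congr_left
      intro t _
      exact (hT1 t).2
    rw [e3] at hle
    exact hle

end Pool.Agent.SL3L1
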