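import Mathlib
import Pool.Agent.SL3L1.Kernel
import Pool.Agent.SL3L1.KerFalse

set_option autoImplicit false

namespace Pool.Agent.SL3L1

/-- `SL₃(ℤ)` admits no bi-Lipschitz embedding into `L¹` -/
theorem no_embedding (S : Finset GZ) (hS : Subgroup.closure (S : Set GZ) = ⊤)
    {Ω : Type} [MeasurableSpace Ω] (μ : MeasureTheory.Measure Ω)
    (f : GZ → MeasureTheory.Lp ℝ 1 μ) (c C : ℝ) (hc : 0 < c)
    (hf : ∀ g h : GZ, c * (wl S (g⁻¹ * h) : ℝ) ≤ ‖f g - f h‖ ∧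
      ‖f g - f h‖ ≤ C * (wl S (g⁻¹ * h) : ℝ)) : False := by
  obtain ⟨K, c1, C1, h1, h2, h3, h4, h5, h6, h7, h8⟩ := kernel S hS μ f c C hc hf
  exact ker_false K c1 C1 ⟨h1, h2, h3, h4, h5, h6, h7, h8⟩

end Pool.Agent.SL3L1
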